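import Pool.Agent.H711.DT.Stm

/-! Assembly of project DT. -/

namespace Pool.Agent.H711.DT

open Filter

/-! ### Numbers -/

/-- The primes up to 200. -/
def P200 : Finset ℕ := {2, 3, 5, 7, 11, 13, 17, 19, 23, 29, 31, 37, 41, 43, 47, 53, 59, 61, 67, 71, 73,
  79, 83, 89, 97, 101, 103, 107, 109, 113, 127, 131, 137, 139, 149, 151, 157, 163, 167, 173, 179,
  181, 191, 193, 197, 199}

lemma prime200 (l : ℕ) (hp : l.Prime) (hl : l ≤ 200) : l ∈ P200 := by
  interval_cases l <;> first | decide | (exfalso; revert hp; norm_num)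

lemma sum200 : ∑ l ∈ P200, (2 : ℝ) / (l : ℝ) ^ 2 ≤ 903 / 1000 := by
  unfold P200
  norm_num [Finset.sum_insert]

lemma sumE (hN : S_NUM) (E0 : Finset ℕ) (hE : E0 ⊆ P200) (F : Finset ℕ)
    (hF : ∀ l ∈ F, l.Prime ∧ l ∉ E0) :
    ∑ l ∈ F, 2 / (l : ℝ) ^ 2 ≤ 903 / 1000 - ∑ l ∈ E0, 2 / (l : ℝ) ^ 2 + 1 / 200 := by
  classical
  have h1 : ∑ l ∈ F, 2 / (l : ℝ) ^ 2 = ∑ l ∈ F.filter (fun l => l ≤ 200), 2 / (l : ℝ) ^ 2 +
      ∑ l ∈ F.filter (fun l => ¬ l ≤ 200), 2 / (l : ℝ) ^ 2 :=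
    (Finset.sum_filter_add_sum_filter_not F (fun l => l ≤ 200) _).symm
  have h2 : ∑ l ∈ F.filter (fun l => ¬ l ≤ 200), 2 / (l : ℝ) ^ 2 ≤ 1 / 200 := by
    apply hN
    intro l hl
    rw [Finset.mem_filter] at hl
    exact ⟨(hF l hl.1).1, by omega⟩
  have h3 : ∑ l ∈ F.filter (fun l => l ≤ 200), 2 / (l : ℝ) ^ 2 ≤ ∑ l ∈ P200 \ E0, 2 / (l : ℝ) ^ 2 := by
    apply Finset.sum_le_sum_of_subset_of_nonneg
    · intro l hl
      rw [Finset.mem_filter] at hl
      rw [Finset.mem_sdiff]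
      exact ⟨prime200 l (hF l hl.1).1 hl.2, (hF l hl.1).2⟩
    · intro l _ _
      positivity
  have h4 : ∑ l ∈ P200 \ E0, 2 / (l : ℝ) ^ 2 + ∑ l ∈ E0, 2 / (l : ℝ) ^ 2 = ∑ l ∈ P200, 2 / (l : ℝ) ^ 2 :=
    Finset.sum_sdiff hE
  have h5 := sum200
  linarith

/-! ### Linear algebra -/

lemma dt_mul2 (A B C r s : ℤ) (x : PP) : dt (mul2 A B C r s x) = nm A B C r s * dt x := by
  unfold dt mul2 mul nm; ring

lemma mul_sub (A B C r s : ℤ) (p q : V) : mul A B C r s (p - q) = mul A B C r s p - mul A B C r s q := by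
  unfold mul; ext <;> simp <;> ring

lemma fq_mul (A B C r s : ℤ) (p : V) : fq A B C (mul A B C r s p) = nm A B C r s * fq A B C p := by
  unfold fq mul nm; ring

lemma mul2_inj (A B C r s : ℤ) (h : nm A B C r s = 1) : Function.Injective (mul2 A B C r s) := by
  have key : ∀ p : V, mul A B C (r + s * B) (-s) (mul A B C r s p) = p := by
    intro p
    unfold nm at h
    unfold mul
    ext
    · simp only
      linear_combination p.1 * h
    · simp only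
      linear_combination p.2 * h
  intro x y hxy
  have h1 : mul A B C r s x.1 = mul A B C r s y.1 := congrArg Prod.fst hxy
  have h2 : mul A B C r s x.2 = mul A B C r s y.2 := congrArg Prod.snd hxy
  have e1 : x.1 = y.1 := by rw [← key x.1, ← key y.1, h1]
  have e2 : x.2 = y.2 := by rw [← key x.2, ← key y.2, h2]
  exact Prod.ext e1 e2

lemma qR_eq (c : ℝ) (A B C : ℤ) (p : V) : qR (c * A) (c * B) (c * C) p = c * (fq A B C p : ℤ) := by
  unfold qR fq; push_cast; ring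

lemma sides_mul2 (c : ℝ) (A B C r s : ℤ) (h : nm A B C r s = 1) (x : PP) :
    sidesR (c * A) (c * B) (c * C) (mul2 A B C r s x) = sidesR (c * A) (c * B) (c * C) x := by
  unfold sidesR
  have h1 : (mul2 A B C r s x).1 = mul A B C r s x.1 := rfl
  have h2 : (mul2 A B C r s x).2 = mul A B C r s x.2 := rfl
  rw [h1, h2, ← mul_sub]
  simp only [qR_eq, fq_mul, h, one_mul]

lemma mem_XA {N : ℕ} {x : PP} : x ∈ XA N ↔ InBox N x ∧ |x.1.1 - x.2.1| ≤ (N : ℤ) ∧
    |x.1.2 - x.2.2| ≤ (N : ℤ) := by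
  unfold XA InBox
  simp only [Finset.mem_filter, Finset.mem_product, Finset.mem_Icc, abs_le]
  tauto

lemma box_img (A B C r s : ℤ) : ∃ c : ℕ, ∀ N : ℕ, ∀ x ∈ (XA N).image (mul2 A B C r s),
    InBox (c * N) x := by
  refine ⟨(|r| + |s * C| + |s * A| + |r + s * B|).toNat, ?_⟩
  intro N x hx
  rw [Finset.mem_image] at hx
  obtain ⟨y, hy, rfl⟩ := hx
  rw [mem_XA] at hy
  obtain ⟨⟨h1, h2, h3, h4⟩, -⟩ := hy
  have hc : (((|r| + |s * C| + |s * A| + |r + s * B|).toNat * N : ℕ) : ℤ) =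
      (|r| + |s * C| + |s * A| + |r + s * B|) * N := by
    push_cast
    rw [Int.toNat_of_nonneg (by positivity)]
  have key1 : ∀ u v : ℤ, |u| ≤ (N : ℤ) → |v| ≤ (N : ℤ) →
      |r * u - s * C * v| ≤ (|r| + |s * C| + |s * A| + |r + s * B|) * N := by
    intro u v hu hv
    have a1 : |r * u - s * C * v| ≤ |r| * |u| + |s * C| * |v| := by
      calc |r * u - s * C * v| ≤ |r * u| + |s * C * v| := abs_sub _ _
        _ = |r| * |u| + |s * C| * |v| := by rw [abs_mul r u, abs_mul (s * C) v]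
    have a2 : |r| * |u| ≤ |r| * N := mul_le_mul_of_nonneg_left hu (abs_nonneg _)
    have a3 : |s * C| * |v| ≤ |s * C| * N := mul_le_mul_of_nonneg_left hv (abs_nonneg _)
    have a4 : 0 ≤ |s * A| * (N : ℤ) := by positivity
    have a5 : 0 ≤ |r + s * B| * (N : ℤ) := by positivity
    nlinarith
  have key2 : ∀ u v : ℤ, |u| ≤ (N : ℤ) → |v| ≤ (N : ℤ) →
      |s * A * u + (r + s * B) * v| ≤ (|r| + |s * C| + |s * A| + |r + s * B|) * N := by
    intro u v hu hv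
    have a1 : |s * A * u + (r + s * B) * v| ≤ |s * A| * |u| + |r + s * B| * |v| := by
      calc |s * A * u + (r + s * B) * v| ≤ |s * A * u| + |(r + s * B) * v| := abs_add_le _ _
        _ = |s * A| * |u| + |r + s * B| * |v| := by
            rw [abs_mul (s * A) u, abs_mul (r + s * B) v]
    have a2 : |s * A| * |u| ≤ |s * A| * N := mul_le_mul_of_nonneg_left hu (abs_nonneg _)
    have a3 : |r + s * B| * |v| ≤ |r + s * B| * N := mul_le_mul_of_nonneg_left hv (abs_nonneg _)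
    have a4 : 0 ≤ |r| * (N : ℤ) := by positivity
    have a5 : 0 ≤ |s * C| * (N : ℤ) := by positivity
    nlinarith
  unfold InBox
  rw [hc]
  exact ⟨key1 _ _ h1 h2, key2 _ _ h1 h2, key1 _ _ h3 h4, key2 _ _ h3 h4⟩

/-! ### Elementary facts on `Bad` -/

lemma bad_sq (A B C : ℤ) (l : ℕ) (x : PP) (h : Bad A B C l x) :
    ∃ u : ℤ, 4 * (l : ℤ) ^ 2 ∣ u ^ 2 + (4 * A * C - B ^ 2) := by
  obtain ⟨k, ⟨w, hw⟩, -⟩ := h
  exact ⟨2 * k - B, w, by linear_combination 4 * hw⟩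

lemma not_bad (A B C : ℤ) (l : ℕ) (x : PP) (D : ℤ) (hD : 4 * A * C - B ^ 2 = D) (m : ℕ)
    (hm : (m : ℤ) ∣ 4 * (l : ℤ) ^ 2) (h0 : ∀ z : ZMod m, z ^ 2 + (D : ZMod m) ≠ 0) :
    ¬ Bad A B C l x := by
  intro h
  obtain ⟨u, hu⟩ := bad_sq A B C l x h
  rw [hD] at hu
  have h1 : (m : ℤ) ∣ u ^ 2 + D := hm.trans hu
  have h2 : ((u ^ 2 + D : ℤ) : ZMod m) = 0 := (ZMod.intCast_zmod_eq_zero_iff_dvd _ _).2 h1
  push_cast at h2
  exact h0 _ h2

/-! ### Reduction to primitive forms -/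

lemma exists_prim (α β γ : ℝ) (hα : 0 < α) (hd : β ^ 2 < 4 * α * γ)
    (h : ∃ (c : ℝ) (A B C : ℤ), 0 < c ∧ α = c * A ∧ β = c * B ∧ γ = c * C) :
    ∃ (c : ℝ) (A B C : ℤ), 0 < c ∧ α = c * A ∧ β = c * B ∧ γ = c * C ∧ Prim A B C := by
  obtain ⟨c, A, B, C, hc, h1, h2, h3⟩ := h
  have hA : (0 : ℤ) < A := by
    have : (0 : ℝ) < A := by
      by_contra hh
      push Not at hh
      have := mul_nonpos_of_nonneg_of_nonpos hc.le hh
      linarith
    exact_mod_cast this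
  let g : ℕ := Nat.gcd (Nat.gcd A.natAbs B.natAbs) C.natAbs
  have hgA : (g : ℤ) ∣ A := Int.natCast_dvd.2 ((Nat.gcd_dvd_left _ _).trans (Nat.gcd_dvd_left _ _))
  have hgB : (g : ℤ) ∣ B := Int.natCast_dvd.2 ((Nat.gcd_dvd_left _ _).trans (Nat.gcd_dvd_right _ _))
  have hgC : (g : ℤ) ∣ C := Int.natCast_dvd.2 (Nat.gcd_dvd_right _ _)
  obtain ⟨A', hA'⟩ := hgA
  obtain ⟨B', hB'⟩ := hgB
  obtain ⟨C', hC'⟩ := hgC
  have hg0 : 0 < g := by
    rcases Nat.eq_zero_or_pos g with h0 | h0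
    · rw [h0] at hA'; simp at hA'; omega
    · exact h0
  have hgR : (0 : ℝ) < g := by exact_mod_cast hg0
  refine ⟨c * g, A', B', C', by positivity, ?_, ?_, ?_, ?_, ?_, ?_⟩
  · rw [h1, hA']; push_cast; ring
  · rw [h2, hB']; push_cast; ring
  · rw [h3, hC']; push_cast; ring
  · by_contra hh
    push Not at hh
    have : (g : ℤ) * A' ≤ 0 := mul_nonpos_of_nonneg_of_nonpos (by positivity) hh
    omega
  · have e : ((B' : ℝ)) ^ 2 < 4 * A' * C' := by
      rw [h1, h2, h3, hA', hB', hC'] at hd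
      push_cast at hd
      have hp : 0 < (c * g) ^ 2 := by positivity
      by_contra hh
      push Not at hh
      have := mul_le_mul_of_nonneg_left hh hp.le
      nlinarith
    exact_mod_cast e
  · intro l hl hlA hlB hlC
    have d1 : l * g ∣ A.natAbs := by
      rw [← Int.natCast_dvd]
      obtain ⟨w, hw⟩ := hlA
      exact ⟨w, by rw [hA', hw]; push_cast; ring⟩
    have d2 : l * g ∣ B.natAbs := by
      rw [← Int.natCast_dvd]
      obtain ⟨w, hw⟩ := hlB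
      exact ⟨w, by rw [hB', hw]; push_cast; ring⟩
    have d3 : l * g ∣ C.natAbs := by
      rw [← Int.natCast_dvd]
      obtain ⟨w, hw⟩ := hlC
      exact ⟨w, by rw [hC', hw]; push_cast; ring⟩
    have d4 : l * g ∣ g := Nat.dvd_gcd (Nat.dvd_gcd d1 d2) d3
    have d5 := Nat.le_of_dvd hg0 d4
    have d6 := hl.two_le
    nlinarith

end Pool.Agent.H711.DT
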