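import Pool.Agent.H711.DT.Stm

/-! TASK BIG of the project DT (owner helper711), proved by helper357. -/

namespace Pool.Agent.H711.DT

/-- the points of the box `[-M, M]²` in the lattice of `k` modulo `l` -/
noncomputable def bigP (A B C : ℤ) (l : ℕ) (k : ZMod l) (M : ℕ) : Finset V := by
  classical
  exact ((Finset.Icc (-(M : ℤ)) M) ×ˢ (Finset.Icc (-(M : ℤ)) M)).filter
    (fun p => -k * (p.1 : ZMod l) - (C : ZMod l) * (p.2 : ZMod l) = 0 ∧
      (A : ZMod l) * (p.1 : ZMod l) + ((B : ZMod l) - k) * (p.2 : ZMod l) = 0)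

theorem big_mem {A B C : ℤ} {l : ℕ} {k : ZMod l} {M : ℕ} {p : V} : p ∈ bigP A B C l k M ↔
    (((-(M : ℤ) ≤ p.1 ∧ p.1 ≤ M) ∧ (-(M : ℤ) ≤ p.2 ∧ p.2 ≤ M)) ∧
    (-k * (p.1 : ZMod l) - (C : ZMod l) * (p.2 : ZMod l) = 0 ∧
      (A : ZMod l) * (p.1 : ZMod l) + ((B : ZMod l) - k) * (p.2 : ZMod l) = 0)) := by
  classical
  unfold bigP
  rw [Finset.mem_filter, Finset.mem_product, Finset.mem_Icc, Finset.mem_Icc]

theorem big_dvd {A B C : ℤ} {l : ℕ} {k : ZMod l} {p : V}
    (h1 : -k * (p.1 : ZMod l) - (C : ZMod l) * (p.2 : ZMod l) = 0)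
    (h2 : (A : ZMod l) * (p.1 : ZMod l) + ((B : ZMod l) - k) * (p.2 : ZMod l) = 0) :
    (l : ℤ) ∣ fq A B C p := by
  rw [← ZMod.intCast_zmod_eq_zero_iff_dvd]
  unfold fq
  push_cast
  linear_combination (p.1 : ZMod l) * h2 - (p.2 : ZMod l) * h1

theorem big_pos {A B C : ℤ} (h : Prim A B C) {v : V} (hv : v ≠ 0) : 0 < fq A B C v := by
  obtain ⟨hA, hD, -⟩ := h
  have key : 4 * A * fq A B C v = (2 * A * v.1 + B * v.2) ^ 2 + (4 * A * C - B ^ 2) * v.2 ^ 2 := by
    unfold fq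
    ring
  have h4 : 0 < 4 * A * fq A B C v := by
    rw [key]
    by_cases h2 : v.2 = 0
    · have h1 : v.1 ≠ 0 := by
        intro h1
        exact hv (Prod.ext h1 h2)
      rw [h2]
      have : 2 * A * v.1 ≠ 0 := by
        have : A ≠ 0 := by omega
        simp [this, h1]
      have := pow_pos (abs_pos.2 this) 2
      rw [sq_abs] at this
      nlinarith
    · have h3 : 0 < v.2 ^ 2 := by positivity
      have h5 : 0 < 4 * A * C - B ^ 2 := by linarith
      have := mul_pos h5 h3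
      nlinarith [sq_nonneg (2 * A * v.1 + B * v.2)]
  by_contra hcon
  push Not at hcon
  nlinarith

theorem big_le {A B C : ℤ} {v : V} {m : ℤ} (h1 : |v.1| ≤ m) (h2 : |v.2| ≤ m) :
    fq A B C v ≤ (|A| + |B| + |C|) * m ^ 2 := by
  have hm : 0 ≤ m := le_trans (abs_nonneg _) h1
  have e1 : A * v.1 ^ 2 ≤ |A| * m ^ 2 := by
    calc A * v.1 ^ 2 ≤ |A| * v.1 ^ 2 := mul_le_mul_of_nonneg_right (le_abs_self A) (sq_nonneg _)
      _ ≤ |A| * m ^ 2 := by
        refine mul_le_mul_of_nonneg_left ?_ (abs_nonneg _)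
        rw [← sq_abs]
        exact pow_le_pow_left₀ (abs_nonneg _) h1 2
  have e3 : C * v.2 ^ 2 ≤ |C| * m ^ 2 := by
    calc C * v.2 ^ 2 ≤ |C| * v.2 ^ 2 := mul_le_mul_of_nonneg_right (le_abs_self C) (sq_nonneg _)
      _ ≤ |C| * m ^ 2 := by
        refine mul_le_mul_of_nonneg_left ?_ (abs_nonneg _)
        rw [← sq_abs]
        exact pow_le_pow_left₀ (abs_nonneg _) h2 2
  have e2 : B * v.1 * v.2 ≤ |B| * m ^ 2 := by
    calc B * v.1 * v.2 ≤ |B * v.1 * v.2| := le_abs_self _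
      _ = |B| * (|v.1| * |v.2|) := by rw [abs_mul, abs_mul, mul_assoc]
      _ ≤ |B| * (m * m) := by
        refine mul_le_mul_of_nonneg_left ?_ (abs_nonneg _)
        exact mul_le_mul h1 h2 (abs_nonneg _) hm
      _ = |B| * m ^ 2 := by ring
  unfold fq
  nlinarith

/-- same cell of side `d` -/
theorem big_cell {a b d : ℤ} (hd : 0 < d) (h : a / d = b / d) : |a - b| ≤ d - 1 := by
  have h1 := Int.emod_add_mul_ediv a d
  have h2 := Int.emod_add_mul_ediv b d
  have h3 := Int.emod_nonneg a (ne_of_gt hd)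
  have h4 := Int.emod_nonneg b (ne_of_gt hd)
  have h5 := Int.emod_lt_of_pos a hd
  have h6 := Int.emod_lt_of_pos b hd
  rw [h] at h1
  rw [abs_le]
  constructor <;> linarith

/-- the cells -/
theorem big_range {a d M : ℤ} (hd : 0 < d) (h1 : -M ≤ a) (h2 : a ≤ M) :
    a / d ∈ Finset.Icc (-(M / d) - 1) (M / d) := by
  rw [Finset.mem_Icc]
  constructor
  · have h3 : (-M) / d ≤ a / d := Int.ediv_le_ediv hd h1
    have h4 : -(M / d) - 1 ≤ (-M) / d := by
      rw [Int.le_ediv_iff_mul_le hd]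
      have h5 := Int.emod_add_mul_ediv M d
      have h6 := Int.emod_lt_of_pos M hd
      nlinarith
    linarith
  · exact Int.ediv_le_ediv hd h2

/-- packing: the number of points times the square of the side of a cell -/
theorem big_pack {A B C : ℤ} (h : Prim A B C) {l : ℕ} {k : ZMod l} {M s : ℕ}
    (hs : (|A| + |B| + |C|) * (s : ℤ) ^ 2 < l) (hsM : s + 1 ≤ M) :
    (bigP A B C l k M).card * (s + 1) ^ 2 ≤ (4 * M) ^ 2 := by
  classical
  have hd : (0 : ℤ) < ((s : ℤ) + 1) := by positivity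
  set t : ℤ := (M : ℤ) / ((s : ℤ) + 1) with ht
  have ht0 : 0 ≤ t := Int.ediv_nonneg (by positivity) hd.le
  have hcard : (bigP A B C l k M).card ≤
      ((Finset.Icc (-t - 1) t) ×ˢ (Finset.Icc (-t - 1) t)).card := by
    refine Finset.card_le_card_of_injOn (fun p : V => (p.1 / ((s : ℤ) + 1), p.2 / ((s : ℤ) + 1))) ?_ ?_
    · intro p hp
      have hp' := big_mem.1 (Finset.mem_coe.1 hp)
      rw [Finset.mem_coe, Finset.mem_product]
      exact ⟨big_range hd hp'.1.1.1 hp'.1.1.2, big_range hd hp'.1.2.1 hp'.1.2.2⟩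
    · intro p hp q hq hpq
      have hp' := big_mem.1 (Finset.mem_coe.1 hp)
      have hq' := big_mem.1 (Finset.mem_coe.1 hq)
      have e1 : p.1 / ((s : ℤ) + 1) = q.1 / ((s : ℤ) + 1) := congrArg Prod.fst hpq
      have e2 : p.2 / ((s : ℤ) + 1) = q.2 / ((s : ℤ) + 1) := congrArg Prod.snd hpq
      have a1 := big_cell hd e1
      have a2 := big_cell hd e2
      rw [add_sub_cancel_right] at a1 a2
      by_contra hne
      have hv : p - q ≠ 0 := sub_ne_zero.2 hne
      have hpos := big_pos h hv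
      have hdvd : (l : ℤ) ∣ fq A B C (p - q) := by
        refine big_dvd (k := k) ?_ ?_
        · rw [Prod.fst_sub, Prod.snd_sub]
          push_cast
          linear_combination hp'.2.1 - hq'.2.1
        · rw [Prod.fst_sub, Prod.snd_sub]
          push_cast
          linear_combination hp'.2.2 - hq'.2.2
      have hle := Int.le_of_dvd hpos hdvd
      have hle2 := big_le (A := A) (B := B) (C := C) (v := p - q) (m := (s : ℤ)) a1 a2
      linarith
  rw [Finset.card_product] at hcard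
  have hc2 : ((Finset.Icc (-t - 1) t).card : ℤ) = 2 * t + 2 := by
    rw [Int.card_Icc]
    rw [Int.toNat_of_nonneg (by linarith)]
    ring
  have h1 : t * ((s : ℤ) + 1) ≤ M := Int.ediv_mul_le _ (ne_of_gt hd)
  have h2 : (2 * t + 2) * ((s : ℤ) + 1) ≤ 4 * M := by
    have h3 : ((s : ℤ) + 1) ≤ M := by exact_mod_cast hsM
    nlinarith
  have h5 : (0 : ℤ) ≤ (2 * t + 2) * ((s : ℤ) + 1) := by positivity
  have h4 : ((2 * t + 2) * ((s : ℤ) + 1)) ^ 2 ≤ (4 * M) ^ 2 := pow_le_pow_left₀ h5 h2 2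
  have h6 : ((bigP A B C l k M).card : ℤ) ≤ (2 * t + 2) * (2 * t + 2) := by
    rw [← hc2]
    exact_mod_cast hcard
  have h7 : ((bigP A B C l k M).card : ℤ) * ((s : ℤ) + 1) ^ 2 ≤ (4 * M) ^ 2 := by
    calc ((bigP A B C l k M).card : ℤ) * ((s : ℤ) + 1) ^ 2
        ≤ ((2 * t + 2) * (2 * t + 2)) * ((s : ℤ) + 1) ^ 2 :=
          mul_le_mul_of_nonneg_right h6 (by positivity)
      _ = ((2 * t + 2) * ((s : ℤ) + 1)) ^ 2 := by ring
      _ ≤ (4 * M) ^ 2 := h4
  exact_mod_cast h7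

/-- the number of points for one root, if there is a nonzero point -/
theorem big_one {A B C : ℤ} (h : Prim A B C) {κ : ℕ} (hκ : (κ : ℤ) = |A| + |B| + |C|) {l : ℕ}
    (hl : l.Prime) {k : ZMod l} {M : ℕ} (hne : ∃ p ∈ bigP A B C l k M, p ≠ 0) :
    l * (bigP A B C l k M).card ≤ κ * (4 * M) ^ 2 := by
  have hκ0 : 0 < κ := by
    have h1 : 0 < |A| := abs_pos.2 (ne_of_gt h.1)
    have h2 : (0 : ℤ) < κ := by
      rw [hκ]
      have := abs_nonneg B
      have := abs_nonneg C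
      linarith
    exact_mod_cast h2
  have hl1 : 1 ≤ l := hl.one_lt.le
  obtain ⟨p, hp, hp0⟩ := hne
  have hp' := big_mem.1 hp
  have hlM : l ≤ κ * M ^ 2 := by
    have hle := Int.le_of_dvd (big_pos h hp0) (big_dvd hp'.2.1 hp'.2.2)
    have hle2 := big_le (A := A) (B := B) (C := C) (v := p) (m := (M : ℤ))
      (abs_le.2 ⟨hp'.1.1.1, hp'.1.1.2⟩) (abs_le.2 ⟨hp'.1.2.1, hp'.1.2.2⟩)
    rw [← hκ] at hle2
    have := le_trans hle hle2
    exact_mod_cast this
  set s : ℕ := Nat.sqrt ((l - 1) / κ) with hs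
  have hs1 : s ^ 2 ≤ (l - 1) / κ := by
    have := Nat.sqrt_le ((l - 1) / κ)
    rw [← hs] at this
    rw [pow_two]
    exact this
  have hs2 : κ * s ^ 2 ≤ l - 1 := by
    have := (Nat.le_div_iff_mul_le hκ0).1 hs1
    rwa [mul_comm] at this
  have hs3 : l ≤ κ * (s + 1) ^ 2 := by
    have h1 : (l - 1) / κ < (s + 1) ^ 2 := by
      have := Nat.lt_succ_sqrt ((l - 1) / κ)
      rw [← hs] at this
      rw [pow_two]
      exact this
    have h2 := (Nat.div_lt_iff_lt_mul hκ0).1 h1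
    rw [mul_comm] at h2
    omega
  have hsM : s + 1 ≤ M := by
    by_contra hcon
    push Not at hcon
    have h1 : M ^ 2 ≤ s ^ 2 := Nat.pow_le_pow_left (by omega) 2
    have h2 : κ * M ^ 2 ≤ κ * s ^ 2 := Nat.mul_le_mul le_rfl h1
    omega
  have hs4 : (|A| + |B| + |C|) * (s : ℤ) ^ 2 < l := by
    rw [← hκ]
    have : κ * s ^ 2 < l := by omega
    exact_mod_cast this
  have hpack := big_pack h (k := k) (M := M) hs4 hsM
  calc l * (bigP A B C l k M).card ≤ (κ * (s + 1) ^ 2) * (bigP A B C l k M).card :=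
        Nat.mul_le_mul hs3 le_rfl
    _ = κ * ((bigP A B C l k M).card * (s + 1) ^ 2) := by ring
    _ ≤ κ * (4 * M) ^ 2 := Nat.mul_le_mul le_rfl hpack

/-- the roots -/
noncomputable def bigR (A B C : ℤ) (l : ℕ) [NeZero l] : Finset (ZMod l) := by
  classical
  exact Finset.univ.filter (fun k : ZMod l => k ^ 2 - (B : ZMod l) * k + (A : ZMod l) * (C : ZMod l) = 0)

theorem big_mem_R {A B C : ℤ} {l : ℕ} [NeZero l] {k : ZMod l} : k ∈ bigR A B C l ↔
    k ^ 2 - (B : ZMod l) * k + (A : ZMod l) * (C : ZMod l) = 0 := by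
  classical
  unfold bigR
  rw [Finset.mem_filter]
  exact ⟨fun h => h.2, fun h => ⟨Finset.mem_univ _, h⟩⟩

theorem big_roots (A B C : ℤ) (l : ℕ) [NeZero l] [Fact l.Prime] : (bigR A B C l).card ≤ 2 := by
  by_contra hcon
  push Not at hcon
  obtain ⟨a, ha, b, hb, c, hc, hab, hac, hbc⟩ := Finset.two_lt_card.1 hcon
  rw [big_mem_R] at ha hb hc
  have h1 : (a - b) * (a + b - (B : ZMod l)) = 0 := by linear_combination ha - hb
  have h2 : (a - c) * (a + c - (B : ZMod l)) = 0 := by linear_combination ha - hc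
  have h3 : a + b - (B : ZMod l) = 0 := by
    rcases mul_eq_zero.1 h1 with h | h
    · exact absurd (sub_eq_zero.1 h) hab
    · exact h
  have h4 : a + c - (B : ZMod l) = 0 := by
    rcases mul_eq_zero.1 h2 with h | h
    · exact absurd (sub_eq_zero.1 h) hac
    · exact h
  exact hbc (by linear_combination h3 - h4)

/-- **TASK BIG.** -/
theorem big_ok : S_BIG := by
  classical
  intro A B C hP c
  obtain ⟨κ, hκ⟩ : ∃ κ : ℕ, (κ : ℤ) = |A| + |B| + |C| :=
    ⟨(|A| + |B| + |C|).toNat, Int.toNat_of_nonneg (by positivity)⟩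
  refine ⟨2 * (κ * (4 * c) ^ 2) ^ 2, ?_⟩
  intro N l hl F hF
  have : Fact l.Prime := ⟨hl⟩
  have : NeZero l := ⟨hl.ne_zero⟩
  set M : ℕ := c * N with hM
  -- the part of `F` for one root
  have hcover : F ⊆ (bigR A B C l).biUnion (fun k => F.filter
      (fun x => x.1 ∈ bigP A B C l k M ∧ x.2 ∈ bigP A B C l k M)) := by
    intro x hx
    obtain ⟨-, ⟨k, hk1, hk2⟩, hbox⟩ := hF x hx
    rw [Finset.mem_biUnion]
    refine ⟨(k : ZMod l), ?_, ?_⟩
    · rw [big_mem_R]
      have h1 : (l : ℤ) ∣ k ^ 2 - B * k + A * C := (Dvd.intro_left _ (by ring : (l : ℤ) * l = (l : ℤ) ^ 2)).trans hk1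
      have h2 := (ZMod.intCast_zmod_eq_zero_iff_dvd _ l).2 h1
      push_cast at h2
      exact h2
    · rw [Finset.mem_filter]
      obtain ⟨b1, b2, b3, b4⟩ := hbox
      rw [abs_le] at b1 b2 b3 b4
      obtain ⟨d1, d2, d3, d4⟩ := hk2
      have e1 := (ZMod.intCast_zmod_eq_zero_iff_dvd _ l).2 d1
      have e2 := (ZMod.intCast_zmod_eq_zero_iff_dvd _ l).2 d2
      have e3 := (ZMod.intCast_zmod_eq_zero_iff_dvd _ l).2 d3
      have e4 := (ZMod.intCast_zmod_eq_zero_iff_dvd _ l).2 d4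
      simp only [mul2, mul] at e1 e2 e3 e4
      push_cast at e1 e2 e3 e4
      refine ⟨hx, ?_, ?_⟩
      · rw [big_mem]
        refine ⟨⟨b1, b2⟩, ?_, ?_⟩
        · linear_combination e1
        · linear_combination e2
      · rw [big_mem]
        refine ⟨⟨b3, b4⟩, ?_, ?_⟩
        · linear_combination e3
        · linear_combination e4
  have hpart : ∀ k ∈ bigR A B C l, l ^ 2 * (F.filter
      (fun x => x.1 ∈ bigP A B C l k M ∧ x.2 ∈ bigP A B C l k M)).card ≤ (κ * (4 * M) ^ 2) ^ 2 := by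
    intro k _
    rcases (F.filter (fun x => x.1 ∈ bigP A B C l k M ∧ x.2 ∈ bigP A B C l k M)).eq_empty_or_nonempty with
      he | ⟨x, hx⟩
    · rw [he, Finset.card_empty, mul_zero]
      exact Nat.zero_le _
    · rw [Finset.mem_filter] at hx
      have hx0 : x.1 ≠ 0 := by
        intro h0
        have := (hF x hx.1).1
        apply this
        unfold dt
        rw [h0]
        simp
      have h1 := big_one hP hκ hl ⟨x.1, hx.2.1, hx0⟩
      have h2 : (F.filter (fun x => x.1 ∈ bigP A B C l k M ∧ x.2 ∈ bigP A B C l k M)).card ≤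
          (bigP A B C l k M).card * (bigP A B C l k M).card := by
        rw [← Finset.card_product]
        refine Finset.card_le_card ?_
        intro y hy
        rw [Finset.mem_filter] at hy
        rw [Finset.mem_product]
        exact hy.2
      calc l ^ 2 * (F.filter (fun x => x.1 ∈ bigP A B C l k M ∧ x.2 ∈ bigP A B C l k M)).card
          ≤ l ^ 2 * ((bigP A B C l k M).card * (bigP A B C l k M).card) := Nat.mul_le_mul le_rfl h2
        _ = (l * (bigP A B C l k M).card) ^ 2 := by ring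
        _ ≤ (κ * (4 * M) ^ 2) ^ 2 := Nat.pow_le_pow_left h1 2
  calc l ^ 2 * F.card ≤ l ^ 2 * ∑ k ∈ bigR A B C l, (F.filter
        (fun x => x.1 ∈ bigP A B C l k M ∧ x.2 ∈ bigP A B C l k M)).card :=
        Nat.mul_le_mul le_rfl ((Finset.card_le_card hcover).trans Finset.card_biUnion_le)
    _ = ∑ k ∈ bigR A B C l, l ^ 2 * (F.filter
        (fun x => x.1 ∈ bigP A B C l k M ∧ x.2 ∈ bigP A B C l k M)).card := by rw [Finset.mul_sum]
    _ ≤ ∑ k ∈ bigR A B C l, (κ * (4 * M) ^ 2) ^ 2 := Finset.sum_le_sum hpart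
    _ = (bigR A B C l).card * (κ * (4 * M) ^ 2) ^ 2 := by rw [Finset.sum_const, smul_eq_mul]
    _ ≤ 2 * (κ * (4 * M) ^ 2) ^ 2 := Nat.mul_le_mul (big_roots A B C l) le_rfl
    _ = 2 * (κ * (4 * c) ^ 2) ^ 2 * N ^ 4 := by rw [hM]; ring

end Pool.Agent.H711.DT
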