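import Pool.Agent.H711.DT.Stm

/-!
# DT CNT12 (helper336, for helper711): at most 6400 bad residue pairs modulo 12
-/

set_option autoImplicit false

namespace Pool.Agent.H711.DT

/-- the kernel of `W - l` modulo `m` -/
def cnt12_K (m : ℕ) [NeZero m] (a b c l : ZMod m) : Finset (ZMod m × ZMod m) :=
  Finset.univ.filter fun p => -l * p.1 - c * p.2 = 0 ∧ a * p.1 + (-l + b) * p.2 = 0

/-- the roots of the characteristic polynomial -/
def cnt12_L (m : ℕ) [NeZero m] (b d : ZMod m) : Finset (ZMod m) :=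
  Finset.univ.filter fun l => l ^ 2 - b * l + d = 0

/-- the bad pairs modulo `m` -/
def cnt12_B (m : ℕ) [NeZero m] (a b c : ZMod m) : Finset (Res m) :=
  (cnt12_L m b (a * c)).biUnion fun l => cnt12_K m a b c l ×ˢ cnt12_K m a b c l

theorem cnt12_mem (m : ℕ) [NeZero m] (A B C : ℤ) (x : PP) (h : Bad A B C m x) :
    rd m x ∈ cnt12_B m (A : ZMod m) (B : ZMod m) (C : ZMod m) := by
  obtain ⟨l, hl, h1, h2, h3, h4⟩ := h
  unfold cnt12_B cnt12_L cnt12_K
  rw [Finset.mem_biUnion]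
  have hz : ∀ n : ℤ, (m : ℤ) ∣ n → ((n : ℤ) : ZMod m) = 0 := fun n hn =>
    (ZMod.intCast_zmod_eq_zero_iff_dvd n m).2 hn
  have g0 := hz _ ((dvd_pow_self (m : ℤ) two_ne_zero).trans hl)
  have g1 := hz _ h1
  have g2 := hz _ h2
  have g3 := hz _ h3
  have g4 := hz _ h4
  unfold mul2 mul at g1 g2 g3 g4
  push_cast at g0 g1 g2 g3 g4
  refine ⟨(l : ZMod m), ?_, ?_⟩
  · rw [Finset.mem_filter]
    exact ⟨Finset.mem_univ _, g0⟩
  · unfold rd
    rw [Finset.mem_product, Finset.mem_filter, Finset.mem_filter]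
    refine ⟨⟨Finset.mem_univ _, ?_, ?_⟩, ⟨Finset.mem_univ _, ?_, ?_⟩⟩
    · rw [one_mul] at g1
      exact g1
    · rw [one_mul, one_mul] at g2
      exact g2
    · rw [one_mul] at g3
      exact g3
    · rw [one_mul, one_mul] at g4
      exact g4

theorem cnt12_L4 : ∀ b d : ZMod 4, (cnt12_L 4 b d).card ≤ 2 := by decide

theorem cnt12_L3 : ∀ b d : ZMod 3, (cnt12_L 3 b d).card ≤ 2 := by decide

set_option maxRecDepth 100000 in
theorem cnt12_K4 : ∀ a b c l : ZMod 4, ¬ (2 * a = 0 ∧ 2 * b = 0 ∧ 2 * c = 0) →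
    l ^ 2 - b * l + a * c = 0 → (cnt12_K 4 a b c l).card ≤ 4 := by decide

set_option maxRecDepth 100000 in
theorem cnt12_K3 : ∀ a b c l : ZMod 3, ¬ (a = 0 ∧ b = 0 ∧ c = 0) →
    l ^ 2 - b * l + a * c = 0 → (cnt12_K 3 a b c l).card ≤ 3 := by decide

theorem cnt12_B4 (a b c : ZMod 4) (h : ¬ (2 * a = 0 ∧ 2 * b = 0 ∧ 2 * c = 0)) :
    (cnt12_B 4 a b c).card ≤ 32 := by
  unfold cnt12_B
  have h1 : ∀ l ∈ cnt12_L 4 b (a * c), (cnt12_K 4 a b c l ×ˢ cnt12_K 4 a b c l).card ≤ 16 := by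
    intro l hl
    unfold cnt12_L at hl
    rw [Finset.mem_filter] at hl
    have h2 := cnt12_K4 a b c l h hl.2
    rw [Finset.card_product]
    nlinarith
  have h2 := Finset.card_biUnion_le_card_mul (cnt12_L 4 b (a * c))
    (fun l => cnt12_K 4 a b c l ×ˢ cnt12_K 4 a b c l) 16 h1
  have h3 := cnt12_L4 b (a * c)
  omega

theorem cnt12_B3 (a b c : ZMod 3) (h : ¬ (a = 0 ∧ b = 0 ∧ c = 0)) :
    (cnt12_B 3 a b c).card ≤ 17 := by
  unfold cnt12_B
  have h1 : ∀ l ∈ cnt12_L 3 b (a * c), (cnt12_K 3 a b c l ×ˢ cnt12_K 3 a b c l).card ≤ 9 := by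
    intro l hl
    unfold cnt12_L at hl
    rw [Finset.mem_filter] at hl
    have h2 := cnt12_K3 a b c l h hl.2
    rw [Finset.card_product]
    nlinarith
  have h3 := cnt12_L3 b (a * c)
  by_cases h4 : (cnt12_L 3 b (a * c)).card ≤ 1
  · have h2 := Finset.card_biUnion_le_card_mul (cnt12_L 3 b (a * c))
      (fun l => cnt12_K 3 a b c l ×ˢ cnt12_K 3 a b c l) 9 h1
    omega
  · have h5 : (cnt12_L 3 b (a * c)).card = 2 := by omega
    obtain ⟨l, l', hne, hll⟩ := Finset.card_eq_two.1 h5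
    have hl := h1 l (by rw [hll]; simp)
    have hl' := h1 l' (by rw [hll]; simp)
    rw [hll, Finset.biUnion_insert, Finset.singleton_biUnion]
    have h6 := Finset.card_union_add_card_inter
      (cnt12_K 3 a b c l ×ˢ cnt12_K 3 a b c l) (cnt12_K 3 a b c l' ×ˢ cnt12_K 3 a b c l')
    have h7 : 0 < ((cnt12_K 3 a b c l ×ˢ cnt12_K 3 a b c l) ∩
        (cnt12_K 3 a b c l' ×ˢ cnt12_K 3 a b c l')).card := by
      rw [Finset.card_pos]
      refine ⟨((0, 0), (0, 0)), ?_⟩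
      unfold cnt12_K
      simp
    omega

/-- the Chinese remainder theorem -/
def cnt12_g (u : ZMod 4) (v : ZMod 3) : ZMod 12 := ((9 * u.val + 4 * v.val : ℕ) : ZMod 12)

theorem cnt12_g4 : ∀ (u : ZMod 4) (v : ZMod 3),
    ZMod.castHom (show 4 ∣ 12 by norm_num) (ZMod 4) (cnt12_g u v) = u := by decide

theorem cnt12_g3 : ∀ (u : ZMod 4) (v : ZMod 3),
    ZMod.castHom (show 3 ∣ 12 by norm_num) (ZMod 3) (cnt12_g u v) = v := by decide

/-- reduction modulo 4 -/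
def cnt12_r4 (x : Res 12) : Res 4 :=
  ((ZMod.castHom (show 4 ∣ 12 by norm_num) (ZMod 4) x.1.1,
    ZMod.castHom (show 4 ∣ 12 by norm_num) (ZMod 4) x.1.2),
   (ZMod.castHom (show 4 ∣ 12 by norm_num) (ZMod 4) x.2.1,
    ZMod.castHom (show 4 ∣ 12 by norm_num) (ZMod 4) x.2.2))

/-- reduction modulo 3 -/
def cnt12_r3 (x : Res 12) : Res 3 :=
  ((ZMod.castHom (show 3 ∣ 12 by norm_num) (ZMod 3) x.1.1,
    ZMod.castHom (show 3 ∣ 12 by norm_num) (ZMod 3) x.1.2),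
   (ZMod.castHom (show 3 ∣ 12 by norm_num) (ZMod 3) x.2.1,
    ZMod.castHom (show 3 ∣ 12 by norm_num) (ZMod 3) x.2.2))

/-- gluing -/
def cnt12_G (y : Res 4 × Res 3) : Res 12 :=
  ((cnt12_g y.1.1.1 y.2.1.1, cnt12_g y.1.1.2 y.2.1.2),
   (cnt12_g y.1.2.1 y.2.2.1, cnt12_g y.1.2.2 y.2.2.2))

theorem cnt12_G4 (y : Res 4 × Res 3) : cnt12_r4 (cnt12_G y) = y.1 := by
  unfold cnt12_r4 cnt12_G
  simp only [cnt12_g4]

theorem cnt12_G3 (y : Res 4 × Res 3) : cnt12_r3 (cnt12_G y) = y.2 := by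
  unfold cnt12_r3 cnt12_G
  simp only [cnt12_g3]

theorem cnt12_r4_rd (x : PP) : cnt12_r4 (rd 12 x) = rd 4 x := by
  unfold cnt12_r4 rd
  simp only [map_intCast]

theorem cnt12_r3_rd (x : PP) : cnt12_r3 (rd 12 x) = rd 3 x := by
  unfold cnt12_r3 rd
  simp only [map_intCast]

theorem cnt12_card (S4 : Finset (Res 4)) (S3 : Finset (Res 3)) (h4 : S4.card ≤ 32)
    (h3 : S3.card ≤ 17) :
    ((Finset.univ : Finset (Res 12)).filter
      (fun x => cnt12_r4 x ∈ S4 ∨ cnt12_r3 x ∈ S3)).card ≤ 6400 := by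
  have h1 := Finset.card_filter_add_card_filter_not (s := (Finset.univ : Finset (Res 12)))
    (fun x => cnt12_r4 x ∈ S4 ∨ cnt12_r3 x ∈ S3)
  have h2 : (S4ᶜ ×ˢ S3ᶜ).card ≤ ((Finset.univ : Finset (Res 12)).filter
      (fun x => ¬ (cnt12_r4 x ∈ S4 ∨ cnt12_r3 x ∈ S3))).card := by
    refine Finset.card_le_card_of_injOn cnt12_G ?_ ?_
    · intro y hy
      rw [Finset.mem_coe, Finset.mem_product, Finset.mem_compl, Finset.mem_compl] at hy
      rw [Finset.mem_coe, Finset.mem_filter_univ, cnt12_G4, cnt12_G3, not_or]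
      exact hy
    · intro y _ y' _ h
      have e1 := congrArg cnt12_r4 h
      have e2 := congrArg cnt12_r3 h
      rw [cnt12_G4, cnt12_G4] at e1
      rw [cnt12_G3, cnt12_G3] at e2
      exact Prod.ext e1 e2
  have c12 : (Finset.univ : Finset (Res 12)).card = 20736 := by
    rw [Finset.card_univ]
    simp only [Fintype.card_prod, ZMod.card]
  have c4 : Fintype.card (Res 4) = 256 := by
    simp only [Fintype.card_prod, ZMod.card]
  have c3 : Fintype.card (Res 3) = 81 := by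
    simp only [Fintype.card_prod, ZMod.card]
  rw [Finset.card_product, Finset.card_compl, Finset.card_compl, c4, c3] at h2
  rw [c12] at h1
  have h5 : 224 * 64 ≤ (256 - S4.card) * (81 - S3.card) :=
    Nat.mul_le_mul (by omega) (by omega)
  omega

/-- **Task CNT12.** -/
theorem cnt12_ok : S_CNT12 := by
  intro A B C hP
  have h4 : ¬ (2 * (A : ZMod 4) = 0 ∧ 2 * (B : ZMod 4) = 0 ∧ 2 * (C : ZMod 4) = 0) := by
    rintro ⟨h1, h2, h3⟩
    have hz : ∀ n : ℤ, 2 * (n : ZMod 4) = 0 → ((2 : ℕ) : ℤ) ∣ n := by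
      intro n hn
      have h5 : ((2 * n : ℤ) : ZMod 4) = 0 := by
        push_cast
        exact hn
      have h6 := (ZMod.intCast_zmod_eq_zero_iff_dvd (2 * n) 4).1 h5
      push_cast at h6 ⊢
      omega
    exact hP.2.2 2 Nat.prime_two (hz A h1) (hz B h2) (hz C h3)
  have h3 : ¬ ((A : ZMod 3) = 0 ∧ (B : ZMod 3) = 0 ∧ (C : ZMod 3) = 0) := by
    rintro ⟨h1, h2, h3⟩
    exact hP.2.2 3 Nat.prime_three ((ZMod.intCast_zmod_eq_zero_iff_dvd A 3).1 h1)
      ((ZMod.intCast_zmod_eq_zero_iff_dvd B 3).1 h2)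
      ((ZMod.intCast_zmod_eq_zero_iff_dvd C 3).1 h3)
  refine ⟨(Finset.univ : Finset (Res 12)).filter (fun x =>
    cnt12_r4 x ∈ cnt12_B 4 (A : ZMod 4) (B : ZMod 4) (C : ZMod 4) ∨
      cnt12_r3 x ∈ cnt12_B 3 (A : ZMod 3) (B : ZMod 3) (C : ZMod 3)),
    cnt12_card _ _ (cnt12_B4 _ _ _ h4) (cnt12_B3 _ _ _ h3), ?_⟩
  intro x hx
  rw [Finset.mem_filter_univ, cnt12_r4_rd, cnt12_r3_rd]
  rcases hx with hx | hx
  · exact Or.inl (cnt12_mem 4 A B C x hx)
  · exact Or.inr (cnt12_mem 3 A B C x hx)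

end Pool.Agent.H711.DT
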