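import Pool.Agent.H711.DT.Stm

/-!
# Project DT: task CNT2
-/

namespace Pool.Agent.H711.DT

/-- the pairs modulo 2 with a common eigenvalue -/
private def cnt2_R (a c : ZMod 2) : Finset (Res 2) :=
  Finset.univ.filter fun y => ∃ l : ZMod 2, l ^ 2 + a * c = 0 ∧
    -l * y.1.1 - c * y.1.2 = 0 ∧ a * y.1.1 - l * y.1.2 = 0 ∧
    -l * y.2.1 - c * y.2.2 = 0 ∧ a * y.2.1 - l * y.2.2 = 0

private theorem cnt2_card : ∀ a c : ZMod 2, ¬ (a = 0 ∧ c = 0) → (cnt2_R a c).card ≤ 4 := by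
  decide

private theorem cnt2_cast {x : ℤ} (h : (2 : ℤ) ∣ x) : (x : ZMod 2) = 0 :=
  (ZMod.intCast_zmod_eq_zero_iff_dvd x 2).2 h

theorem cnt2_ok : S_CNT2 := by
  intro A B C hP hB
  refine ⟨cnt2_R (A : ZMod 2) (C : ZMod 2), cnt2_card _ _ ?_, ?_⟩
  · rintro ⟨hA, hC⟩
    have hA' : ((2 : ℕ) : ℤ) ∣ A := (ZMod.intCast_zmod_eq_zero_iff_dvd A 2).1 hA
    have hC' : ((2 : ℕ) : ℤ) ∣ C := (ZMod.intCast_zmod_eq_zero_iff_dvd C 2).1 hC
    exact hP.2.2 2 Nat.prime_two hA' (by exact_mod_cast hB) hC'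
  · rintro x ⟨l, hl, h1, h2, h3, h4⟩
    have hB0 : (B : ZMod 2) = 0 := cnt2_cast hB
    have hl' : (2 : ℤ) ∣ l ^ 2 - B * l + A * C :=
      dvd_trans (by norm_num) hl
    have e0 := cnt2_cast hl'
    have e1 := cnt2_cast (by exact_mod_cast h1 : (2 : ℤ) ∣ (mul2 A B C (-l) 1 x).1.1)
    have e2 := cnt2_cast (by exact_mod_cast h2 : (2 : ℤ) ∣ (mul2 A B C (-l) 1 x).1.2)
    have e3 := cnt2_cast (by exact_mod_cast h3 : (2 : ℤ) ∣ (mul2 A B C (-l) 1 x).2.1)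
    have e4 := cnt2_cast (by exact_mod_cast h4 : (2 : ℤ) ∣ (mul2 A B C (-l) 1 x).2.2)
    simp only [mul2, mul] at e1 e2 e3 e4
    push_cast at e0 e1 e2 e3 e4
    rw [hB0] at e0 e2 e4
    refine Finset.mem_filter.2 ⟨Finset.mem_univ _, (l : ZMod 2), ?_, ?_, ?_, ?_, ?_⟩
    · linear_combination e0
    · simp only [rd]; linear_combination e1
    · simp only [rd]; linear_combination e2
    · simp only [rd]; linear_combination e3
    · simp only [rd]; linear_combination e4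

end Pool.Agent.H711.DT
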