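import Pool.Agent.H711.DT.Stm

/-!
# Task CNTP
-/

namespace Pool.Agent.H711.DT

open Finset

/-- The solutions of a nontrivial linear equation. -/
theorem cntp_line {l : ℕ} [Fact l.Prime] (α β : ZMod l) (h : ¬ (α = 0 ∧ β = 0))
    (S : Finset (ZMod l × ZMod l)) (hS : ∀ p ∈ S, α * p.1 + β * p.2 = 0) : S.card ≤ l := by
  have hcard : (univ : Finset (ZMod l)).card = l := by
    rw [card_univ, ZMod.card]
  by_cases hβ : β = 0
  · have hα : α ≠ 0 := fun h0 => h ⟨h0, hβ⟩
    have h1 : S.card ≤ (univ : Finset (ZMod l)).card := by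
      refine card_le_card_of_injOn (fun p => p.2) (fun p _ => mem_univ _) ?_
      intro p hp q hq hpq
      have e1 := hS p hp
      have e2 := hS q hq
      rw [hβ, zero_mul, add_zero] at e1 e2
      have e3 := (mul_eq_zero.1 e1).resolve_left hα
      have e4 := (mul_eq_zero.1 e2).resolve_left hα
      exact Prod.ext (e3.trans e4.symm) hpq
    rw [hcard] at h1
    exact h1
  · have h1 : S.card ≤ (univ : Finset (ZMod l)).card := by
      refine card_le_card_of_injOn (fun p => p.1) (fun p _ => mem_univ _) ?_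
      intro p hp q hq hpq
      have hpq' : p.1 = q.1 := hpq
      have e1 := hS p hp
      have e2 := hS q hq
      have e3 : β * (p.2 - q.2) = 0 := by
        rw [hpq'] at e1
        linear_combination e1 - e2
      have e4 := (mul_eq_zero.1 e3).resolve_left hβ
      exact Prod.ext hpq (sub_eq_zero.1 e4)
    rw [hcard] at h1
    exact h1

theorem cntp_ok : S_CNTP := by
  classical
  intro A B C hP l hl
  have : Fact l.Prime := ⟨hl⟩
  let ker : ZMod l → Finset (ZMod l × ZMod l) := fun t => univ.filter fun p =>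
    (-t) * p.1 + (-(C : ZMod l)) * p.2 = 0 ∧ (A : ZMod l) * p.1 + ((B : ZMod l) - t) * p.2 = 0
  let rts : Finset (ZMod l) := univ.filter fun t => t ^ 2 - B * t + A * C = 0
  let S : ZMod l → Finset (Res l) := fun t => ker t ×ˢ ker t
  have hker : ∀ t, (ker t).card ≤ l := by
    intro t
    by_cases h1 : -t = 0 ∧ -(C : ZMod l) = 0
    · have h2 : ¬ ((A : ZMod l) = 0 ∧ (B : ZMod l) - t = 0) := by
        rintro ⟨hA, hB⟩
        have ht : t = 0 := neg_eq_zero.1 h1.1
        have hC : (C : ZMod l) = 0 := neg_eq_zero.1 h1.2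
        rw [ht, sub_zero] at hB
        exact hP.2.2 l hl ((ZMod.intCast_zmod_eq_zero_iff_dvd A l).1 hA)
          ((ZMod.intCast_zmod_eq_zero_iff_dvd B l).1 hB)
          ((ZMod.intCast_zmod_eq_zero_iff_dvd C l).1 hC)
      exact cntp_line _ _ h2 _ fun p hp => (mem_filter.1 hp).2.2
    · exact cntp_line _ _ h1 _ fun p hp => (mem_filter.1 hp).2.1
  have hrts : rts.card ≤ 2 := by
    rcases rts.eq_empty_or_nonempty with h0 | ⟨t0, ht0⟩
    · rw [h0, card_empty]
      norm_num
    · have h1 : rts ⊆ {t0, (B : ZMod l) - t0} := by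
        intro t ht
        have e1 := (mem_filter.1 ht).2
        have e2 := (mem_filter.1 ht0).2
        have e3 : (t - t0) * (t - (B - t0)) = 0 := by linear_combination e1 - e2
        rw [mem_insert, mem_singleton]
        rcases mul_eq_zero.1 e3 with h | h
        · exact Or.inl (sub_eq_zero.1 h)
        · exact Or.inr (sub_eq_zero.1 h)
      exact (card_le_card h1).trans card_le_two
  have hzero : ∀ t, (0 : Res l) ∈ S t := by
    intro t
    have h0 : (0 : ZMod l × ZMod l) ∈ ker t := mem_filter.2 ⟨mem_univ _, by simp⟩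
    exact mem_product.2 ⟨h0, h0⟩
  have hS : ∀ t, ((S t).erase 0).card ≤ l ^ 2 - 1 := by
    intro t
    rw [card_erase_of_mem (hzero t)]
    have h1 : (S t).card ≤ l ^ 2 := by
      rw [card_product, pow_two]
      exact Nat.mul_le_mul (hker t) (hker t)
    omega
  refine ⟨insert 0 (rts.biUnion fun t => (S t).erase 0), ?_, ?_⟩
  · have h1 := card_insert_le (0 : Res l) (rts.biUnion fun t => (S t).erase 0)
    have h2 : (rts.biUnion fun t => (S t).erase 0).card ≤ rts.card * (l ^ 2 - 1) :=
      card_biUnion_le_card_mul _ _ _ fun t _ => hS t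
    have h3 : rts.card * (l ^ 2 - 1) ≤ 2 * (l ^ 2 - 1) := Nat.mul_le_mul_right _ hrts
    have h4 : 1 ≤ l ^ 2 := Nat.one_le_pow _ _ hl.pos
    omega
  · rintro ⟨⟨a, b⟩, ⟨c, d⟩⟩ ⟨t, ht, hD⟩
    by_cases h0 : rd l ((a, b), (c, d)) = 0
    · rw [h0]
      exact mem_insert_self _ _
    · refine mem_insert_of_mem (mem_biUnion.2 ⟨(t : ZMod l), ?_, mem_erase.2 ⟨h0, ?_⟩⟩)
      · refine mem_filter.2 ⟨mem_univ _, ?_⟩
        have h1 : (l : ℤ) ∣ t ^ 2 - B * t + A * C := (dvd_pow_self _ two_ne_zero).trans ht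
        have h2 := (ZMod.intCast_zmod_eq_zero_iff_dvd _ l).2 h1
        push_cast at h2
        exact h2
      · obtain ⟨h1, h2, h3, h4⟩ := hD
        have k1 := (ZMod.intCast_zmod_eq_zero_iff_dvd _ l).2 h1
        have k2 := (ZMod.intCast_zmod_eq_zero_iff_dvd _ l).2 h2
        have k3 := (ZMod.intCast_zmod_eq_zero_iff_dvd _ l).2 h3
        have k4 := (ZMod.intCast_zmod_eq_zero_iff_dvd _ l).2 h4
        simp only [mul2, mul] at k1 k2 k3 k4
        push_cast at k1 k2 k3 k4
        refine mem_product.2 ⟨mem_filter.2 ⟨mem_univ _, ?_, ?_⟩,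
          mem_filter.2 ⟨mem_univ _, ?_, ?_⟩⟩
        · show (-(t : ZMod l)) * (a : ZMod l) + (-(C : ZMod l)) * (b : ZMod l) = 0
          linear_combination k1
        · show (A : ZMod l) * (a : ZMod l) + ((B : ZMod l) - t) * (b : ZMod l) = 0
          linear_combination k2
        · show (-(t : ZMod l)) * (c : ZMod l) + (-(C : ZMod l)) * (d : ZMod l) = 0
          linear_combination k3
        · show (A : ZMod l) * (c : ZMod l) + ((B : ZMod l) - t) * (d : ZMod l) = 0
          linear_combination k4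

end Pool.Agent.H711.DT
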