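import Pool.Agent.H711.DT.Stm

/-!
# Project DT, task COMB
-/

namespace Pool.Agent.H711.DT

open Filter

/-- cubes are small compared with fourth powers -/
private theorem comb_cube (a ε : ℝ) (hε : 0 < ε) :
    ∀ᶠ N : ℕ in atTop, a * ((N : ℝ) + 1) ^ 3 ≤ ε * (N : ℝ) ^ 4 := by
  obtain ⟨M, hM⟩ := exists_nat_gt (8 * |a| / ε)
  filter_upwards [eventually_ge_atTop (M + 1)] with N hN
  have hN1 : (1 : ℝ) ≤ N := by
    have : 1 ≤ N := by omega
    exact_mod_cast this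
  have hNM : (M : ℝ) ≤ N := by
    have : M ≤ N := by omega
    exact_mod_cast this
  have h1 : 8 * |a| ≤ ε * N := by
    have h2 : 8 * |a| / ε < N := hM.trans_le hNM
    rw [div_lt_iff₀ hε] at h2
    linarith
  have h3 : ((N : ℝ) + 1) ^ 3 ≤ 8 * (N : ℝ) ^ 3 := by
    have : ((N : ℝ) + 1) ^ 3 ≤ (2 * (N : ℝ)) ^ 3 :=
      pow_le_pow_left₀ (by positivity) (by linarith) 3
    calc ((N : ℝ) + 1) ^ 3 ≤ (2 * (N : ℝ)) ^ 3 := this
      _ = 8 * (N : ℝ) ^ 3 := by ring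
  have h4 : 0 ≤ (N : ℝ) ^ 3 := by positivity
  calc a * ((N : ℝ) + 1) ^ 3 ≤ |a| * ((N : ℝ) + 1) ^ 3 :=
        mul_le_mul_of_nonneg_right (le_abs_self a) (by positivity)
    _ ≤ |a| * (8 * (N : ℝ) ^ 3) := mul_le_mul_of_nonneg_left h3 (abs_nonneg a)
    _ = (8 * |a|) * (N : ℝ) ^ 3 := by ring
    _ ≤ (ε * N) * (N : ℝ) ^ 3 := mul_le_mul_of_nonneg_right h1 h4
    _ = ε * (N : ℝ) ^ 4 := by ring

theorem comb_ok : S_EQ → S_CNTP → S_BIG → S_COMB := by
  classical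
  intro hEQ hCNTP hBIG A B C hP K hSB c hbox m0 R0 E0 β hm0 hcov hβ ε hε
  obtain ⟨c', hc'⟩ := hBIG A B C hP c
  obtain ⟨L, hL⟩ := exists_nat_gt (2 * (c' : ℝ) / ε)
  have hL0 : (0 : ℝ) < L := lt_of_le_of_lt (by positivity) hL
  have hLn : L ≠ 0 := by
    intro h
    rw [h] at hL0
    simp at hL0
  have hcL : (c' : ℝ) * (L : ℝ)⁻¹ ≤ ε / 2 := by
    rw [div_lt_iff₀ hε] at hL
    rw [← div_eq_mul_inv, div_le_iff₀ hL0]
    linarith
  obtain ⟨c0, hc0⟩ := hEQ K hSB m0 hm0 R0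
  have hEl : ∀ l : ℕ, ∃ cl : ℝ, 0 ≤ cl ∧ (l.Prime → ∀ N : ℕ,
      (((K N).filter (fun x => Bad A B C l x)).card : ℝ) ≤
        2 / (l : ℝ) ^ 2 * (K N).card + cl * ((N : ℝ) + 1) ^ 3) := by
    intro l
    by_cases hl : l.Prime
    · obtain ⟨R, hR1, hR2⟩ := hCNTP A B C hP l hl
      obtain ⟨cl, hcl⟩ := hEQ K hSB l hl.pos R
      refine ⟨cl, by positivity, fun _ N => ?_⟩
      have h1 : ((K N).filter (fun x => Bad A B C l x)).card ≤
          ((K N).filter (fun x => rd l x ∈ R)).card := by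
        apply Finset.card_le_card
        intro x hx
        rw [Finset.mem_filter] at hx ⊢
        exact ⟨hx.1, hR2 x hx.2⟩
      have h2 := hcl N
      have hl1 : (1 : ℝ) ≤ l := by exact_mod_cast hl.one_lt.le
      have h3 : (l : ℝ) ^ 4 * (((K N).filter (fun x => rd l x ∈ R)).card : ℝ) ≤
          (R.card : ℝ) * (K N).card + cl * ((N : ℝ) + 1) ^ 3 := by exact_mod_cast h2
      have h4 : (R.card : ℝ) ≤ 2 * (l : ℝ) ^ 2 := by
        have : R.card ≤ 2 * l ^ 2 := by omega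
        exact_mod_cast this
      have h5 : (((K N).filter (fun x => Bad A B C l x)).card : ℝ) ≤
          (((K N).filter (fun x => rd l x ∈ R)).card : ℝ) := by exact_mod_cast h1
      have hl2 : (0 : ℝ) < (l : ℝ) ^ 2 := by positivity
      have hl4 : (0 : ℝ) < (l : ℝ) ^ 4 := by positivity
      have hl41 : (1 : ℝ) ≤ (l : ℝ) ^ 4 := one_le_pow₀ hl1
      refine h5.trans ?_
      have h6 : (l : ℝ) ^ 4 * (((K N).filter (fun x => rd l x ∈ R)).card : ℝ) ≤
          (l : ℝ) ^ 4 * (2 / (l : ℝ) ^ 2 * (K N).card + cl * ((N : ℝ) + 1) ^ 3) := by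
        calc (l : ℝ) ^ 4 * (((K N).filter (fun x => rd l x ∈ R)).card : ℝ)
            ≤ (R.card : ℝ) * (K N).card + cl * ((N : ℝ) + 1) ^ 3 := h3
          _ ≤ (2 * (l : ℝ) ^ 2) * (K N).card + (l : ℝ) ^ 4 * (cl * ((N : ℝ) + 1) ^ 3) := by
            refine add_le_add (mul_le_mul_of_nonneg_right h4 (by positivity)) ?_
            exact le_mul_of_one_le_left (by positivity) hl41
          _ = (l : ℝ) ^ 4 * (2 / (l : ℝ) ^ 2 * (K N).card + cl * ((N : ℝ) + 1) ^ 3) := by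
            field_simp
      exact le_of_mul_le_mul_left h6 hl4
    · exact ⟨0, le_rfl, fun h => absurd h hl⟩
  choose cl hcl0 hcl using hEl
  obtain ⟨P, hPdef⟩ : ∃ P : Finset ℕ,
      P = (Finset.range (L + 1)).filter (fun l => l.Prime ∧ l ∉ E0) := ⟨_, rfl⟩
  have hPp : ∀ l ∈ P, l.Prime ∧ l ∉ E0 := by
    intro l hl
    rw [hPdef, Finset.mem_filter] at hl
    exact hl.2
  have hβP := hβ P hPp
  filter_upwards [comb_cube ((c0 : ℝ) + ∑ l ∈ P, cl l) (ε / 2) (by linarith)] with N hN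
  obtain ⟨M, hMdef⟩ : ∃ M : ℕ, M = max L (c' * N ^ 4) := ⟨_, rfl⟩
  have hLM : L ≤ M := by
    rw [hMdef]
    exact le_max_left _ _
  have hsub : (K N).filter (fun x => dt x ≠ 0 ∧ ¬ Good A B C x) ⊆
      ((K N).filter (fun x => rd m0 x ∈ R0) ∪
        P.biUnion (fun l => (K N).filter (fun x => Bad A B C l x))) ∪
      ((Finset.Ioc L M).filter Nat.Prime).biUnion
        (fun l => (K N).filter (fun x => dt x ≠ 0 ∧ Bad A B C l x)) := by
    intro x hx
    rw [Finset.mem_filter] at hx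
    obtain ⟨hxK, hxd, hxg⟩ := hx
    rw [Finset.mem_union, Finset.mem_union]
    rcases hcov x hxg with h | ⟨l, hl, hlE, hb⟩
    · left
      left
      rw [Finset.mem_filter]
      exact ⟨hxK, h⟩
    · by_cases hlL : l ≤ L
      · left
        right
        rw [Finset.mem_biUnion]
        refine ⟨l, ?_, ?_⟩
        · rw [hPdef, Finset.mem_filter, Finset.mem_range]
          exact ⟨by omega, hl, hlE⟩
        · rw [Finset.mem_filter]
          exact ⟨hxK, hb⟩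
      · right
        rw [Finset.mem_biUnion]
        refine ⟨l, ?_, ?_⟩
        · rw [Finset.mem_filter, Finset.mem_Ioc]
          refine ⟨⟨by omega, ?_⟩, hl⟩
          have h1 := hc' N l hl {x} (by
            intro y hy
            rw [Finset.mem_singleton] at hy
            subst hy
            exact ⟨hxd, hb, hbox N y hxK⟩)
          rw [Finset.card_singleton, mul_one] at h1
          have h2 : l ≤ l ^ 2 := Nat.le_self_pow (by norm_num) l
          rw [hMdef]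
          exact (h2.trans h1).trans (le_max_right _ _)
        · rw [Finset.mem_filter]
          exact ⟨hxK, hxd, hb⟩
  have hcard := Finset.card_le_card hsub
  have hcard2 : ((K N).filter (fun x => dt x ≠ 0 ∧ ¬ Good A B C x)).card ≤
      ((K N).filter (fun x => rd m0 x ∈ R0)).card +
        ∑ l ∈ P, ((K N).filter (fun x => Bad A B C l x)).card +
      ∑ l ∈ (Finset.Ioc L M).filter Nat.Prime,
        ((K N).filter (fun x => dt x ≠ 0 ∧ Bad A B C l x)).card := by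
    refine hcard.trans ((Finset.card_union_le _ _).trans ?_)
    refine add_le_add ((Finset.card_union_le _ _).trans ?_) Finset.card_biUnion_le
    exact add_le_add le_rfl Finset.card_biUnion_le
  have hcard3 : (((K N).filter (fun x => dt x ≠ 0 ∧ ¬ Good A B C x)).card : ℝ) ≤
      (((K N).filter (fun x => rd m0 x ∈ R0)).card : ℝ) +
        ∑ l ∈ P, (((K N).filter (fun x => Bad A B C l x)).card : ℝ) +
      ∑ l ∈ (Finset.Ioc L M).filter Nat.Prime,
        (((K N).filter (fun x => dt x ≠ 0 ∧ Bad A B C l x)).card : ℝ) := by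
    exact_mod_cast hcard2
  -- the first term
  have hm1 : (1 : ℝ) ≤ m0 := by exact_mod_cast hm0
  have hm4 : (0 : ℝ) < (m0 : ℝ) ^ 4 := by positivity
  have hm41 : (1 : ℝ) ≤ (m0 : ℝ) ^ 4 := one_le_pow₀ hm1
  have hT1 : (((K N).filter (fun x => rd m0 x ∈ R0)).card : ℝ) ≤
      (R0.card : ℝ) / (m0 : ℝ) ^ 4 * (K N).card + c0 * ((N : ℝ) + 1) ^ 3 := by
    have h1 := hc0 N
    have h2 : (m0 : ℝ) ^ 4 * (((K N).filter (fun x => rd m0 x ∈ R0)).card : ℝ) ≤
        (R0.card : ℝ) * (K N).card + c0 * ((N : ℝ) + 1) ^ 3 := by exact_mod_cast h1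
    have h3 : (m0 : ℝ) ^ 4 * (((K N).filter (fun x => rd m0 x ∈ R0)).card : ℝ) ≤
        (m0 : ℝ) ^ 4 * ((R0.card : ℝ) / (m0 : ℝ) ^ 4 * (K N).card + c0 * ((N : ℝ) + 1) ^ 3) := by
      calc (m0 : ℝ) ^ 4 * (((K N).filter (fun x => rd m0 x ∈ R0)).card : ℝ)
          ≤ (R0.card : ℝ) * (K N).card + c0 * ((N : ℝ) + 1) ^ 3 := h2
        _ ≤ (R0.card : ℝ) * (K N).card + (m0 : ℝ) ^ 4 * (c0 * ((N : ℝ) + 1) ^ 3) := by
          refine add_le_add le_rfl ?_
          exact le_mul_of_one_le_left (by positivity) hm41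
        _ = (m0 : ℝ) ^ 4 * ((R0.card : ℝ) / (m0 : ℝ) ^ 4 * (K N).card +
            c0 * ((N : ℝ) + 1) ^ 3) := by
          field_simp
    exact le_of_mul_le_mul_left h3 hm4
  -- the second term
  have hT2 : ∑ l ∈ P, (((K N).filter (fun x => Bad A B C l x)).card : ℝ) ≤
      (∑ l ∈ P, 2 / (l : ℝ) ^ 2) * (K N).card + (∑ l ∈ P, cl l) * ((N : ℝ) + 1) ^ 3 := by
    rw [Finset.sum_mul, Finset.sum_mul, ← Finset.sum_add_distrib]
    exact Finset.sum_le_sum fun l hl => hcl l (hPp l hl).1 N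
  -- the third term
  have hT3 : ∑ l ∈ (Finset.Ioc L M).filter Nat.Prime,
      (((K N).filter (fun x => dt x ≠ 0 ∧ Bad A B C l x)).card : ℝ) ≤ ε / 2 * (N : ℝ) ^ 4 := by
    have h1 : ∀ l ∈ (Finset.Ioc L M).filter Nat.Prime,
        (((K N).filter (fun x => dt x ≠ 0 ∧ Bad A B C l x)).card : ℝ) ≤
          c' * (N : ℝ) ^ 4 * ((l : ℝ) ^ 2)⁻¹ := by
      intro l hl
      rw [Finset.mem_filter] at hl
      have h2 := hc' N l hl.2 ((K N).filter (fun x => dt x ≠ 0 ∧ Bad A B C l x)) (by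
        intro x hx
        rw [Finset.mem_filter] at hx
        exact ⟨hx.2.1, hx.2.2, hbox N x hx.1⟩)
      have h3 : (l : ℝ) ^ 2 *
          (((K N).filter (fun x => dt x ≠ 0 ∧ Bad A B C l x)).card : ℝ) ≤ c' * (N : ℝ) ^ 4 := by
        exact_mod_cast h2
      have hl0 : (0 : ℝ) < l := by exact_mod_cast hl.2.pos
      rw [← div_eq_mul_inv, le_div_iff₀ (by positivity)]
      linarith
    calc ∑ l ∈ (Finset.Ioc L M).filter Nat.Prime,
          (((K N).filter (fun x => dt x ≠ 0 ∧ Bad A B C l x)).card : ℝ)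
        ≤ ∑ l ∈ (Finset.Ioc L M).filter Nat.Prime, c' * (N : ℝ) ^ 4 * ((l : ℝ) ^ 2)⁻¹ :=
          Finset.sum_le_sum h1
      _ ≤ ∑ l ∈ Finset.Ioc L M, c' * (N : ℝ) ^ 4 * ((l : ℝ) ^ 2)⁻¹ :=
          Finset.sum_le_sum_of_subset_of_nonneg (Finset.filter_subset _ _)
            (fun l _ _ => by positivity)
      _ = c' * (N : ℝ) ^ 4 * ∑ l ∈ Finset.Ioc L M, ((l : ℝ) ^ 2)⁻¹ := by
          rw [Finset.mul_sum]
      _ ≤ c' * (N : ℝ) ^ 4 * (L : ℝ)⁻¹ := by
          refine mul_le_mul_of_nonneg_left ?_ (by positivity)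
          have h4 := sum_Ioc_inv_sq_le_sub (α := ℝ) hLn hLM
          have h5 : (0 : ℝ) ≤ (M : ℝ)⁻¹ := by positivity
          linarith
      _ = (c' * (L : ℝ)⁻¹) * (N : ℝ) ^ 4 := by ring
      _ ≤ ε / 2 * (N : ℝ) ^ 4 := mul_le_mul_of_nonneg_right hcL (by positivity)
  have hK0 : (0 : ℝ) ≤ (K N).card := by positivity
  have hfin : ((R0.card : ℝ) / (m0 : ℝ) ^ 4 + ∑ l ∈ P, 2 / (l : ℝ) ^ 2) * (K N).card ≤
      β * (K N).card := mul_le_mul_of_nonneg_right hβP hK0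
  rw [add_mul] at hfin
  rw [add_mul] at hN
  calc (((K N).filter (fun x => dt x ≠ 0 ∧ ¬ Good A B C x)).card : ℝ)
      ≤ _ := hcard3
    _ ≤ ((R0.card : ℝ) / (m0 : ℝ) ^ 4 * (K N).card + c0 * ((N : ℝ) + 1) ^ 3) +
        ((∑ l ∈ P, 2 / (l : ℝ) ^ 2) * (K N).card + (∑ l ∈ P, cl l) * ((N : ℝ) + 1) ^ 3) +
        ε / 2 * (N : ℝ) ^ 4 := add_le_add (add_le_add hT1 hT2) hT3
    _ ≤ β * (K N).card + ε * (N : ℝ) ^ 4 := by linarith

end Pool.Agent.H711.DT
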