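import Pool.Agent.H711.DT.Stm

/-!
# Task CXA
-/

set_option autoImplicit false
set_option linter.unusedSimpArgs false

namespace Pool.Agent.H711.DT

/-- the pairs `(a, b)` with `a, b, a - b` in `[-N, N]` -/
private noncomputable def cxa_S (N : ℕ) : Finset (ℤ × ℤ) :=
  ((Finset.Icc (-(N : ℤ)) N) ×ˢ (Finset.Icc (-(N : ℤ)) N)).filter
    (fun x => |x.1 - x.2| ≤ (N : ℤ))

private theorem cxa_sum (M : ℤ) (N : ℕ) :
    ∑ a ∈ Finset.Icc (-(N : ℤ)) N, (M - |a|) = M * (2 * N + 1) - N * (N + 1) := by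
  induction N with
  | zero => simp
  | succ N ih =>
    have h1 : Finset.Icc (-((N + 1 : ℕ) : ℤ)) ((N + 1 : ℕ) : ℤ) =
        insert (-((N + 1 : ℕ) : ℤ)) (insert (((N + 1 : ℕ) : ℤ)) (Finset.Icc (-(N : ℤ)) N)) := by
      ext a
      simp only [Finset.mem_insert, Finset.mem_Icc]
      push_cast
      omega
    have h2 : (((N + 1 : ℕ) : ℤ)) ∉ Finset.Icc (-(N : ℤ)) N := by
      simp only [Finset.mem_Icc]
      push_cast
      omega
    have h3 : (-((N + 1 : ℕ) : ℤ)) ∉ insert (((N + 1 : ℕ) : ℤ)) (Finset.Icc (-(N : ℤ)) N) := by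
      simp only [Finset.mem_insert, Finset.mem_Icc]
      push_cast
      omega
    rw [h1, Finset.sum_insert h3, Finset.sum_insert h2, ih, abs_neg]
    have h4 : |((N + 1 : ℕ) : ℤ)| = (N : ℤ) + 1 := by
      rw [abs_of_nonneg (by positivity)]
      push_cast
      ring
    rw [h4]
    push_cast
    ring

private theorem cxa_fib (N : ℕ) (a : ℤ) (ha : a ∈ Finset.Icc (-(N : ℤ)) N) :
    (((Finset.Icc (-(N : ℤ)) N).filter (fun b => |a - b| ≤ (N : ℤ))).card : ℤ) =
      2 * N + 1 - |a| := by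
  rw [Finset.mem_Icc] at ha
  have h1 : (Finset.Icc (-(N : ℤ)) N).filter (fun b => |a - b| ≤ (N : ℤ)) =
      Finset.Icc (max (-(N : ℤ)) (a - N)) (min (N : ℤ) (a + N)) := by
    ext b
    simp only [Finset.mem_filter, Finset.mem_Icc, abs_le, max_le_iff, le_min_iff]
    omega
  rw [h1, Int.card_Icc]
  rcases le_total 0 a with h | h
  · rw [abs_of_nonneg h, min_eq_left (by omega), max_eq_right (by omega)]
    omega
  · rw [abs_of_nonpos h, min_eq_right (by omega), max_eq_left (by omega)]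
    omega

private theorem cxa_card (N : ℕ) : (cxa_S N).card = 3 * N ^ 2 + 3 * N + 1 := by
  have h1 : ((cxa_S N).card : ℤ) = ∑ a ∈ Finset.Icc (-(N : ℤ)) N, ((2 * N + 1 : ℤ) - |a|) := by
    unfold cxa_S
    rw [Finset.card_filter, Finset.sum_product]
    push_cast
    apply Finset.sum_congr rfl
    intro a ha
    rw [← cxa_fib N a ha, Finset.card_filter]
    push_cast
    rfl
  rw [cxa_sum] at h1
  have h2 : ((cxa_S N).card : ℤ) = ((3 * N ^ 2 + 3 * N + 1 : ℕ) : ℤ) := by
    rw [h1]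
    push_cast
    ring
  exact_mod_cast h2

theorem cxa_ok : S_CXA := by
  intro N
  have h1 : (XA N).card = (cxa_S N ×ˢ cxa_S N).card := by
    apply Finset.card_nbij' (i := fun x : PP => ((x.1.1, x.2.1), (x.1.2, x.2.2)))
      (j := fun x : (ℤ × ℤ) × (ℤ × ℤ) => ((x.1.1, x.2.1), (x.1.2, x.2.2)))
    · intro x hx
      simp only [XA, cxa_S, Finset.coe_filter, Finset.mem_product, Finset.mem_filter,
        Finset.coe_product, Set.mem_ofPred_eq, Set.mem_prod, Finset.mem_coe] at hx ⊢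
      tauto
    · intro x hx
      simp only [XA, cxa_S, Finset.coe_filter, Finset.mem_product, Finset.mem_filter,
        Finset.coe_product, Set.mem_ofPred_eq, Set.mem_prod, Finset.mem_coe] at hx ⊢
      tauto
    · intro x _
      rfl
    · intro x _
      rfl
  rw [h1, Finset.card_product, cxa_card]
  ring

end Pool.Agent.H711.DT
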