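import Pool.Agent.H711.DT.Stm

set_option autoImplicit false

namespace Pool.Agent.H711.DT

private lemma dep_box (M : ℕ) : ((Finset.Icc (-(M : ℤ)) M) ×ˢ ((Finset.Icc (-(M : ℤ)) M) ×ˢ
    (Finset.Icc (-(M : ℤ)) M))).card = (2 * M + 1) ^ 3 := by
  rw [Finset.card_product, Finset.card_product, Int.card_Icc]
  have h : ((M : ℤ) + 1 - -(M : ℤ)).toNat = 2 * M + 1 := by omega
  rw [h]
  ring

/-- TASK DEP. -/
theorem dep_ok : S_DEP := by
  classical
  intro c
  refine ⟨2 * (2 * c + 1) ^ 3, fun N F hF => ?_⟩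
  set M := c * N with hM
  have h1 : (F.filter (fun x => x.1.1 ≠ 0)).card ≤ (2 * M + 1) ^ 3 := by
    rw [← dep_box M]
    apply Finset.card_le_card_of_injOn (fun x : PP => (x.1.1, (x.1.2, x.2.1)))
    · intro x hx
      have hx' := (Finset.mem_filter.1 (Finset.mem_coe.1 hx)).1
      obtain ⟨-, b1, b2, b3, b4⟩ := hF x hx'
      rw [Finset.mem_coe, Finset.mem_product, Finset.mem_product, Finset.mem_Icc, Finset.mem_Icc, Finset.mem_Icc]
      exact ⟨abs_le.1 b1, abs_le.1 b2, abs_le.1 b3⟩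
    · intro x hx y hy hxy
      have hx' := Finset.mem_filter.1 (Finset.mem_coe.1 hx)
      have hy' := Finset.mem_filter.1 (Finset.mem_coe.1 hy)
      obtain ⟨d1, -⟩ := hF x hx'.1
      obtain ⟨d2, -⟩ := hF y hy'.1
      simp only [Prod.mk.injEq] at hxy
      obtain ⟨e1, e2, e3⟩ := hxy
      have e4 : x.2.2 = y.2.2 := by
        unfold dt at d1 d2
        rw [← e1, ← e2, ← e3] at d2
        have h := hx'.2
        apply mul_left_cancel₀ h
        linarith
      exact Prod.ext (Prod.ext e1 e2) (Prod.ext e3 e4)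
  have h2 : (F.filter (fun x => ¬ x.1.1 ≠ 0)).card ≤ (2 * M + 1) ^ 3 := by
    rw [← dep_box M]
    apply Finset.card_le_card_of_injOn (fun x : PP => (x.1.2, (x.2.1, x.2.2)))
    · intro x hx
      have hx' := (Finset.mem_filter.1 (Finset.mem_coe.1 hx)).1
      obtain ⟨-, b1, b2, b3, b4⟩ := hF x hx'
      rw [Finset.mem_coe, Finset.mem_product, Finset.mem_product, Finset.mem_Icc, Finset.mem_Icc, Finset.mem_Icc]
      exact ⟨abs_le.1 b2, abs_le.1 b3, abs_le.1 b4⟩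
    · intro x hx y hy hxy
      have hx' := (Finset.mem_filter.1 (Finset.mem_coe.1 hx)).2
      have hy' := (Finset.mem_filter.1 (Finset.mem_coe.1 hy)).2
      simp only [Prod.mk.injEq] at hxy
      obtain ⟨e1, e2, e3⟩ := hxy
      have e4 : x.1.1 = y.1.1 := by rw [not_not.1 hx', not_not.1 hy']
      exact Prod.ext (Prod.ext e4 e1) (Prod.ext e2 e3)
  have h3 := Finset.card_filter_add_card_filter_not (s := F) (fun x : PP => x.1.1 ≠ 0)
  have h4 : 2 * M + 1 ≤ (2 * c + 1) * (N + 1) := by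
    rw [hM]
    nlinarith [Nat.zero_le c, Nat.zero_le N]
  have h5 : (2 * M + 1) ^ 3 ≤ (2 * c + 1) ^ 3 * (N + 1) ^ 3 := by
    rw [← mul_pow]
    exact Nat.pow_le_pow_left h4 3
  calc F.card = _ := h3.symm
    _ ≤ (2 * M + 1) ^ 3 + (2 * M + 1) ^ 3 := Nat.add_le_add h1 h2
    _ ≤ (2 * c + 1) ^ 3 * (N + 1) ^ 3 + (2 * c + 1) ^ 3 * (N + 1) ^ 3 := Nat.add_le_add h5 h5
    _ = 2 * (2 * c + 1) ^ 3 * (N + 1) ^ 3 := by ring

end Pool.Agent.H711.DT
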