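import Pool.Agent.H711.DT.Stm

/-!
# Project DT, task EQ (helper234): equidistribution in residue classes
-/

namespace Pool.Agent.H711.DT

/-- The representative of a residue. -/
def eq_vv (m : ℕ) (δ : Res m) : PP :=
  (((δ.1.1.val : ℤ), (δ.1.2.val : ℤ)), ((δ.2.1.val : ℤ), (δ.2.2.val : ℤ)))

theorem eq_rd_add (m : ℕ) [NeZero m] (x : PP) (δ : Res m) :
    rd m (x + eq_vv m δ) = rd m x + δ := by
  obtain ⟨⟨a, b⟩, ⟨c, d⟩⟩ := δ
  obtain ⟨⟨x1, x2⟩, ⟨x3, x4⟩⟩ := x
  unfold rd eq_vv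
  refine Prod.ext (Prod.ext ?_ ?_) (Prod.ext ?_ ?_)
  · show (((x1 + (a.val : ℤ) : ℤ)) : ZMod m) = (x1 : ZMod m) + a
    rw [Int.cast_add, Int.cast_natCast, ZMod.natCast_zmod_val]
  · show (((x2 + (b.val : ℤ) : ℤ)) : ZMod m) = (x2 : ZMod m) + b
    rw [Int.cast_add, Int.cast_natCast, ZMod.natCast_zmod_val]
  · show (((x3 + (c.val : ℤ) : ℤ)) : ZMod m) = (x3 : ZMod m) + c
    rw [Int.cast_add, Int.cast_natCast, ZMod.natCast_zmod_val]
  · show (((x4 + (d.val : ℤ) : ℤ)) : ZMod m) = (x4 : ZMod m) + d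
    rw [Int.cast_add, Int.cast_natCast, ZMod.natCast_zmod_val]

theorem eq_card_res (m : ℕ) [NeZero m] : Fintype.card (Res m) = m ^ 4 := by
  rw [Fintype.card_prod, Fintype.card_prod, ZMod.card]
  ring

theorem eq_shift (m : ℕ) [NeZero m] (S : Finset PP) (ρ δ : Res m) (k : ℕ)
    (h : (S.filter (fun x => x + eq_vv m δ ∉ S)).card ≤ k) :
    (S.filter (fun x => rd m x = ρ)).card ≤ (S.filter (fun x => rd m x = ρ + δ)).card + k := by
  have h1 : S.filter (fun x => rd m x = ρ) ⊆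
      (S.filter (fun x => rd m x = ρ ∧ x + eq_vv m δ ∈ S)) ∪
        (S.filter (fun x => x + eq_vv m δ ∉ S)) := by
    intro x hx
    rw [Finset.mem_filter] at hx
    rw [Finset.mem_union, Finset.mem_filter, Finset.mem_filter]
    by_cases hs : x + eq_vv m δ ∈ S
    · exact Or.inl ⟨hx.1, hx.2, hs⟩
    · exact Or.inr ⟨hx.1, hs⟩
  have h2 : (S.filter (fun x => rd m x = ρ ∧ x + eq_vv m δ ∈ S)).card ≤
      (S.filter (fun x => rd m x = ρ + δ)).card := by
    refine Finset.card_le_card_of_injOn (fun x => x + eq_vv m δ) ?_ ?_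
    · intro x hx
      have hx' := Finset.mem_filter.1 (Finset.mem_coe.1 hx)
      refine Finset.mem_coe.2 (Finset.mem_filter.2 ⟨hx'.2.2, ?_⟩)
      rw [eq_rd_add, hx'.2.1]
    · intro x _ y _ hxy
      exact add_right_cancel hxy
  exact (Finset.card_le_card h1).trans ((Finset.card_union_le _ _).trans (Nat.add_le_add h2 h))

theorem eq_ok : S_EQ := by
  intro K hK m hm R
  have : NeZero m := ⟨hm.ne'⟩
  obtain ⟨c, hc⟩ : ∃ c : Res m → ℕ, ∀ δ N,
      ((K N).filter (fun x => x + eq_vv m δ ∉ K N)).card ≤ c δ * (N + 1) ^ 3 :=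
    ⟨fun δ => (hK (eq_vv m δ)).choose, fun δ => (hK (eq_vv m δ)).choose_spec⟩
  refine ⟨R.card * ∑ δ, c δ, fun N => ?_⟩
  have h1 : ∀ ρ : Res m, m ^ 4 * ((K N).filter (fun x => rd m x = ρ)).card ≤
      (K N).card + (∑ δ, c δ) * (N + 1) ^ 3 := by
    intro ρ
    have h2 : ∑ δ : Res m, ((K N).filter (fun x => rd m x = ρ)).card ≤
        ∑ δ : Res m, (((K N).filter (fun x => rd m x = ρ + δ)).card + c δ * (N + 1) ^ 3) :=
      Finset.sum_le_sum fun δ _ => eq_shift m (K N) ρ δ _ (hc δ N)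
    rw [Finset.sum_const, Finset.card_univ, eq_card_res, smul_eq_mul, Finset.sum_add_distrib,
      ← Finset.sum_mul] at h2
    have h3 : ∑ δ : Res m, ((K N).filter (fun x => rd m x = ρ + δ)).card = (K N).card := by
      have h5 : ∑ δ : Res m, ((K N).filter (fun x => rd m x = ρ + δ)).card =
          ∑ δ : Res m, ((K N).filter (fun x => rd m x = δ)).card :=
        Equiv.sum_comp (Equiv.addLeft ρ)
          (fun δ : Res m => ((K N).filter (fun x => rd m x = δ)).card)
      rw [h5]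
      exact (Finset.card_eq_sum_card_fiberwise (f := rd m) (t := Finset.univ)
        (fun x _ => Finset.mem_coe.2 (Finset.mem_univ _))).symm
    rw [h3] at h2
    exact h2
  have h4 : ((K N).filter (fun x => rd m x ∈ R)).card =
      ∑ ρ ∈ R, ((K N).filter (fun x => rd m x = ρ)).card := by
    rw [Finset.card_eq_sum_card_fiberwise (f := rd m) (t := R)
      (fun x hx => Finset.mem_coe.2 (Finset.mem_filter.1 (Finset.mem_coe.1 hx)).2)]
    refine Finset.sum_congr rfl fun ρ hρ => ?_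
    rw [Finset.filter_filter]
    refine congrArg Finset.card (Finset.filter_congr fun x _ => ?_)
    constructor
    · exact fun h => h.2
    · intro h
      refine ⟨?_, h⟩
      rw [h]
      exact hρ
  rw [h4, Finset.mul_sum]
  calc ∑ ρ ∈ R, m ^ 4 * ((K N).filter (fun x => rd m x = ρ)).card
      ≤ ∑ _ρ ∈ R, ((K N).card + (∑ δ, c δ) * (N + 1) ^ 3) := Finset.sum_le_sum fun ρ _ => h1 ρ
    _ = R.card * (K N).card + R.card * (∑ δ, c δ) * (N + 1) ^ 3 := by
        rw [Finset.sum_const, smul_eq_mul]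
        ring

end Pool.Agent.H711.DT
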