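import Pool.Agent.H711.DT.Stm

set_option autoImplicit false

namespace Pool.Agent.H711.DT

/-- If `Bad l x` then the discriminant is a square modulo `l²`. -/
theorem exc_ok : S_EXC := by
  intro A B C l x h
  obtain ⟨r, hr, -⟩ := h
  refine ⟨((2 * r - B : ℤ) : ZMod (l ^ 2)), ?_⟩
  have h1 : ((l ^ 2 : ℕ) : ℤ) ∣ r ^ 2 - B * r + A * C := by
    push_cast
    exact hr
  have h2 : ((r ^ 2 - B * r + A * C : ℤ) : ZMod (l ^ 2)) = 0 :=
    (ZMod.intCast_zmod_eq_zero_iff_dvd _ _).2 h1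
  push_cast at h2 ⊢
  linear_combination 4 * h2

end Pool.Agent.H711.DT
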