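import Pool.Agent.H711.DT.Stm

/-!
# DT-FIB: fibre bound `12 m` from the six permutations of the vertices
-/

namespace Pool.Agent.H711.DT

/-- exchange of the two vectors -/
def fib_s (x : PP) : PP := (x.2, x.1)

/-- change of the base point -/
def fib_t (x : PP) : PP := (-x.1, x.2 - x.1)

theorem fib_s_s (x : PP) : fib_s (fib_s x) = x := rfl

theorem fib_t_t (x : PP) : fib_t (fib_t x) = x := by
  obtain ⟨⟨a, b⟩, ⟨c, d⟩⟩ := x
  simp [fib_t]

theorem fib_s_inj : Function.Injective fib_s := fun x y h => by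
  rw [← fib_s_s x, ← fib_s_s y, h]

theorem fib_t_inj : Function.Injective fib_t := fun x y h => by
  rw [← fib_t_t x, ← fib_t_t y, h]

theorem fib_s1 (α β γ : ℝ) (z : PP) : qR α β γ (fib_s z).1 = qR α β γ z.2 := rfl

theorem fib_s2 (α β γ : ℝ) (z : PP) : qR α β γ (fib_s z).2 = qR α β γ z.1 := rfl

theorem fib_s3 (α β γ : ℝ) (z : PP) :
    qR α β γ ((fib_s z).1 - (fib_s z).2) = qR α β γ (z.1 - z.2) := by
  obtain ⟨⟨a, b⟩, ⟨c, d⟩⟩ := z
  simp only [fib_s, qR, Prod.mk_sub_mk]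
  push_cast
  ring

theorem fib_t1 (α β γ : ℝ) (z : PP) : qR α β γ (fib_t z).1 = qR α β γ z.1 := by
  obtain ⟨⟨a, b⟩, ⟨c, d⟩⟩ := z
  simp only [fib_t, qR, Prod.neg_mk]
  push_cast
  ring

theorem fib_t2 (α β γ : ℝ) (z : PP) : qR α β γ (fib_t z).2 = qR α β γ (z.1 - z.2) := by
  obtain ⟨⟨a, b⟩, ⟨c, d⟩⟩ := z
  simp only [fib_t, qR, Prod.mk_sub_mk]
  push_cast
  ring

theorem fib_t3 (α β γ : ℝ) (z : PP) :
    qR α β γ ((fib_t z).1 - (fib_t z).2) = qR α β γ z.2 := by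
  obtain ⟨⟨a, b⟩, ⟨c, d⟩⟩ := z
  simp only [fib_t, qR, Prod.mk_sub_mk, Prod.neg_mk]
  push_cast
  ring

/-- the Gram determinant -/
theorem fib_gram (α β γ : ℝ) (x : PP) : (4 * α * γ - β ^ 2) * (dt x : ℝ) ^ 2 =
    4 * qR α β γ x.1 * qR α β γ x.2 -
      (qR α β γ x.1 + qR α β γ x.2 - qR α β γ (x.1 - x.2)) ^ 2 := by
  obtain ⟨⟨a, b⟩, ⟨c, d⟩⟩ := x
  simp only [dt, qR, Prod.mk_sub_mk]
  push_cast
  ring

theorem fib_dt {α β γ : ℝ} (h : β ^ 2 < 4 * α * γ) {x z : PP} (he : EqR α β γ x z) :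
    dt z = dt x ∨ dt z = - dt x := by
  have h1 := fib_gram α β γ x
  have h2 := fib_gram α β γ z
  obtain ⟨e1, e2, e3⟩ := he
  rw [← e1, ← e2, ← e3, ← h1] at h2
  have h3 : (4 * α * γ - β ^ 2) ≠ 0 := by linarith
  have h4 : (dt z : ℝ) ^ 2 = (dt x : ℝ) ^ 2 := mul_left_cancel₀ h3 h2
  have h5 : (dt z) ^ 2 = (dt x) ^ 2 := by exact_mod_cast h4
  exact sq_eq_sq_iff_eq_or_eq_neg.1 h5

theorem fib_two {α β γ : ℝ} (h : β ^ 2 < 4 * α * γ) {P : PP → Prop} {m : ℕ}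
    (hm : ∀ x, P x → ∀ F : Finset PP, (∀ z ∈ F, P z ∧ EqR α β γ x z ∧ dt z = dt x) → F.card ≤ m)
    {x : PP} (hx : P x) (G : Finset PP) (hG : ∀ z ∈ G, P z ∧ EqR α β γ x z) : G.card ≤ 2 * m := by
  classical
  have h0 : G.card = (G.filter fun z => dt z = dt x).card +
      (G.filter fun z => ¬ dt z = dt x).card := (Finset.card_filter_add_card_filter_not _).symm
  have h1 : (G.filter fun z => dt z = dt x).card ≤ m := by
    refine hm x hx _ fun z hz => ?_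
    rw [Finset.mem_filter] at hz
    exact ⟨(hG z hz.1).1, (hG z hz.1).2, hz.2⟩
  have h2 : (G.filter fun z => ¬ dt z = dt x).card ≤ m := by
    by_cases hne : (G.filter fun z => ¬ dt z = dt x).Nonempty
    · obtain ⟨z₀, hz₀⟩ := hne
      rw [Finset.mem_filter] at hz₀
      have k0 := hG z₀ hz₀.1
      have k1 : dt z₀ = - dt x := (fib_dt h k0.2).resolve_left hz₀.2
      refine hm z₀ k0.1 _ fun z hz => ?_
      rw [Finset.mem_filter] at hz
      have k2 := hG z hz.1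
      have k3 : dt z = - dt x := (fib_dt h k2.2).resolve_left hz.2
      refine ⟨k2.1, ⟨?_, ?_, ?_⟩, by rw [k3, k1]⟩
      · rw [← k0.2.1, k2.2.1]
      · rw [← k0.2.2.1, k2.2.2.1]
      · rw [← k0.2.2.2, k2.2.2.2]
    · rw [Finset.not_nonempty_iff_eq_empty] at hne
      rw [hne, Finset.card_empty]
      exact Nat.zero_le _
  omega

theorem fib_pair {a b c d : ℝ} (h : ({a, b} : Multiset ℝ) = {c, d}) :
    (a = c ∧ b = d) ∨ (a = d ∧ b = c) := by
  have h1 : a ∈ ({c, d} : Multiset ℝ) := by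
    rw [← h]
    simp
  simp only [Multiset.insert_eq_cons, Multiset.mem_cons, Multiset.mem_singleton] at h1
  rcases h1 with rfl | rfl
  · left
    refine ⟨rfl, ?_⟩
    simp only [Multiset.insert_eq_cons, Multiset.cons_inj_right, Multiset.singleton_inj] at h
    exact h
  · right
    refine ⟨rfl, ?_⟩
    rw [Multiset.pair_comm c a] at h
    simp only [Multiset.insert_eq_cons, Multiset.cons_inj_right, Multiset.singleton_inj] at h
    exact h

theorem fib_triple {a b c u v w : ℝ} (h : ({a, b, c} : Multiset ℝ) = {u, v, w}) :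
    (a = u ∧ b = v ∧ c = w) ∨ (a = u ∧ b = w ∧ c = v) ∨ (a = v ∧ b = u ∧ c = w) ∨
      (a = v ∧ b = w ∧ c = u) ∨ (a = w ∧ b = u ∧ c = v) ∨ (a = w ∧ b = v ∧ c = u) := by
  have h1 : a ∈ ({u, v, w} : Multiset ℝ) := by
    rw [← h]
    simp
  simp only [Multiset.insert_eq_cons, Multiset.mem_cons, Multiset.mem_singleton] at h1
  simp only [Multiset.insert_eq_cons] at h
  rcases h1 with rfl | rfl | rfl
  · rw [Multiset.cons_inj_right] at h
    rcases fib_pair h with ⟨h2, h3⟩ | ⟨h2, h3⟩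
    · exact Or.inl ⟨rfl, h2, h3⟩
    · exact Or.inr (Or.inl ⟨rfl, h2, h3⟩)
  · rw [Multiset.cons_swap u a, Multiset.cons_inj_right] at h
    rcases fib_pair h with ⟨h2, h3⟩ | ⟨h2, h3⟩
    · exact Or.inr (Or.inr (Or.inl ⟨rfl, h2, h3⟩))
    · exact Or.inr (Or.inr (Or.inr (Or.inl ⟨rfl, h2, h3⟩)))
  · have h5 : (u ::ₘ v ::ₘ {a} : Multiset ℝ) = a ::ₘ u ::ₘ {v} := by
      rw [show (v ::ₘ {a} : Multiset ℝ) = a ::ₘ {v} from Multiset.pair_comm v a,
        Multiset.cons_swap u a]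
    rw [h5, Multiset.cons_inj_right] at h
    rcases fib_pair h with ⟨h2, h3⟩ | ⟨h2, h3⟩
    · exact Or.inr (Or.inr (Or.inr (Or.inr (Or.inl ⟨rfl, h2, h3⟩))))
    · exact Or.inr (Or.inr (Or.inr (Or.inr (Or.inr ⟨rfl, h2, h3⟩))))

/-- the six permutations of the vertices -/
def fib_r : Fin 6 → PP → PP :=
  ![id, fib_s, fib_t, fib_s ∘ fib_t, fib_t ∘ fib_s, fib_s ∘ fib_t ∘ fib_s]

theorem fib_r_inj (i : Fin 6) : Function.Injective (fib_r i) := by
  fin_cases i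
  · exact Function.injective_id
  · exact fib_s_inj
  · exact fib_t_inj
  · exact fib_s_inj.comp fib_t_inj
  · exact fib_t_inj.comp fib_s_inj
  · exact fib_s_inj.comp (fib_t_inj.comp fib_s_inj)

theorem fib_r_P {P : PP → Prop} (h : RC P) (i : Fin 6) {z : PP} (hz : P z) : P (fib_r i z) := by
  have hs : ∀ x, P x → P (fib_s x) := h.1
  have ht : ∀ x, P x → P (fib_t x) := h.2
  fin_cases i
  · exact hz
  · exact hs _ hz
  · exact ht _ hz
  · exact hs _ (ht _ hz)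
  · exact ht _ (hs _ hz)
  · exact hs _ (ht _ (hs _ hz))

theorem fib_r_eq {α β γ : ℝ} {x z : PP} (h : sidesR α β γ z = sidesR α β γ x) :
    ∃ i : Fin 6, EqR α β γ x (fib_r i z) := by
  unfold sidesR at h
  rcases fib_triple h with ⟨h1, h2, h3⟩ | ⟨h1, h2, h3⟩ | ⟨h1, h2, h3⟩ | ⟨h1, h2, h3⟩ |
    ⟨h1, h2, h3⟩ | ⟨h1, h2, h3⟩
  · exact ⟨0, h1.symm, h2.symm, h3.symm⟩
  · refine ⟨2, ?_, ?_, ?_⟩
    · change _ = qR α β γ (fib_t z).1
      rw [fib_t1, h1]
    · change _ = qR α β γ (fib_t z).2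
      rw [fib_t2, h3]
    · change _ = qR α β γ ((fib_t z).1 - (fib_t z).2)
      rw [fib_t3, h2]
  · refine ⟨1, ?_, ?_, ?_⟩
    · change _ = qR α β γ (fib_s z).1
      rw [fib_s1, h2]
    · change _ = qR α β γ (fib_s z).2
      rw [fib_s2, h1]
    · change _ = qR α β γ ((fib_s z).1 - (fib_s z).2)
      rw [fib_s3, h3]
  · -- `a = v, b = w, c = u`: need `(c, a, b)`
    refine ⟨3, ?_, ?_, ?_⟩
    · change _ = qR α β γ (fib_s (fib_t z)).1
      rw [fib_s1, fib_t2, h3]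
    · change _ = qR α β γ (fib_s (fib_t z)).2
      rw [fib_s2, fib_t1, h1]
    · change _ = qR α β γ ((fib_s (fib_t z)).1 - (fib_s (fib_t z)).2)
      rw [fib_s3, fib_t3, h2]
  · -- `a = w, b = u, c = v`: need `(b, c, a)`
    refine ⟨4, ?_, ?_, ?_⟩
    · change _ = qR α β γ (fib_t (fib_s z)).1
      rw [fib_t1, fib_s1, h2]
    · change _ = qR α β γ (fib_t (fib_s z)).2
      rw [fib_t2, fib_s3, h3]
    · change _ = qR α β γ ((fib_t (fib_s z)).1 - (fib_t (fib_s z)).2)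
      rw [fib_t3, fib_s2, h1]
  · -- `a = w, b = v, c = u`: need `(c, b, a)`
    refine ⟨5, ?_, ?_, ?_⟩
    · change _ = qR α β γ (fib_s (fib_t (fib_s z))).1
      rw [fib_s1, fib_t2, fib_s3, h3]
    · change _ = qR α β γ (fib_s (fib_t (fib_s z))).2
      rw [fib_s2, fib_t1, fib_s1, h2]
    · change _ = qR α β γ ((fib_s (fib_t (fib_s z))).1 - (fib_s (fib_t (fib_s z))).2)
      rw [fib_s3, fib_t3, fib_s2, h1]

theorem fib_ok : S_FIB := by
  classical
  intro α β γ hα hd P hP m hm x hx F hF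
  have h1 : F ⊆ Finset.univ.biUnion fun i : Fin 6 => F.filter fun z => EqR α β γ x (fib_r i z) := by
    intro z hz
    obtain ⟨i, hi⟩ := fib_r_eq (hF z hz).2
    exact Finset.mem_biUnion.2 ⟨i, Finset.mem_univ _, Finset.mem_filter.2 ⟨hz, hi⟩⟩
  have h2 : ∀ i : Fin 6, (F.filter fun z => EqR α β γ x (fib_r i z)).card ≤ 2 * m := by
    intro i
    rw [← Finset.card_image_of_injective _ (fib_r_inj i)]
    refine fib_two hd hm hx _ fun z hz => ?_
    obtain ⟨y, hy, rfl⟩ := Finset.mem_image.1 hz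
    rw [Finset.mem_filter] at hy
    exact ⟨fib_r_P hP i (hF y hy.1).1, hy.2⟩
  calc F.card ≤ _ := Finset.card_le_card h1
    _ ≤ ∑ i : Fin 6, (F.filter fun z => EqR α β γ x (fib_r i z)).card := Finset.card_biUnion_le
    _ ≤ ∑ _i : Fin 6, 2 * m := Finset.sum_le_sum fun i _ => h2 i
    _ = 12 * m := by
        rw [Finset.sum_const, Finset.card_univ, Fintype.card_fin, smul_eq_mul]
        ring

end Pool.Agent.H711.DT
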