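import Pool.Agent.H711.DT.Stm

/-!
# Task GEO: lower bound for `T` by counting integer pairs
-/

set_option autoImplicit false

namespace Pool.Agent.H711.DT

open scoped ENNReal
open Filter

/-- the point of the lattice -/
private noncomputable def geo_z (a b : Pl) (v : V) : Pl := (v.1 : ℝ) • a + (v.2 : ℝ) • b

private theorem geo_dist (a b : Pl) (p q : V) :
    dist (geo_z a b p) (geo_z a b q) ^ 2 =
      qR (inner ℝ a a) (2 * inner ℝ a b) (inner ℝ b b) (p - q) := by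
  have h : geo_z a b p - geo_z a b q = ((p - q).1 : ℝ) • a + ((p - q).2 : ℝ) • b := by
    unfold geo_z
    rw [Prod.fst_sub, Prod.snd_sub]
    push_cast
    module
  rw [dist_eq_norm, h, ← real_inner_self_eq_norm_sq]
  simp only [inner_add_left, inner_add_right, real_inner_smul_left, real_inner_smul_right,
    real_inner_comm a b]
  unfold qR
  ring

private theorem geo_lin {a b : Pl} (hl : LinearIndependent ℝ ![a, b]) {s t : ℝ}
    (h : s • a + t • b = 0) : s = 0 ∧ t = 0 := by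
  rw [LinearIndependent.pair_iff] at hl
  exact hl s t h

private theorem geo_qR {p : V} (α β γ : ℝ) : qR α β γ (-p) = qR α β γ p := by
  unfold qR
  simp only [Prod.fst_neg, Prod.snd_neg]
  push_cast
  ring

/-- the triangle with the multiset of the squares of its sides -/
private def geo_Sd (t : Set Pl) (s : Multiset ℝ) : Prop :=
  ∃ A B C : Pl, A ≠ B ∧ A ≠ C ∧ B ≠ C ∧ t = {A, B, C} ∧
    s = {dist A B ^ 2, dist A C ^ 2, dist B C ^ 2}

private theorem geo_uniq {t t' : Set Pl} {s s' : Multiset ℝ} (h : geo_Sd t s) (h' : geo_Sd t' s')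
    (hc : cls t = cls t') : s = s' := by
  obtain ⟨A, B, C, hAB, hAC, hBC, rfl, rfl⟩ := h
  obtain ⟨A', B', C', hAB', hAC', hBC', rfl, rfl⟩ := h'
  have h1 : ({A', B', C'} : Set Pl) ∈ cls {A, B, C} := by
    rw [hc]
    refine ⟨IsometryEquiv.refl _, ?_⟩
    rw [show ⇑(IsometryEquiv.refl Pl) = id from rfl, Set.image_id]
  obtain ⟨φ, hφ⟩ := h1
  rw [Set.image_insert_eq, Set.image_pair] at hφ
  have e1 : dist A B = dist (φ A) (φ B) := (φ.isometry.dist_eq _ _).symm
  have e2 : dist A C = dist (φ A) (φ C) := (φ.isometry.dist_eq _ _).symm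
  have e3 : dist B C = dist (φ B) (φ C) := (φ.isometry.dist_eq _ _).symm
  have n1 : φ A ≠ φ B := fun h => hAB (φ.injective h)
  have n2 : φ A ≠ φ C := fun h => hAC (φ.injective h)
  have n3 : φ B ≠ φ C := fun h => hBC (φ.injective h)
  rw [e1, e2, e3]
  have m1 : φ A ∈ ({A', B', C'} : Set Pl) := by rw [hφ]; simp
  have m2 : φ B ∈ ({A', B', C'} : Set Pl) := by rw [hφ]; simp
  have m3 : φ C ∈ ({A', B', C'} : Set Pl) := by rw [hφ]; simp
  clear hφ hc e1 e2 e3
  generalize φ A = D at *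
  generalize φ B = E at *
  generalize φ C = F at *
  simp only [Set.mem_insert_iff, Set.mem_singleton_iff] at m1 m2 m3
  rcases m1 with rfl | rfl | rfl <;> rcases m2 with rfl | rfl | rfl <;>
    rcases m3 with rfl | rfl | rfl <;> first
    | exact absurd rfl n1
    | exact absurd rfl n2
    | exact absurd rfl n3
    | rfl
    | (simp only [dist_comm, Multiset.insert_eq_cons, ← Multiset.singleton_add]; abel)

private theorem geo_box {N p q : ℤ} (hp : |p| ≤ N) (hq : |q| ≤ N) (hpq : |p - q| ≤ N) :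
    ∃ o : ℤ, 0 ≤ o ∧ o ≤ N ∧ 0 ≤ o + p ∧ o + p ≤ N ∧ 0 ≤ o + q ∧ o + q ≤ N := by
  rw [abs_le] at hp hq hpq
  refine ⟨max 0 (max (-p) (-q)), ?_⟩
  omega

private theorem geo_mem {a b : Pl} {n N : ℕ} (hN : (N : ℝ) < √(n : ℝ)) {v : V} (h1 : 0 ≤ v.1)
    (h2 : v.1 ≤ N) (h3 : 0 ≤ v.2) (h4 : v.2 ≤ N) : geo_z a b v ∈ Lat a b n := by
  refine ⟨v.1, v.2, h1, ?_, h3, ?_, rfl⟩
  · have : (v.1 : ℝ) ≤ N := by exact_mod_cast h2
    linarith
  · have : (v.2 : ℝ) ≤ N := by exact_mod_cast h4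
    linarith

private theorem geo_sub (a b : Pl) (p q : V) : geo_z a b p - geo_z a b q = geo_z a b (p - q) := by
  unfold geo_z
  rw [Prod.fst_sub, Prod.snd_sub]
  push_cast
  module

private theorem geo_inj {a b : Pl} (hl : LinearIndependent ℝ ![a, b]) {p : V}
    (h : geo_z a b p = 0) : p = 0 := by
  obtain ⟨h1, h2⟩ := geo_lin hl h
  ext
  · exact_mod_cast h1
  · exact_mod_cast h2

private theorem geo_tri {a b : Pl} (hl : LinearIndependent ℝ ![a, b]) {n N : ℕ}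
    (hN : (N : ℝ) < √(n : ℝ)) {x : PP} (hx : x ∈ XA N) (hd : dt x ≠ 0) :
    ∃ t ∈ tri (Lat a b n), geo_Sd t (sidesR (inner ℝ a a) (2 * inner ℝ a b) (inner ℝ b b) x) := by
  obtain ⟨⟨p1, p2⟩, ⟨q1, q2⟩⟩ := x
  unfold XA at hx
  simp only [Finset.mem_filter, Finset.mem_product, Finset.mem_Icc] at hx
  obtain ⟨⟨⟨⟨a1, a2⟩, a3, a4⟩, ⟨a5, a6⟩, a7, a8⟩, a9, a10⟩ := hx
  obtain ⟨o1, b1, b2, b3, b4, b5, b6⟩ := geo_box (abs_le.2 ⟨a1, a2⟩) (abs_le.2 ⟨a5, a6⟩) a9
  obtain ⟨o2, c1, c2, c3, c4, c5, c6⟩ := geo_box (abs_le.2 ⟨a3, a4⟩) (abs_le.2 ⟨a7, a8⟩) a10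
  unfold dt at hd
  simp only at hd
  have hAB : geo_z a b (o1, o2) ≠ geo_z a b (o1 + p1, o2 + p2) := by
    intro h
    have h1 := geo_sub a b (o1 + p1, o2 + p2) (o1, o2)
    rw [← h, sub_self] at h1
    have h2 := geo_inj hl h1.symm
    simp only [Prod.mk_sub_mk, add_sub_cancel_left, Prod.mk_eq_zero] at h2
    rw [h2.1, h2.2] at hd
    simp at hd
  have hAC : geo_z a b (o1, o2) ≠ geo_z a b (o1 + q1, o2 + q2) := by
    intro h
    have h1 := geo_sub a b (o1 + q1, o2 + q2) (o1, o2)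
    rw [← h, sub_self] at h1
    have h2 := geo_inj hl h1.symm
    simp only [Prod.mk_sub_mk, add_sub_cancel_left, Prod.mk_eq_zero] at h2
    rw [h2.1, h2.2] at hd
    simp at hd
  have hBC : geo_z a b (o1 + p1, o2 + p2) ≠ geo_z a b (o1 + q1, o2 + q2) := by
    intro h
    have h1 := geo_sub a b (o1 + p1, o2 + p2) (o1 + q1, o2 + q2)
    rw [h, sub_self] at h1
    have h2 := geo_inj hl h1.symm
    simp only [Prod.mk_sub_mk, add_sub_add_left_eq_sub, Prod.mk_eq_zero] at h2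
    have e1 : p1 = q1 := by linarith [h2.1]
    have e2 : p2 = q2 := by linarith [h2.2]
    rw [e1, e2] at hd
    apply hd
    ring
  refine ⟨{geo_z a b (o1, o2), geo_z a b (o1 + p1, o2 + p2), geo_z a b (o1 + q1, o2 + q2)},
    ⟨?_, ?_, ?_⟩, _, _, _, hAB, hAC, hBC, rfl, ?_⟩
  · intro y hy
    simp only [Set.mem_insert_iff, Set.mem_singleton_iff] at hy
    rcases hy with rfl | rfl | rfl
    · exact geo_mem hN b1 b2 c1 c2
    · exact geo_mem hN b3 b4 c3 c4
    · exact geo_mem hN b5 b6 c5 c6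
  · rw [Set.ncard_eq_three]
    exact ⟨_, _, _, hAB, hAC, hBC, rfl⟩
  · intro hcol
    rw [collinear_iff_of_mem (p₀ := geo_z a b (o1, o2)) (by simp)] at hcol
    obtain ⟨v, hv⟩ := hcol
    obtain ⟨r1, hr1⟩ := hv (geo_z a b (o1 + p1, o2 + p2)) (by simp)
    obtain ⟨r2, hr2⟩ := hv (geo_z a b (o1 + q1, o2 + q2)) (by simp)
    have h1 := geo_sub a b (o1 + p1, o2 + p2) (o1, o2)
    have h2 := geo_sub a b (o1 + q1, o2 + q2) (o1, o2)
    rw [hr1, vadd_eq_add, add_sub_cancel_right] at h1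
    rw [hr2, vadd_eq_add, add_sub_cancel_right] at h2
    simp only [Prod.mk_sub_mk, add_sub_cancel_left] at h1 h2
    unfold geo_z at h1 h2
    simp only at h1 h2
    have h3 : (r2 * p1 - r1 * q1) • a + (r2 * p2 - r1 * q2) • b = 0 := by
      have h4 : r2 • (r1 • v) = r1 • (r2 • v) := by rw [smul_comm]
      rw [h1, h2] at h4
      have h5 : (r2 * p1 - r1 * q1) • a + (r2 * p2 - r1 * q2) • b =
          r2 • ((p1 : ℝ) • a + (p2 : ℝ) • b) - r1 • ((q1 : ℝ) • a + (q2 : ℝ) • b) := by module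
      rw [h5, h4, sub_self]
    obtain ⟨h6, h7⟩ := geo_lin hl h3
    have hdR : ((p1 : ℝ) * q2 - p2 * q1) ≠ 0 := by exact_mod_cast hd
    have h8 : r2 * ((p1 : ℝ) * q2 - p2 * q1) = 0 := by linear_combination q2 * h6 - q1 * h7
    have h9 : r1 * ((p1 : ℝ) * q2 - p2 * q1) = 0 := by linear_combination p2 * h6 - p1 * h7
    have h10 : r1 = 0 := by
      rcases mul_eq_zero.1 h9 with h | h
      · exact h
      · exact absurd h hdR
    rw [h10, zero_smul] at h1
    obtain ⟨h11, h12⟩ := geo_lin hl h1.symm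
    apply hdR
    rw [h11, h12]
    ring
  · unfold sidesR
    rw [dist_comm (geo_z a b (o1, o2)), dist_comm (geo_z a b (o1, o2)), geo_dist, geo_dist,
      geo_dist]
    simp only [Prod.mk_sub_mk, add_sub_cancel_left, add_sub_add_left_eq_sub]

private theorem geo_fin (a b : Pl) (n : ℕ) : (Lat a b n).Finite := by
  refine Set.Finite.subset (((Finset.Icc (0 : ℤ) ⌈√(n : ℝ)⌉) ×ˢ
    (Finset.Icc (0 : ℤ) ⌈√(n : ℝ)⌉)).image (geo_z a b)).finite_toSet ?_
  rintro x ⟨u, v, hu, hu', hv, hv', rfl⟩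
  rw [Finset.mem_coe, Finset.mem_image]
  refine ⟨(u, v), ?_, rfl⟩
  rw [Finset.mem_product, Finset.mem_Icc, Finset.mem_Icc]
  refine ⟨⟨hu, ?_⟩, hv, ?_⟩
  · exact_mod_cast (hu'.le.trans (Int.le_ceil _))
  · exact_mod_cast (hv'.le.trans (Int.le_ceil _))

theorem geo_ok : S_GEO := by
  classical
  intro a b hl n N hN Y k hY hk
  have h1 := Finset.card_le_mul_card_image
    (f := sidesR (inner ℝ a a) (2 * inner ℝ a b) (inner ℝ b b)) Y k (by
    intro s hs
    rw [Finset.mem_image] at hs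
    obtain ⟨y, hy, rfl⟩ := hs
    refine hk y hy _ (Finset.filter_subset _ _) fun z hz => ?_
    exact (Finset.mem_filter.1 hz).2)
  refine h1.trans (Nat.mul_le_mul_left k ?_)
  have h2 : ∀ s ∈ Y.image (sidesR (inner ℝ a a) (2 * inner ℝ a b) (inner ℝ b b)),
      ∃ t ∈ tri (Lat a b n), geo_Sd t s := by
    intro s hs
    rw [Finset.mem_image] at hs
    obtain ⟨y, hy, rfl⟩ := hs
    obtain ⟨x, hx, hd, he⟩ := hY y hy
    rw [← he]
    exact geo_tri hl hN hx hd
  have h3 : ∀ s : Multiset ℝ, ∃ t : Set Pl,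
      s ∈ Y.image (sidesR (inner ℝ a a) (2 * inner ℝ a b) (inner ℝ b b)) →
        t ∈ tri (Lat a b n) ∧ geo_Sd t s := by
    intro s
    by_cases hs : s ∈ Y.image (sidesR (inner ℝ a a) (2 * inner ℝ a b) (inner ℝ b b))
    · obtain ⟨t, ht⟩ := h2 s hs
      exact ⟨t, fun _ => ht⟩
    · exact ⟨∅, fun h => absurd h hs⟩
  choose g hg using h3
  have hfin : (cls '' tri (Lat a b n)).Finite := by
    refine Set.Finite.image _ ?_
    refine Set.Finite.subset (geo_fin a b n).finite_subsets ?_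
    rintro t ⟨ht, -⟩
    exact ht
  unfold T
  rw [← Set.ncard_coe_finset]
  refine Set.ncard_le_ncard_of_injOn (fun s => cls (g s)) ?_ ?_ hfin
  · intro s hs
    exact ⟨g s, (hg s hs).1, rfl⟩
  · intro s hs s' hs' he
    exact geo_uniq (hg s hs).2 (hg s' hs').2 he

end Pool.Agent.H711.DT
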