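import Pool.Agent.H711.DT.Stm

/-!
# DT-GRC: `Good` is invariant under relabelling (helper230)
-/

namespace Pool.Agent.H711.DT

theorem grc_ok : S_GRC := by
  intro A B C
  refine ⟨fun x hx => ⟨fun h => hx.1 ?_, fun r s e he hn hd hp => hx.2 r s e he hn ?_ hp⟩,
    fun x hx => ⟨fun h => hx.1 ?_, fun r s e he hn hd hp => hx.2 r s e he hn ?_ hp⟩⟩
  · simp only [dt] at h ⊢
    linear_combination -h
  · obtain ⟨h1, h2, h3, h4⟩ := hd
    exact ⟨h3, h4, h1, h2⟩
  · simp only [dt, Prod.fst_neg, Prod.snd_neg, Prod.fst_sub, Prod.snd_sub] at h ⊢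
    linear_combination -h
  · obtain ⟨h1, h2, h3, h4⟩ := hd
    simp only [mul2, mul, Prod.fst_neg, Prod.snd_neg, Prod.fst_sub, Prod.snd_sub] at h1 h2 h3 h4
    obtain ⟨a, ha⟩ := h1
    obtain ⟨b, hb⟩ := h2
    obtain ⟨c, hc⟩ := h3
    obtain ⟨d, hd⟩ := h4
    refine ⟨⟨-a, ?_⟩, ⟨-b, ?_⟩, ⟨c - a, ?_⟩, ⟨d - b, ?_⟩⟩
    · simp only [mul2, mul]
      linear_combination -ha
    · simp only [mul2, mul]
      linear_combination -hb
    · simp only [mul2, mul]
      linear_combination hc - ha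
    · simp only [mul2, mul]
      linear_combination hd - hb

end Pool.Agent.H711.DT
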