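import Pool.Agent.H711.DT.Stm

/-!
# IRR: forms which are not proportional to an integral form have only the rotations `1, -1`
-/

namespace Pool.Agent.H711.DT

private theorem irr_core {α β γ p1 p2 q1 q2 a1 a2 b1 b2 : ℝ}
    (h1 : α * p1 ^ 2 + β * p1 * p2 + γ * p2 ^ 2 = α * a1 ^ 2 + β * a1 * a2 + γ * a2 ^ 2)
    (h2 : α * q1 ^ 2 + β * q1 * q2 + γ * q2 ^ 2 = α * b1 ^ 2 + β * b1 * b2 + γ * b2 ^ 2)
    (h3 : α * (p1 - q1) ^ 2 + β * (p1 - q1) * (p2 - q2) + γ * (p2 - q2) ^ 2 =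
      α * (a1 - b1) ^ 2 + β * (a1 - b1) * (a2 - b2) + γ * (a2 - b2) ^ 2)
    (hD : a1 * b2 - a2 * b1 = p1 * q2 - p2 * q1) (hd : p1 * q2 - p2 * q1 ≠ 0) :
    α * ((b2 * p1 - a2 * q1) - (a1 * q2 - b1 * p2)) = β * (a2 * q2 - b2 * p2) ∧
    -α * (b1 * p1 - a1 * q1) = γ * (a2 * q2 - b2 * p2) := by
  have h4 : 2 * α * p1 * q1 + β * (p1 * q2 + p2 * q1) + 2 * γ * p2 * q2 =
      2 * α * a1 * b1 + β * (a1 * b2 + a2 * b1) + 2 * γ * a2 * b2 := by
    linear_combination h1 + h2 - h3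
  constructor
  · have h5 : (p1 * q2 - p2 * q1) * (α * ((b2 * p1 - a2 * q1) - (a1 * q2 - b1 * p2)) -
        β * (a2 * q2 - b2 * p2)) = 0 := by
      linear_combination q2 * b2 * h1 - (q2 * a2 + p2 * b2) / 2 * h4 + p2 * a2 * h2 +
        ((a1 * q2 - b1 * p2) * α + (a2 * q2 - b2 * p2) * β / 2) * hD
    have h6 := (mul_eq_zero.1 h5).resolve_left hd
    linarith
  · have h5 : (p1 * q2 - p2 * q1) * (-α * (b1 * p1 - a1 * q1) -
        γ * (a2 * q2 - b2 * p2)) = 0 := by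
      linear_combination -q2 * b1 * h1 + (q2 * a1 + p2 * b1) / 2 * h4 - p2 * a1 * h2 +
        ((a1 * q2 - b1 * p2) * β / 2 + (a2 * q2 - b2 * p2) * γ) * hD
    have h6 := (mul_eq_zero.1 h5).resolve_left hd
    linarith

theorem irr_ok : S_IRR := by
  rintro α β γ hα hβ hc ⟨⟨p1, p2⟩, ⟨q1, q2⟩⟩ ⟨⟨a1, a2⟩, ⟨b1, b2⟩⟩ hd ⟨h1, h2, h3⟩ hD
  simp only [dt] at hd hD
  simp only [qR, Prod.mk_sub_mk, Int.cast_sub] at h1 h2 h3
  have hdR : (p1 : ℝ) * q2 - p2 * q1 ≠ 0 := by exact_mod_cast hd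
  have hDR : (a1 : ℝ) * b2 - a2 * b1 = p1 * q2 - p2 * q1 := by exact_mod_cast hD
  obtain ⟨k1, k2⟩ := irr_core h1 h2 h3 hDR hdR
  have hm21 : a2 * q2 - b2 * p2 = 0 := by
    by_contra hne
    apply hc
    rcases lt_or_gt_of_ne hne with hlt | hgt
    · have hltR : (a2 : ℝ) * q2 - b2 * p2 < 0 := by exact_mod_cast hlt
      refine ⟨α / (-((a2 : ℝ) * q2 - b2 * p2)), -(a2 * q2 - b2 * p2),
        -((b2 * p1 - a2 * q1) - (a1 * q2 - b1 * p2)), (b1 * p1 - a1 * q1),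
        div_pos hα (by linarith), ?_, ?_, ?_⟩
      · push_cast
        rw [div_mul_cancel₀ _ (by linarith)]
      · push_cast
        rw [div_mul_eq_mul_div, eq_div_iff (by linarith)]
        linear_combination k1
      · push_cast
        rw [div_mul_eq_mul_div, eq_div_iff (by linarith)]
        linear_combination k2
    · have hgtR : 0 < (a2 : ℝ) * q2 - b2 * p2 := by exact_mod_cast hgt
      refine ⟨α / ((a2 : ℝ) * q2 - b2 * p2), (a2 * q2 - b2 * p2),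
        ((b2 * p1 - a2 * q1) - (a1 * q2 - b1 * p2)), -(b1 * p1 - a1 * q1),
        div_pos hα (by linarith), ?_, ?_, ?_⟩
      · push_cast
        rw [div_mul_cancel₀ _ (by linarith)]
      · push_cast
        rw [div_mul_eq_mul_div, eq_div_iff (by linarith)]
        linear_combination -k1
      · push_cast
        rw [div_mul_eq_mul_div, eq_div_iff (by linarith)]
        linear_combination -k2
  have hm21R : (a2 : ℝ) * q2 - b2 * p2 = 0 := by exact_mod_cast hm21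
  rw [hm21R, mul_zero] at k1 k2
  have e1R : ((b2 : ℝ) * p1 - a2 * q1) - (a1 * q2 - b1 * p2) = 0 :=
    (mul_eq_zero.1 k1).resolve_left hα.ne'
  have e2R : (b1 : ℝ) * p1 - a1 * q1 = 0 :=
    (mul_eq_zero.1 k2).resolve_left (by linarith [neg_ne_zero.2 hα.ne'] : -α ≠ 0)
  have e1 : (b2 * p1 - a2 * q1) - (a1 * q2 - b1 * p2) = 0 := by exact_mod_cast e1R
  have e2 : b1 * p1 - a1 * q1 = 0 := by exact_mod_cast e2R
  -- `m11 ^ 2 = d ^ 2`
  have hsq : (a1 * q2 - b1 * p2 - (p1 * q2 - p2 * q1)) *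
      (a1 * q2 - b1 * p2 + (p1 * q2 - p2 * q1)) = 0 := by
    linear_combination (-(a1 * q2 - b1 * p2)) * e1 + (a2 * q2 - b2 * p2) * e2 +
      (p1 * q2 - p2 * q1) * hD
  have r1 : (p1 * q2 - p2 * q1) * a1 = (a1 * q2 - b1 * p2) * p1 := by
    linear_combination p2 * e2
  have r2 : (p1 * q2 - p2 * q1) * a2 = (a1 * q2 - b1 * p2) * p2 := by
    linear_combination p1 * hm21 + p2 * e1
  have r3 : (p1 * q2 - p2 * q1) * b1 = (a1 * q2 - b1 * p2) * q1 := by
    linear_combination q2 * e2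
  have r4 : (p1 * q2 - p2 * q1) * b2 = (a1 * q2 - b1 * p2) * q2 := by
    linear_combination q1 * hm21 + q2 * e1
  rcases mul_eq_zero.1 hsq with h | h
  · left
    have h' : a1 * q2 - b1 * p2 = p1 * q2 - p2 * q1 := by linarith
    rw [h'] at r1 r2 r3 r4
    rw [mul_left_cancel₀ hd r1, mul_left_cancel₀ hd r2, mul_left_cancel₀ hd r3,
      mul_left_cancel₀ hd r4]
  · right
    have h' : a1 * q2 - b1 * p2 = -(p1 * q2 - p2 * q1) := by linarith
    rw [h', neg_mul, ← mul_neg] at r1 r2 r3 r4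
    rw [mul_left_cancel₀ hd r1, mul_left_cancel₀ hd r2, mul_left_cancel₀ hd r3,
      mul_left_cancel₀ hd r4]
    rfl

end Pool.Agent.H711.DT
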