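import Pool.Agent.H711.DT.Stm

/-!
# Project DT, task LIM
-/

namespace Pool.Agent.H711.DT

open scoped ENNReal Topology
open Filter

private lemma lim_sqrt : Tendsto (fun n : ℕ => √(n : ℝ)) atTop atTop :=
  Real.tendsto_sqrt_atTop.comp tendsto_natCast_atTop_atTop

private lemma lim_N_lt {n : ℕ} (hn : 1 ≤ n) : ((⌈√(n : ℝ)⌉₊ - 1 : ℕ) : ℝ) < √(n : ℝ) := by
  have h0 : (0 : ℝ) < √(n : ℝ) := Real.sqrt_pos.2 (by exact_mod_cast hn)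
  have h1 : 1 ≤ ⌈√(n : ℝ)⌉₊ := Nat.one_le_iff_ne_zero.2 (Nat.ceil_pos.2 h0).ne'
  have h2 := Nat.ceil_lt_add_one h0.le
  rw [Nat.cast_sub h1, Nat.cast_one]
  linarith

private lemma lim_le_N {n : ℕ} (hn : 1 ≤ n) : √(n : ℝ) ≤ ((⌈√(n : ℝ)⌉₊ - 1 : ℕ) : ℝ) + 1 := by
  have h0 : (0 : ℝ) < √(n : ℝ) := Real.sqrt_pos.2 (by exact_mod_cast hn)
  have h1 : 1 ≤ ⌈√(n : ℝ)⌉₊ := Nat.one_le_iff_ne_zero.2 (Nat.ceil_pos.2 h0).ne'
  have h2 := Nat.le_ceil √(n : ℝ)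
  rw [Nat.cast_sub h1, Nat.cast_one]
  linarith

private lemma lim_N_atTop : Tendsto (fun n : ℕ => ⌈√(n : ℝ)⌉₊ - 1) atTop atTop := by
  rw [tendsto_atTop]
  intro b
  filter_upwards [lim_sqrt.eventually_ge_atTop ((b : ℝ) + 1), eventually_ge_atTop 1] with n hn h1
  have h2 := lim_le_N h1
  have h3 : (b : ℝ) ≤ ((⌈√(n : ℝ)⌉₊ - 1 : ℕ) : ℝ) := by linarith
  exact_mod_cast h3

theorem lim_ok : S_LIM := by
  refine ⟨?_, ?_⟩
  · intro a b κ κ' hκ' hlt h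
    have hκ : 0 < κ := lt_of_le_of_lt hκ' hlt
    apply Filter.le_liminf_of_le (by isBoundedDefault)
    have ht : Tendsto (fun n : ℕ => κ * (1 - (√(n : ℝ))⁻¹) ^ 4) atTop (𝓝 κ) := by
      have h1 : Tendsto (fun n : ℕ => (√(n : ℝ))⁻¹) atTop (𝓝 0) :=
        tendsto_inv_atTop_zero.comp lim_sqrt
      have h2 : Tendsto (fun n : ℕ => κ * (1 - (√(n : ℝ))⁻¹) ^ 4) atTop
          (𝓝 (κ * (1 - 0) ^ 4)) := ((tendsto_const_nhds.sub h1).pow 4).const_mul κ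
      simpa using h2
    filter_upwards [ht.eventually_const_lt hlt, lim_N_atTop.eventually h,
      eventually_ge_atTop 1] with n h1 h2 hn
    have h3 := h2 n (lim_N_lt hn)
    have h4 := lim_le_N hn
    set N : ℕ := ⌈√(n : ℝ)⌉₊ - 1 with hN
    have hs : (1 : ℝ) ≤ √(n : ℝ) := by
      rw [Real.one_le_sqrt]
      exact_mod_cast hn
    have hs2 : √(n : ℝ) ^ 2 = n := Real.sq_sqrt (Nat.cast_nonneg n)
    have h5 : (√(n : ℝ) - 1) ^ 4 ≤ (N : ℝ) ^ 4 :=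
      pow_le_pow_left₀ (by linarith) (by linarith) 4
    have hs4 : √(n : ℝ) ^ 4 = (n : ℝ) ^ 2 := by
      rw [show (4 : ℕ) = 2 * 2 from rfl, pow_mul, hs2]
    have h6 : (√(n : ℝ) - 1) ^ 4 = (1 - (√(n : ℝ))⁻¹) ^ 4 * (n : ℝ) ^ 2 := by
      have h7 : √(n : ℝ) - 1 = (1 - (√(n : ℝ))⁻¹) * √(n : ℝ) := by
        field_simp
      rw [h7, mul_pow, hs4]
    have h8 : κ' * (n : ℝ) ^ 2 ≤ (T (Lat a b n) : ℝ) := by
      calc κ' * (n : ℝ) ^ 2 ≤ κ * (1 - (√(n : ℝ))⁻¹) ^ 4 * (n : ℝ) ^ 2 :=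
            mul_le_mul_of_nonneg_right h1.le (by positivity)
        _ = κ * (√(n : ℝ) - 1) ^ 4 := by rw [h6]; ring
        _ ≤ κ * (N : ℝ) ^ 4 := mul_le_mul_of_nonneg_left h5 hκ.le
        _ ≤ _ := h3
    unfold ratio
    have hn0 : ((n : ℝ≥0∞) ^ 2) ≠ 0 := by
      have : (n : ℝ≥0∞) ≠ 0 := by exact_mod_cast (by omega : n ≠ 0)
      exact pow_ne_zero 2 this
    have hnt : ((n : ℝ≥0∞) ^ 2) ≠ ⊤ := ENNReal.pow_ne_top (ENNReal.natCast_ne_top n)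
    rw [ENNReal.le_div_iff_mul_le (Or.inl hn0) (Or.inl hnt)]
    have e1 : (n : ℝ≥0∞) ^ 2 = ENNReal.ofReal ((n : ℝ) ^ 2) := by
      rw [ENNReal.ofReal_pow (Nat.cast_nonneg n), ENNReal.ofReal_natCast]
    rw [e1, ← ENNReal.ofReal_mul hκ', ← ENNReal.ofReal_natCast (T (Lat a b n))]
    exact ENNReal.ofReal_le_ofReal h8
  · intro h
    unfold c0
    have hle : ∀ᶠ n : ℕ in atTop, ratio e1 e2 n ≤
        ENNReal.ofReal (3 / 16 * (1 + 3 * (√(n : ℝ))⁻¹) ^ 4) := by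
      filter_upwards [eventually_ge_atTop 1] with n hn
      have h1 := h n (⌈√(n : ℝ)⌉₊ - 1) (lim_le_N hn)
      have h2 := lim_N_lt hn
      set N : ℕ := ⌈√(n : ℝ)⌉₊ - 1 with hN
      have hs : (1 : ℝ) ≤ √(n : ℝ) := by
        rw [Real.one_le_sqrt]
        exact_mod_cast hn
      have hs2 : √(n : ℝ) ^ 2 = n := Real.sq_sqrt (Nat.cast_nonneg n)
      have h3 : ((N : ℝ) + 3) ^ 4 ≤ (√(n : ℝ) + 3) ^ 4 :=
        pow_le_pow_left₀ (by positivity) (by linarith) 4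
      have hs4 : √(n : ℝ) ^ 4 = (n : ℝ) ^ 2 := by
        rw [show (4 : ℕ) = 2 * 2 from rfl, pow_mul, hs2]
      have h4 : (√(n : ℝ) + 3) ^ 4 = (1 + 3 * (√(n : ℝ))⁻¹) ^ 4 * (n : ℝ) ^ 2 := by
        have h7 : √(n : ℝ) + 3 = (1 + 3 * (√(n : ℝ))⁻¹) * √(n : ℝ) := by
          field_simp
        rw [h7, mul_pow, hs4]
      have h5 : (T (Lat e1 e2 n) : ℝ) ≤ 3 / 16 * (1 + 3 * (√(n : ℝ))⁻¹) ^ 4 * (n : ℝ) ^ 2 := by
        calc (T (Lat e1 e2 n) : ℝ) ≤ 3 / 16 * ((N : ℝ) + 3) ^ 4 := h1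
          _ ≤ 3 / 16 * (√(n : ℝ) + 3) ^ 4 := by linarith
          _ = _ := by rw [h4]; ring
      unfold ratio
      have hn0 : ((n : ℝ≥0∞) ^ 2) ≠ 0 := by
        have : (n : ℝ≥0∞) ≠ 0 := by exact_mod_cast (by omega : n ≠ 0)
        exact pow_ne_zero 2 this
      have hnt : ((n : ℝ≥0∞) ^ 2) ≠ ⊤ := ENNReal.pow_ne_top (ENNReal.natCast_ne_top n)
      rw [ENNReal.div_le_iff_le_mul (Or.inl hn0) (Or.inl hnt)]
      have e1 : (n : ℝ≥0∞) ^ 2 = ENNReal.ofReal ((n : ℝ) ^ 2) := by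
        rw [ENNReal.ofReal_pow (Nat.cast_nonneg n), ENNReal.ofReal_natCast]
      rw [e1, ← ENNReal.ofReal_mul (by positivity), ← ENNReal.ofReal_natCast (T _)]
      exact ENNReal.ofReal_le_ofReal h5
    have ht : Tendsto (fun n : ℕ => ENNReal.ofReal (3 / 16 * (1 + 3 * (√(n : ℝ))⁻¹) ^ 4)) atTop
        (𝓝 (ENNReal.ofReal (3 / 16))) := by
      apply ENNReal.tendsto_ofReal
      have h1 : Tendsto (fun n : ℕ => (√(n : ℝ))⁻¹) atTop (𝓝 0) :=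
        tendsto_inv_atTop_zero.comp lim_sqrt
      have h2 : Tendsto (fun n : ℕ => (3 / 16 : ℝ) * (1 + 3 * (√(n : ℝ))⁻¹) ^ 4) atTop
          (𝓝 (3 / 16 * (1 + 3 * 0) ^ 4)) :=
        ((tendsto_const_nhds.add (h1.const_mul 3)).pow 4).const_mul (3 / 16)
      simpa using h2
    rw [← ht.liminf_eq]
    exact Filter.liminf_le_liminf hle

end Pool.Agent.H711.DT
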