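import Pool.Agent.H711.DT.Stm

/-!
The sum of `2 / l ^ 2` over primes `l > 200` is at most `1 / 200`.
-/

set_option autoImplicit false

open Finset

namespace Pool.Agent.H711.DT

theorem num_tele (M : ℕ) (hM : 101 ≤ M) :
    ∑ k ∈ Ico 101 M, (1 / (2 * (k : ℝ) - 1) - 1 / (2 * (k : ℝ) + 1)) =
      1 / 201 - 1 / (2 * (M : ℝ) - 1) := by
  induction M, hM using Nat.le_induction with
  | base => norm_num
  | succ m hm ih =>
    rw [sum_Ico_succ_top hm, ih]
    push_cast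
    ring

theorem num_term (k : ℕ) (hk : 101 ≤ k) :
    2 / ((2 * k + 1 : ℕ) : ℝ) ^ 2 ≤ 1 / (2 * (k : ℝ) - 1) - 1 / (2 * (k : ℝ) + 1) := by
  have hk' : (101 : ℝ) ≤ k := by exact_mod_cast hk
  have h1 : (0 : ℝ) < 2 * k - 1 := by linarith
  have h2 : (0 : ℝ) < 2 * k + 1 := by linarith
  have e : 1 / (2 * (k : ℝ) - 1) - 1 / (2 * (k : ℝ) + 1) = 2 / ((2 * k - 1) * (2 * k + 1)) := by
    field_simp
    ring
  rw [e]
  push_cast
  apply div_le_div_of_nonneg_left (by norm_num) (by positivity)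
  nlinarith

theorem num_ok : S_NUM := by
  intro F hF
  have h1 : ∀ l ∈ F, l = 2 * (l / 2) + 1 ∧ 101 ≤ l / 2 := by
    intro l hl
    obtain ⟨hp, hl2⟩ := hF l hl
    have h2 : l % 2 = 1 := by
      rcases hp.eq_two_or_odd with h | h
      · omega
      · exact h
    have h3 : l ≠ 201 := by
      rintro rfl
      revert hp
      norm_num
    omega
  have h2 : ∑ l ∈ F, 2 / (l : ℝ) ^ 2 =
      ∑ k ∈ F.image (fun l => l / 2), 2 / ((2 * k + 1 : ℕ) : ℝ) ^ 2 := by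
    rw [sum_image]
    · refine sum_congr rfl fun l hl => ?_
      rw [← (h1 l hl).1]
    · intro a ha b hb hab
      have h3 := (h1 a ha).1
      have h4 := (h1 b hb).1
      have hab' : a / 2 = b / 2 := hab
      omega
  obtain ⟨M, hM0, hM⟩ : ∃ M : ℕ, 101 ≤ M ∧ ∀ l ∈ F, l / 2 < M := by
    refine ⟨F.sup id + 101, by omega, fun l hl => ?_⟩
    have h3 : l ≤ F.sup id := Finset.le_sup (f := id) hl
    omega
  rw [h2]
  have h3 : F.image (fun l => l / 2) ⊆ Ico 101 M := by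
    intro k hk
    rw [mem_image] at hk
    obtain ⟨l, hl, rfl⟩ := hk
    rw [mem_Ico]
    exact ⟨(h1 l hl).2, hM l hl⟩
  calc ∑ k ∈ F.image (fun l => l / 2), 2 / ((2 * k + 1 : ℕ) : ℝ) ^ 2
      ≤ ∑ k ∈ Ico 101 M, 2 / ((2 * k + 1 : ℕ) : ℝ) ^ 2 :=
        sum_le_sum_of_subset_of_nonneg h3 fun k _ _ => by positivity
    _ ≤ ∑ k ∈ Ico 101 M, (1 / (2 * (k : ℝ) - 1) - 1 / (2 * (k : ℝ) + 1)) :=
        sum_le_sum fun k hk => num_term k (mem_Ico.1 hk).1
    _ = 1 / 201 - 1 / (2 * (M : ℝ) - 1) := num_tele M hM0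
    _ ≤ 1 / 200 := by
        have hM' : (101 : ℝ) ≤ M := by exact_mod_cast hM0
        have h4 : 0 ≤ 1 / (2 * (M : ℝ) - 1) := by
          apply div_nonneg zero_le_one
          linarith
        have h5 : (1 : ℝ) / 201 ≤ 1 / 200 := by norm_num
        linarith

end Pool.Agent.H711.DT
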