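import Pool.Agent.H711.DT.Stm

/-!
# Task RED: if a pair is not good, then it is bad at a prime
-/

set_option autoImplicit false

namespace Pool.Agent.H711.DT

theorem red_key (A B C r s e : ℤ) (x : PP) (m : ℕ) (hme : (m : ℤ) ∣ e)
    (hcop : IsCoprime s ((m : ℤ) ^ 2)) (hn : nm A B C r s = e ^ 2)
    (hd : Dvd2 e (mul2 A B C r s x)) : Bad A B C m x := by
  obtain ⟨u, v, huv⟩ := hcop
  have h1 : r ^ 2 + B * r * s + A * C * s ^ 2 = e ^ 2 := hn
  have c1 : ∀ p : V, (m : ℤ) ∣ r * p.1 - s * C * p.2 → (m : ℤ) ∣ -(-(u * r)) * p.1 - 1 * C * p.2 := by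
    rintro p ⟨k, hk⟩
    exact ⟨u * k - C * p.2 * v * m, by linear_combination u * hk + C * p.2 * huv⟩
  have c2 : ∀ p : V, (m : ℤ) ∣ s * A * p.1 + (r + s * B) * p.2 →
      (m : ℤ) ∣ 1 * A * p.1 + (-(-(u * r)) + 1 * B) * p.2 := by
    rintro p ⟨k, hk⟩
    exact ⟨u * k + (A * p.1 + B * p.2) * v * m,
      by linear_combination u * hk - (A * p.1 + B * p.2) * huv⟩
  obtain ⟨d1, d2, d3, d4⟩ := hd
  refine ⟨-(u * r), ?_, c1 x.1 (hme.trans d1), c2 x.1 (hme.trans d2), c1 x.2 (hme.trans d3),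
    c2 x.2 (hme.trans d4)⟩
  obtain ⟨e', rfl⟩ := hme
  exact ⟨u ^ 2 * e' ^ 2 + B * u * r * v + A * C * v * (1 + u * s),
    by linear_combination u ^ 2 * h1 - (B * u * r + A * C * (1 + u * s)) * huv⟩

theorem red_prime (A B C r s e : ℤ) (l : ℕ) (hl : l.Prime) (hle : (l : ℤ) ∣ e)
    (hn : nm A B C r s = e ^ 2)
    (hp : ∀ l : ℕ, l.Prime → (l : ℤ) ∣ r → (l : ℤ) ∣ s → ¬ (l : ℤ) ∣ e) : ¬ (l : ℤ) ∣ s := by
  intro hs
  have hlp : Prime (l : ℤ) := Nat.prime_iff_prime_int.1 hl
  have h1 : r ^ 2 + B * r * s + A * C * s ^ 2 = e ^ 2 := hn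
  have h2 : (l : ℤ) ∣ r ^ 2 := by
    have h3 : r ^ 2 = e * e - s * (B * r + A * C * s) := by linear_combination h1
    rw [h3]
    exact dvd_sub (hle.mul_right _) (hs.mul_right _)
  exact hp l hl (hlp.dvd_of_dvd_pow h2) hs hle

theorem red_cop (s : ℤ) (l : ℕ) (hl : l.Prime) (h : ¬ (l : ℤ) ∣ s) (k : ℕ) :
    IsCoprime s ((l : ℤ) ^ k) := by
  have hlp : Prime (l : ℤ) := Nat.prime_iff_prime_int.1 hl
  exact ((Prime.coprime_iff_not_dvd hlp).2 h).symm.pow_right

theorem red_small (B r s D : ℤ) (h : (2 * r + B * s) ^ 2 + D * s ^ 2 = 16) (hD : 4 < D)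
    (h7 : D ≠ 7) (h12 : D ≠ 12) (h15 : D ≠ 15) (h16 : D ≠ 16) : s = 0 ∧ (r = 2 ∨ r = -2) := by
  have h1 : D * s ^ 2 ≤ 16 := by nlinarith [sq_nonneg (2 * r + B * s)]
  have h2 : s ^ 2 ≤ 3 := by
    by_contra hcon
    push Not at hcon
    nlinarith
  have h3 : s ≤ 1 := by nlinarith
  have h4 : -1 ≤ s := by nlinarith
  have key : ∀ k : ℤ, k ^ 2 + D = 16 → False := by
    intro k hk
    have h5 : k ^ 2 ≤ 11 := by linarith
    have h6 : k ≤ 3 := by nlinarith
    have h7' : -3 ≤ k := by nlinarith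
    interval_cases k <;> omega
  have h5 : s = -1 ∨ s = 0 ∨ s = 1 := by omega
  rcases h5 with rfl | rfl | rfl
  · exact (key (2 * r + B * -1) (by linarith)).elim
  · refine ⟨rfl, ?_⟩
    have h6 : (r - 2) * (r + 2) = 0 := by nlinarith
    rcases mul_eq_zero.1 h6 with h7' | h7'
    · left
      linarith
    · right
      linarith
  · exact (key (2 * r + B * 1) (by linarith)).elim

theorem red_ok : S_RED := by
  intro A B C _ x hG
  unfold Good at hG
  push Not at hG
  obtain ⟨r, s, e, he, hn, hd, hp, he1⟩ := hG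
  have hp' : ∀ l : ℕ, l.Prime → (l : ℤ) ∣ r → (l : ℤ) ∣ s → ¬ (l : ℤ) ∣ e := hp
  have hbad : ∀ l : ℕ, l.Prime → (l : ℤ) ∣ e → Bad A B C l x := fun l hl hle =>
    red_key A B C r s e x l hle (red_cop s l hl (red_prime A B C r s e l hl hle hn hp') 2) hn hd
  constructor
  · obtain ⟨l, hl, hle⟩ := Nat.exists_prime_and_dvd (n := e.natAbs) (by omega)
    exact ⟨l, hl, hbad l hl (Int.natCast_dvd.2 hle)⟩
  · intro hD h7 h12 h15 h16
    by_cases hodd : ∃ l : ℕ, l.Prime ∧ l ≠ 2 ∧ (l : ℤ) ∣ e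
    · obtain ⟨l, hl, hl2, hle⟩ := hodd
      exact Or.inl ⟨l, hl, hl2, hbad l hl hle⟩
    · push Not at hodd
      right
      -- `e` is a power of two
      obtain ⟨l, hl, hle⟩ := Nat.exists_prime_and_dvd (n := e.natAbs) (by omega)
      have hl2 : l = 2 := by
        by_contra hne
        exact hodd l hl hne (Int.natCast_dvd.2 hle)
      subst hl2
      have h2e : ((2 : ℕ) : ℤ) ∣ e := Int.natCast_dvd.2 hle
      have h2s := red_prime A B C r s e 2 Nat.prime_two h2e hn hp'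
      by_cases h4 : (4 : ℤ) ∣ e
      · have h5 : ((4 : ℕ) : ℤ) ∣ e := by exact_mod_cast h4
        refine red_key A B C r s e x 4 h5 ?_ hn hd
        have h6 := red_cop s 2 Nat.prime_two h2s 4
        norm_num at h6 ⊢
        exact h6
      · exfalso
        obtain ⟨e', he'⟩ := h2e
        have he'1 : e'.natAbs = 1 := by
          by_contra hne
          obtain ⟨l', hl', hle'⟩ := Nat.exists_prime_and_dvd hne
          have hle'' : (l' : ℤ) ∣ e' := Int.natCast_dvd.2 hle'
          have hl'2 : l' = 2 := by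
            by_contra hne'
            refine hodd l' hl' hne' ?_
            rw [he']
            exact hle''.mul_left _
          rw [hl'2] at hle''
          obtain ⟨e'', he''⟩ := hle''
          apply h4
          refine ⟨e'', ?_⟩
          rw [he', he'']
          push_cast
          ring
        have he2 : e = 2 := by
          push_cast at he'
          omega
        have h1 : r ^ 2 + B * r * s + A * C * s ^ 2 = e ^ 2 := hn
        rw [he2] at h1
        have h16' : (2 * r + B * s) ^ 2 + (4 * A * C - B ^ 2) * s ^ 2 = 16 := by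
          linear_combination 4 * h1
        obtain ⟨hs0, hr⟩ := red_small B r s _ h16' hD h7 h12 h15 h16
        apply h2s
        rw [hs0]
        exact dvd_zero _

end Pool.Agent.H711.DT
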