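import Pool.Agent.H711.DT.Stm

/-!
# Project DT: task ROT

Equal Gram matrices and determinants: the pairs differ by a rotation of the form.
-/

set_option autoImplicit false

namespace Pool.Agent.H711.DT

theorem rot_core (A B C p1 p2 q1 q2 P1 P2 Q1 Q2 : ℤ)
    (hpos : 0 < A * p1 ^ 2 + B * p1 * p2 + C * p2 ^ 2)
    (E1 : A * p1 ^ 2 + B * p1 * p2 + C * p2 ^ 2 = A * P1 ^ 2 + B * P1 * P2 + C * P2 ^ 2)
    (E2 : A * q1 ^ 2 + B * q1 * q2 + C * q2 ^ 2 = A * Q1 ^ 2 + B * Q1 * Q2 + C * Q2 ^ 2)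
    (E3 : A * (p1 - q1) ^ 2 + B * (p1 - q1) * (p2 - q2) + C * (p2 - q2) ^ 2 =
      A * (P1 - Q1) ^ 2 + B * (P1 - Q1) * (P2 - Q2) + C * (P2 - Q2) ^ 2)
    (hD : P1 * Q2 - P2 * Q1 = p1 * q2 - p2 * q1) :
    ∃ r s m : ℤ, 0 < m ∧ r ^ 2 + B * r * s + A * C * s ^ 2 = m ^ 2 ∧
      m * P1 = r * p1 - s * C * p2 ∧ m * P2 = s * A * p1 + (r + s * B) * p2 ∧
      m * Q1 = r * q1 - s * C * q2 ∧ m * Q2 = s * A * q1 + (r + s * B) * q2 := by
  refine ⟨P1 * (A * p1 + B * p2) + C * P2 * p2, p1 * P2 - p2 * P1,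
    A * p1 ^ 2 + B * p1 * p2 + C * p2 ^ 2, hpos, ?_, ?_, ?_, ?_⟩
  · linear_combination -(A * p1 ^ 2 + B * p1 * p2 + C * p2 ^ 2) * E1
  · ring
  · ring
  set m : ℤ := A * p1 ^ 2 + B * p1 * p2 + C * p2 ^ 2 with hm
  set r : ℤ := P1 * (A * p1 + B * p2) + C * P2 * p2 with hr
  set s : ℤ := p1 * P2 - p2 * P1 with hs
  have hb : 2 * A * P1 * Q1 + B * (P1 * Q2 + P2 * Q1) + 2 * C * P2 * Q2 =
      2 * A * p1 * q1 + B * (p1 * q2 + p2 * q1) + 2 * C * p2 * q2 := by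
    linear_combination -E1 - E2 + E3
  have hd : P1 * (m * Q2 - (s * A * q1 + (r + s * B) * q2)) -
      P2 * (m * Q1 - (r * q1 - s * C * q2)) = 0 := by
    rw [hm, hr, hs]
    linear_combination m * hD + (p1 * q2 - p2 * q1) * E1
  have he : 2 * A * P1 * (m * Q1 - (r * q1 - s * C * q2)) +
      B * (P1 * (m * Q2 - (s * A * q1 + (r + s * B) * q2)) +
        P2 * (m * Q1 - (r * q1 - s * C * q2))) +
      2 * C * P2 * (m * Q2 - (s * A * q1 + (r + s * B) * q2)) = 0 := by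
    rw [hm, hr, hs]
    linear_combination m * hb + (2 * A * p1 * q1 + B * (p1 * q2 + p2 * q1) + 2 * C * p2 * q2) * E1
  have hP : 2 * (A * P1 ^ 2 + B * P1 * P2 + C * P2 ^ 2) ≠ 0 := by
    rw [← E1]
    omega
  constructor
  · have h : 2 * (A * P1 ^ 2 + B * P1 * P2 + C * P2 ^ 2) * (m * Q1 - (r * q1 - s * C * q2)) = 0 := by
      linear_combination P1 * he - (B * P1 + 2 * C * P2) * hd
    rcases mul_eq_zero.1 h with h | h
    · exact absurd h hP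
    · linarith
  · have h : 2 * (A * P1 ^ 2 + B * P1 * P2 + C * P2 ^ 2) *
        (m * Q2 - (s * A * q1 + (r + s * B) * q2)) = 0 := by
      linear_combination P2 * he + (2 * A * P1 + B * P2) * hd
    rcases mul_eq_zero.1 h with h | h
    · exact absurd h hP
    · linarith

theorem rot_pos {A B C : ℤ} (h : Prim A B C) {a b : ℤ} (hab : a ≠ 0 ∨ b ≠ 0) :
    0 < A * a ^ 2 + B * a * b + C * b ^ 2 := by
  obtain ⟨hA, hB, _⟩ := h
  have h4 : 4 * A * (A * a ^ 2 + B * a * b + C * b ^ 2) =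
      (2 * A * a + B * b) ^ 2 + (4 * A * C - B ^ 2) * b ^ 2 := by ring
  have h5 : 0 < (2 * A * a + B * b) ^ 2 + (4 * A * C - B ^ 2) * b ^ 2 := by
    by_cases hb : b = 0
    · subst hb
      have ha : a ≠ 0 := by
        rcases hab with h | h
        · exact h
        · exact absurd rfl h
      have : 2 * A * a + B * 0 ≠ 0 := by
        rw [mul_zero, add_zero]
        exact mul_ne_zero (by omega) ha
      positivity
    · have h6 : 0 < b ^ 2 := by positivity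
      have h7 : 0 < 4 * A * C - B ^ 2 := by linarith
      have h8 := mul_pos h7 h6
      have h9 := sq_nonneg (2 * A * a + B * b)
      linarith
  rw [← h4] at h5
  exact (mul_pos_iff_of_pos_left (by omega)).1 h5

theorem rot_ok : S_ROT := by
  intro A B C hP x y hx hE hdt hG
  obtain ⟨⟨p1, p2⟩, ⟨q1, q2⟩⟩ := x
  obtain ⟨⟨P1, P2⟩, ⟨Q1, Q2⟩⟩ := y
  obtain ⟨E1, E2, E3⟩ := hE
  change A * p1 ^ 2 + B * p1 * p2 + C * p2 ^ 2 = A * P1 ^ 2 + B * P1 * P2 + C * P2 ^ 2 at E1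
  change A * q1 ^ 2 + B * q1 * q2 + C * q2 ^ 2 = A * Q1 ^ 2 + B * Q1 * Q2 + C * Q2 ^ 2 at E2
  change A * (p1 - q1) ^ 2 + B * (p1 - q1) * (p2 - q2) + C * (p2 - q2) ^ 2 =
      A * (P1 - Q1) ^ 2 + B * (P1 - Q1) * (P2 - Q2) + C * (P2 - Q2) ^ 2 at E3
  change p1 * q2 - p2 * q1 ≠ 0 at hx
  change P1 * Q2 - P2 * Q1 = p1 * q2 - p2 * q1 at hdt
  have hp : p1 ≠ 0 ∨ p2 ≠ 0 := by
    by_contra h
    push Not at h
    apply hx
    rw [h.1, h.2]
    ring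
  obtain ⟨r0, s0, m, hm, hn, e1, e2, e3, e4⟩ :=
    rot_core A B C p1 p2 q1 q2 P1 P2 Q1 Q2 (rot_pos hP hp) E1 E2 E3 hdt
  -- the greatest common divisor
  obtain ⟨d, hd0, hd1, hd2, hd3, hd4⟩ : ∃ d : ℤ, 0 < d ∧ d ∣ r0 ∧ d ∣ s0 ∧ d ∣ m ∧
      ∀ k : ℤ, k ∣ r0 → k ∣ s0 → k ∣ m → k ∣ d := by
    refine ⟨(Int.gcd (Int.gcd r0 s0 : ℤ) m : ℤ), ?_, ?_, ?_, ?_, ?_⟩
    · have : 0 < Int.gcd (Int.gcd r0 s0 : ℤ) m := Int.gcd_pos_of_ne_zero_right _ (by omega)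
      exact_mod_cast this
    · exact (Int.gcd_dvd_left _ _).trans (Int.gcd_dvd_left _ _)
    · exact (Int.gcd_dvd_left _ _).trans (Int.gcd_dvd_right _ _)
    · exact Int.gcd_dvd_right _ _
    · intro k h1 h2 h3
      exact Int.dvd_coe_gcd (Int.dvd_coe_gcd h1 h2) h3
  obtain ⟨r, rfl⟩ := hd1
  obtain ⟨s, rfl⟩ := hd2
  obtain ⟨e, rfl⟩ := hd3
  have hd : d ≠ 0 := hd0.ne'
  have he : 0 < e := (mul_pos_iff_of_pos_left hd0).1 hm
  have f1 : e * P1 = r * p1 - s * C * p2 := by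
    apply mul_left_cancel₀ hd
    linear_combination e1
  have f2 : e * P2 = s * A * p1 + (r + s * B) * p2 := by
    apply mul_left_cancel₀ hd
    linear_combination e2
  have f3 : e * Q1 = r * q1 - s * C * q2 := by
    apply mul_left_cancel₀ hd
    linear_combination e3
  have f4 : e * Q2 = s * A * q1 + (r + s * B) * q2 := by
    apply mul_left_cancel₀ hd
    linear_combination e4
  have hn' : nm A B C r s = e ^ 2 := by
    unfold nm
    apply mul_left_cancel₀ (pow_ne_zero 2 hd)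
    linear_combination hn
  have he1 : e = 1 := by
    refine hG r s e (by omega) hn' ⟨⟨P1, f1.symm⟩, ⟨P2, f2.symm⟩, ⟨Q1, f3.symm⟩, ⟨Q2, f4.symm⟩⟩ ?_
    intro l hl h1 h2 h3
    have h4 := hd4 (d * l) (mul_dvd_mul_left d h1) (mul_dvd_mul_left d h2) (mul_dvd_mul_left d h3)
    have h5 : (l : ℤ) ∣ 1 := by
      apply Int.dvd_of_mul_dvd_mul_left hd
      rw [mul_one]
      exact h4
    have h6 : l ∣ 1 := by exact_mod_cast h5
    exact hl.one_lt.ne' (Nat.dvd_one.1 h6)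
  subst he1
  refine ⟨r, s, by rw [hn', one_pow], ?_⟩
  rw [one_mul] at f1 f2 f3 f4
  rw [f1, f2, f3, f4]
  rfl

end Pool.Agent.H711.DT
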