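import Pool.Agent.H711.DT.Stm

set_option autoImplicit false

namespace Pool.Agent.H711.DT

private lemma sbi_mul_add (A B C r s : ℤ) (v w : V) :
    mul A B C r s (v + w) = mul A B C r s v + mul A B C r s w := by
  unfold mul
  ext <;> simp <;> ring

private lemma sbi_mul_mul (A B C r s : ℤ) (h : nm A B C r s = 1) (v : V) :
    mul A B C r s (mul A B C (r + s * B) (-s) v) = v := by
  unfold nm at h
  unfold mul
  ext
  · simp only
    linear_combination v.1 * h
  · simp only
    linear_combination v.2 * h

private lemma sbi_mul_mul' (A B C r s : ℤ) (h : nm A B C r s = 1) (v : V) :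
    mul A B C (r + s * B) (-s) (mul A B C r s v) = v := by
  unfold nm at h
  unfold mul
  ext
  · simp only
    linear_combination v.1 * h
  · simp only
    linear_combination v.2 * h

private lemma sbi_add (A B C r s : ℤ) (x y : PP) :
    mul2 A B C r s (x + y) = mul2 A B C r s x + mul2 A B C r s y := by
  unfold mul2
  rw [Prod.fst_add, Prod.snd_add, sbi_mul_add, sbi_mul_add]
  rfl

private lemma sbi_inj (A B C r s : ℤ) (h : nm A B C r s = 1) :
    Function.Injective (mul2 A B C r s) := by
  intro x y hxy
  unfold mul2 at hxy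
  have h1 := congrArg Prod.fst hxy
  have h2 := congrArg Prod.snd hxy
  simp only at h1 h2
  have h3 := congrArg (mul A B C (r + s * B) (-s)) h1
  have h4 := congrArg (mul A B C (r + s * B) (-s)) h2
  rw [sbi_mul_mul' A B C r s h, sbi_mul_mul' A B C r s h] at h3 h4
  exact Prod.ext h3 h4

theorem sbi_ok : S_SBI := by
  intro A B C r s h K hK v
  set g' : PP := mul2 A B C (r + s * B) (-s) v with hg'
  obtain ⟨c, hc⟩ := hK g'
  refine ⟨c, fun N => ?_⟩
  have hv : mul2 A B C r s g' = v := by
    rw [hg']
    unfold mul2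
    simp only
    rw [sbi_mul_mul A B C r s h, sbi_mul_mul A B C r s h]
  have hsub : ((K N).image (mul2 A B C r s)).filter
      (fun x => x + v ∉ (K N).image (mul2 A B C r s)) ⊆
      ((K N).filter (fun x => x + g' ∉ K N)).image (mul2 A B C r s) := by
    intro y hy
    rw [Finset.mem_filter, Finset.mem_image] at hy
    obtain ⟨⟨x, hx, rfl⟩, hy2⟩ := hy
    rw [Finset.mem_image]
    refine ⟨x, ?_, rfl⟩
    rw [Finset.mem_filter]
    refine ⟨hx, fun hmem => hy2 ?_⟩
    rw [Finset.mem_image]
    refine ⟨x + g', hmem, ?_⟩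
    rw [sbi_add, hv]
  calc (((K N).image (mul2 A B C r s)).filter
      (fun x => x + v ∉ (K N).image (mul2 A B C r s))).card
      ≤ (((K N).filter (fun x => x + g' ∉ K N)).image (mul2 A B C r s)).card :=
        Finset.card_le_card hsub
    _ ≤ ((K N).filter (fun x => x + g' ∉ K N)).card := Finset.card_image_le
    _ ≤ c * (N + 1) ^ 3 := hc N

end Pool.Agent.H711.DT
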