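import Pool.Agent.H711.DT.Stm

/-!
# TASK SBX (helper860, for helper711)
-/

set_option autoImplicit false

namespace Pool.Agent.H711.DT

/-- the boundary values -/
private noncomputable def sbx_S (N : ℕ) (M : ℤ) : Finset ℤ :=
  Finset.Icc (-(N : ℤ)) (-(N : ℤ) + M) ∪ Finset.Icc ((N : ℤ) - M) N

private theorem sbx_S_card (N : ℕ) (M : ℕ) : (sbx_S N M).card ≤ 2 * (M + 1) := by
  unfold sbx_S
  refine (Finset.card_union_le _ _).trans ?_
  rw [Int.card_Icc, Int.card_Icc]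
  omega

private theorem sbx_mem (N : ℕ) (M a w : ℤ) (ha : |a| ≤ (N : ℤ)) (hw : |w| ≤ M)
    (h : ¬ |a + w| ≤ (N : ℤ)) : a ∈ sbx_S N M := by
  unfold sbx_S
  rw [Finset.mem_union, Finset.mem_Icc, Finset.mem_Icc]
  rw [abs_le] at ha hw h
  omega

private theorem sbx_XA (N : ℕ) (x : PP) : x ∈ XA N ↔ |x.1.1| ≤ (N : ℤ) ∧ |x.1.2| ≤ (N : ℤ) ∧
    |x.2.1| ≤ (N : ℤ) ∧ |x.2.2| ≤ (N : ℤ) ∧ |x.1.1 - x.2.1| ≤ (N : ℤ) ∧
    |x.1.2 - x.2.2| ≤ (N : ℤ) := by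
  unfold XA
  rw [Finset.mem_filter, Finset.mem_product, Finset.mem_product, Finset.mem_product,
    Finset.mem_Icc, Finset.mem_Icc, Finset.mem_Icc, Finset.mem_Icc]
  simp only [abs_le]
  tauto

/-- **TASK SBX.** -/
theorem sbx_ok : S_SBX := by
  intro v
  obtain ⟨M, hM⟩ : ∃ M : ℕ, (M : ℤ) = |v.1.1| + |v.1.2| + |v.2.1| + |v.2.2| :=
    ⟨(|v.1.1| + |v.1.2| + |v.2.1| + |v.2.2|).toNat, Int.toNat_of_nonneg (by positivity)⟩
  refine ⟨6 * (2 * (M + 1)) * 8, fun N => ?_⟩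
  have h11 : |v.1.1| ≤ (M : ℤ) := by
    rw [hM]
    have := abs_nonneg v.1.2
    have := abs_nonneg v.2.1
    have := abs_nonneg v.2.2
    omega
  have h12 : |v.1.2| ≤ (M : ℤ) := by
    rw [hM]
    have := abs_nonneg v.1.1
    have := abs_nonneg v.2.1
    have := abs_nonneg v.2.2
    omega
  have h21 : |v.2.1| ≤ (M : ℤ) := by
    rw [hM]
    have := abs_nonneg v.1.1
    have := abs_nonneg v.1.2
    have := abs_nonneg v.2.2
    omega
  have h22 : |v.2.2| ≤ (M : ℤ) := by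
    rw [hM]
    have := abs_nonneg v.1.1
    have := abs_nonneg v.1.2
    have := abs_nonneg v.2.1
    omega
  have h1 : |v.1.1 - v.2.1| ≤ (M : ℤ) := by
    refine (abs_sub _ _).trans ?_
    rw [hM]
    have := abs_nonneg v.1.2
    have := abs_nonneg v.2.2
    omega
  have h2 : |v.1.2 - v.2.2| ≤ (M : ℤ) := by
    refine (abs_sub _ _).trans ?_
    rw [hM]
    have := abs_nonneg v.1.1
    have := abs_nonneg v.2.1
    omega
  obtain ⟨I, hI⟩ : ∃ I : Finset ℤ, I = Finset.Icc (-(N : ℤ)) N := ⟨_, rfl⟩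
  have hIm : ∀ a : ℤ, |a| ≤ (N : ℤ) → a ∈ I := by
    intro a ha
    rw [hI, Finset.mem_Icc]
    exact abs_le.1 ha
  obtain ⟨T, hT⟩ : ∃ T : Finset (ℤ × ℤ × ℤ × ℤ), T = sbx_S N M ×ˢ (I ×ˢ (I ×ˢ I)) := ⟨_, rfl⟩
  have hTm : ∀ t a b c : ℤ, t ∈ sbx_S N M → |a| ≤ (N : ℤ) → |b| ≤ (N : ℤ) → |c| ≤ (N : ℤ) →
      (t, a, b, c) ∈ T := by
    intro t a b c ht ha hb hc
    rw [hT, Finset.mem_product, Finset.mem_product, Finset.mem_product]
    exact ⟨ht, hIm a ha, hIm b hb, hIm c hc⟩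
  have hTc : T.card ≤ 2 * (M + 1) * (8 * (N + 1) ^ 3) := by
    rw [hT, Finset.card_product, Finset.card_product, Finset.card_product, hI, Int.card_Icc]
    have h3 : ((N : ℤ) + 1 - -(N : ℤ)).toNat = 2 * N + 1 := by omega
    rw [h3]
    refine Nat.mul_le_mul (sbx_S_card N M) ?_
    have h4 : 2 * N + 1 ≤ 2 * (N + 1) := by omega
    calc (2 * N + 1) * ((2 * N + 1) * (2 * N + 1))
        ≤ (2 * (N + 1)) * ((2 * (N + 1)) * (2 * (N + 1))) :=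
          Nat.mul_le_mul h4 (Nat.mul_le_mul h4 h4)
      _ = 8 * (N + 1) ^ 3 := by ring
  let f1 : ℤ × ℤ × ℤ × ℤ → PP := fun y => ((y.1, y.2.1), (y.2.2.1, y.2.2.2))
  let f2 : ℤ × ℤ × ℤ × ℤ → PP := fun y => ((y.2.1, y.1), (y.2.2.1, y.2.2.2))
  let f3 : ℤ × ℤ × ℤ × ℤ → PP := fun y => ((y.2.1, y.2.2.1), (y.1, y.2.2.2))
  let f4 : ℤ × ℤ × ℤ × ℤ → PP := fun y => ((y.2.1, y.2.2.1), (y.2.2.2, y.1))
  let f5 : ℤ × ℤ × ℤ × ℤ → PP := fun y => ((y.2.1, y.2.2.1), (y.2.1 - y.1, y.2.2.2))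
  let f6 : ℤ × ℤ × ℤ × ℤ → PP := fun y => ((y.2.1, y.2.2.1), (y.2.2.2, y.2.2.1 - y.1))
  have hsub : (XA N).filter (fun x => x + v ∉ XA N) ⊆
      T.image f1 ∪ (T.image f2 ∪ (T.image f3 ∪ (T.image f4 ∪ (T.image f5 ∪ T.image f6)))) := by
    intro x hx
    rw [Finset.mem_filter] at hx
    obtain ⟨hx, hxv⟩ := hx
    rw [sbx_XA] at hx
    obtain ⟨a1, a2, a3, a4, a5, a6⟩ := hx
    rw [sbx_XA, Prod.fst_add, Prod.snd_add, Prod.fst_add, Prod.snd_add, Prod.fst_add,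
      Prod.snd_add, add_sub_add_comm, add_sub_add_comm] at hxv
    obtain ⟨⟨p1, p2⟩, ⟨q1, q2⟩⟩ := x
    rw [Finset.mem_union, Finset.mem_union, Finset.mem_union, Finset.mem_union,
      Finset.mem_union, Finset.mem_image, Finset.mem_image, Finset.mem_image, Finset.mem_image,
      Finset.mem_image, Finset.mem_image]
    by_cases b1 : |p1 + v.1.1| ≤ (N : ℤ)
    · by_cases b2 : |p2 + v.1.2| ≤ (N : ℤ)
      · by_cases b3 : |q1 + v.2.1| ≤ (N : ℤ)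
        · by_cases b4 : |q2 + v.2.2| ≤ (N : ℤ)
          · by_cases b5 : |p1 - q1 + (v.1.1 - v.2.1)| ≤ (N : ℤ)
            · have b6 : ¬ |p2 - q2 + (v.1.2 - v.2.2)| ≤ (N : ℤ) := fun b6 =>
                hxv ⟨b1, b2, b3, b4, b5, b6⟩
              refine Or.inr (Or.inr (Or.inr (Or.inr (Or.inr
                ⟨(p2 - q2, p1, p2, q1), hTm _ _ _ _ (sbx_mem N M _ _ a6 h2 b6) a1 a2 a3, ?_⟩))))
              change ((p1, p2), (q1, p2 - (p2 - q2))) = ((p1, p2), (q1, q2))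
              rw [sub_sub_cancel]
            · refine Or.inr (Or.inr (Or.inr (Or.inr (Or.inl
                ⟨(p1 - q1, p1, p2, q2), hTm _ _ _ _ (sbx_mem N M _ _ a5 h1 b5) a1 a2 a4, ?_⟩))))
              change ((p1, p2), (p1 - (p1 - q1), q2)) = ((p1, p2), (q1, q2))
              rw [sub_sub_cancel]
          · exact Or.inr (Or.inr (Or.inr (Or.inl
              ⟨(q2, p1, p2, q1), hTm _ _ _ _ (sbx_mem N M _ _ a4 h22 b4) a1 a2 a3, rfl⟩)))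
        · exact Or.inr (Or.inr (Or.inl
            ⟨(q1, p1, p2, q2), hTm _ _ _ _ (sbx_mem N M _ _ a3 h21 b3) a1 a2 a4, rfl⟩))
      · exact Or.inr (Or.inl
          ⟨(p2, p1, q1, q2), hTm _ _ _ _ (sbx_mem N M _ _ a2 h12 b2) a1 a3 a4, rfl⟩)
    · exact Or.inl
        ⟨(p1, p2, q1, q2), hTm _ _ _ _ (sbx_mem N M _ _ a1 h11 b1) a2 a3 a4, rfl⟩
  have hu : ∀ (s t : Finset PP) (k l : ℕ), s.card ≤ k → t.card ≤ l → (s ∪ t).card ≤ k + l :=
    fun s t k l hs ht => (Finset.card_union_le s t).trans (Nat.add_le_add hs ht)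
  have hi : ∀ f : ℤ × ℤ × ℤ × ℤ → PP, (T.image f).card ≤ T.card := fun f =>
    Finset.card_image_le
  have hfin := (Finset.card_le_card hsub).trans (hu _ _ _ _ (hi f1) (hu _ _ _ _ (hi f2)
    (hu _ _ _ _ (hi f3) (hu _ _ _ _ (hi f4) (hu _ _ _ _ (hi f5) (hi f6))))))
  calc ((XA N).filter (fun x => x + v ∉ XA N)).card
      ≤ T.card + (T.card + (T.card + (T.card + (T.card + T.card)))) := hfin
    _ = 6 * T.card := by ring
    _ ≤ 6 * (2 * (M + 1) * (8 * (N + 1) ^ 3)) := Nat.mul_le_mul_left _ hTc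
    _ = 6 * (2 * (M + 1)) * 8 * (N + 1) ^ 3 := by ring

end Pool.Agent.H711.DT
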