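import Pool.Agent.H711.DT.Stm

/-!
# Similar lattice sections have the same number of triangle classes
-/

set_option autoImplicit false

namespace Pool.Agent.H711.DT

open scoped ENNReal
open Filter

private theorem sim_collinear (S : Pl ≃ₗ[ℝ] Pl) (t : Set Pl) (h : Collinear ℝ t) :
    Collinear ℝ (S '' t) := by
  rw [collinear_iff_exists_forall_eq_smul_vadd] at h ⊢
  obtain ⟨p₀, v, h⟩ := h
  refine ⟨S p₀, S v, ?_⟩
  rintro _ ⟨p, hp, rfl⟩
  obtain ⟨r, hr⟩ := h p hp
  refine ⟨r, ?_⟩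
  rw [hr, vadd_eq_add, vadd_eq_add, map_add, map_smul]

private theorem sim_collinear_iff (S : Pl ≃ₗ[ℝ] Pl) (t : Set Pl) :
    Collinear ℝ (S '' t) ↔ Collinear ℝ t := by
  constructor
  · intro h
    have h1 := sim_collinear S.symm _ h
    have h2 : S.symm '' (S '' t) = t := by
      rw [← Set.image_comp]
      have h3 : (S.symm ∘ S : Pl → Pl) = id := by
        funext z
        exact S.symm_apply_apply z
      rw [h3, Set.image_id]
    rwa [h2] at h1
  · exact sim_collinear S t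

private theorem sim_tri (S : Pl ≃ₗ[ℝ] Pl) (P : Set Pl) :
    tri (S '' P) = (fun t => S '' t) '' tri P := by
  ext t
  constructor
  · rintro ⟨h1, h2, h3⟩
    obtain ⟨s, hs⟩ : ∃ s : Set Pl, s = S ⁻¹' t := ⟨_, rfl⟩
    have hst : S '' s = t := by
      rw [hs]
      exact Set.image_preimage_eq t S.surjective
    refine ⟨s, ⟨?_, ?_, ?_⟩, hst⟩
    · intro z hz
      rw [hs] at hz
      obtain ⟨w, hw, hwz⟩ := h1 hz
      rw [← S.injective hwz]
      exact hw
    · rw [← h2, ← hst, Set.ncard_image_of_injective s S.injective]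
    · intro hc
      apply h3
      rw [← hst]
      exact sim_collinear S s hc
  · rintro ⟨s, ⟨h1, h2, h3⟩, rfl⟩
    refine ⟨Set.image_mono h1, ?_, ?_⟩
    · change (S '' s).ncard = 3
      rw [Set.ncard_image_of_injective s S.injective, h2]
    · change ¬ Collinear ℝ (S '' s)
      rw [sim_collinear_iff]
      exact h3

/-- conjugation of an isometry by a similarity -/
private noncomputable def simConj (S : Pl ≃ₗ[ℝ] Pl) (c : ℝ) (hc : c ≠ 0)
    (hS : ∀ z w, dist (S z) (S w) = c * dist z w) (φ : Pl ≃ᵢ Pl) : Pl ≃ᵢ Pl where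
  toEquiv := (S.toEquiv.trans φ.toEquiv).trans S.toEquiv.symm
  isometry_toFun := by
    refine Isometry.of_dist_eq (fun z w => ?_)
    change dist (S.symm (φ (S z))) (S.symm (φ (S w))) = dist z w
    have h1 := hS (S.symm (φ (S z))) (S.symm (φ (S w)))
    rw [S.apply_symm_apply, S.apply_symm_apply, φ.dist_eq, hS] at h1
    exact (mul_left_cancel₀ hc h1).symm

private theorem simConj_apply (S : Pl ≃ₗ[ℝ] Pl) (c : ℝ) (hc : c ≠ 0)
    (hS : ∀ z w, dist (S z) (S w) = c * dist z w) (φ : Pl ≃ᵢ Pl) (z : Pl) :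
    S (simConj S c hc hS φ z) = φ (S z) := S.apply_symm_apply _

/-- the other conjugation -/
private noncomputable def simConj' (S : Pl ≃ₗ[ℝ] Pl) (c : ℝ)
    (hS : ∀ z w, dist (S z) (S w) = c * dist z w) (φ : Pl ≃ᵢ Pl) : Pl ≃ᵢ Pl where
  toEquiv := (S.toEquiv.symm.trans φ.toEquiv).trans S.toEquiv
  isometry_toFun := by
    refine Isometry.of_dist_eq (fun z w => ?_)
    change dist (S (φ (S.symm z))) (S (φ (S.symm w))) = dist z w
    rw [hS, φ.dist_eq, ← hS, S.apply_symm_apply, S.apply_symm_apply]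

private theorem sim_cls (S : Pl ≃ₗ[ℝ] Pl) (c : ℝ) (hc : c ≠ 0)
    (hS : ∀ z w, dist (S z) (S w) = c * dist z w) (t : Set Pl) :
    cls (S '' t) = (fun s => S '' s) '' cls t := by
  ext t'
  constructor
  · rintro ⟨φ, rfl⟩
    refine ⟨simConj S c hc hS φ '' t, ⟨_, rfl⟩, ?_⟩
    change S '' (simConj S c hc hS φ '' t) = φ '' (S '' t)
    rw [← Set.image_comp, ← Set.image_comp]
    refine Set.image_congr (fun z _ => ?_)
    exact simConj_apply S c hc hS φ z
  · rintro ⟨s, ⟨φ, rfl⟩, rfl⟩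
    refine ⟨simConj' S c hS φ, ?_⟩
    change S '' (φ '' t) = simConj' S c hS φ '' (S '' t)
    rw [← Set.image_comp, ← Set.image_comp]
    refine Set.image_congr (fun z _ => ?_)
    change S (φ z) = S (φ (S.symm (S z)))
    rw [S.symm_apply_apply]

private theorem sim_T (S : Pl ≃ₗ[ℝ] Pl) (c : ℝ) (hc : c ≠ 0)
    (hS : ∀ z w, dist (S z) (S w) = c * dist z w) (P : Set Pl) : T (S '' P) = T P := by
  unfold T
  rw [sim_tri]
  have h1 : cls '' ((fun t => S '' t) '' tri P) =
      (fun A : Set (Set Pl) => (fun s : Set Pl => S '' s) '' A) '' (cls '' tri P) := by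
    rw [← Set.image_comp, ← Set.image_comp]
    refine Set.image_congr (fun t _ => ?_)
    exact sim_cls S c hc hS t
  rw [h1]
  exact Set.ncard_image_of_injective _
    (Set.image_injective.2 (Set.image_injective.2 S.injective))

private theorem sim_e1 : e1 = EuclideanSpace.single (0 : Fin 2) (1 : ℝ) := by
  unfold e1
  ext i
  fin_cases i <;> simp

private theorem sim_e2 : e2 = EuclideanSpace.single (1 : Fin 2) (1 : ℝ) := by
  unfold e2
  ext i
  fin_cases i <;> simp

theorem sim_ok : S_SIM := by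
  intro a b ha hab hin n
  obtain ⟨c, hc⟩ : ∃ c : ℝ, c = ‖a‖ := ⟨_, rfl⟩
  have hc0 : 0 < c := by rw [hc]; exact norm_pos_iff.2 ha
  have hcb : ‖b‖ = c := by rw [hc, hab]
  have horth : Orthonormal ℝ ![c⁻¹ • a, c⁻¹ • b] := by
    rw [orthonormal_iff_ite]
    have haa : inner ℝ a a = c * c := by
      rw [real_inner_self_eq_norm_mul_norm, ← hc]
    have hbb : inner ℝ b b = c * c := by
      rw [real_inner_self_eq_norm_mul_norm, hcb]
    have hba : inner ℝ b a = (0 : ℝ) := by
      rw [real_inner_comm]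
      exact hin
    intro i j
    fin_cases i <;> fin_cases j <;>
      simp only [Fin.zero_eta, Fin.mk_one, Matrix.cons_val_zero, Matrix.cons_val_one,
        real_inner_smul_left, real_inner_smul_right, haa, hbb, hin, hba, Fin.isValue,
        mul_zero, if_true, zero_ne_one, one_ne_zero, if_false]
    · field_simp
    · field_simp
  have hspan : ⊤ ≤ Submodule.span ℝ (Set.range ![c⁻¹ • a, c⁻¹ • b]) := by
    have h1 := horth.linearIndependent.span_eq_top_of_card_eq_finrank (by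
      rw [Fintype.card_fin, finrank_euclideanSpace, Fintype.card_fin])
    rw [h1]
  obtain ⟨B, hB⟩ : ∃ B : OrthonormalBasis (Fin 2) ℝ Pl, ∀ i, B i = ![c⁻¹ • a, c⁻¹ • b] i :=
    ⟨OrthonormalBasis.mk horth hspan, fun i => by rw [OrthonormalBasis.coe_mk]⟩
  obtain ⟨S, hS⟩ : ∃ S : Pl ≃ₗ[ℝ] Pl, ∀ z, S z = c • B.repr.symm z :=
    ⟨B.repr.symm.toLinearEquiv.trans (LinearEquiv.smulOfNeZero ℝ Pl c hc0.ne'), fun _ => rfl⟩
  have hdist : ∀ z w, dist (S z) (S w) = c * dist z w := by
    intro z w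
    rw [hS, hS, dist_smul₀, Real.norm_of_nonneg hc0.le, LinearIsometryEquiv.dist_map]
  have hSe1 : S e1 = a := by
    rw [hS, sim_e1, OrthonormalBasis.repr_symm_single, hB]
    change c • (c⁻¹ • a) = a
    rw [smul_smul, mul_inv_cancel₀ hc0.ne', one_smul]
  have hSe2 : S e2 = b := by
    rw [hS, sim_e2, OrthonormalBasis.repr_symm_single, hB]
    change c • (c⁻¹ • b) = b
    rw [smul_smul, mul_inv_cancel₀ hc0.ne', one_smul]
  have hLat : Lat a b n = S '' Lat e1 e2 n := by
    ext x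
    constructor
    · rintro ⟨u, v, h1, h2, h3, h4, rfl⟩
      refine ⟨(u : ℝ) • e1 + (v : ℝ) • e2, ⟨u, v, h1, h2, h3, h4, rfl⟩, ?_⟩
      rw [map_add, map_smul, map_smul, hSe1, hSe2]
    · rintro ⟨_, ⟨u, v, h1, h2, h3, h4, rfl⟩, rfl⟩
      refine ⟨u, v, h1, h2, h3, h4, ?_⟩
      rw [map_add, map_smul, map_smul, hSe1, hSe2]
  rw [hLat]
  exact sim_T S c hc0.ne' hdist _

end Pool.Agent.H711.DT
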