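import Pool.Agent.H711.DT.Stm

/-!
# Project DT: normal forms of the triangles of the square grid
-/

set_option autoImplicit false

namespace Pool.Agent.H711.DT

open Filter

/-- isometries do not change the class -/
theorem ub1_cls (φ : Pl ≃ᵢ Pl) (t : Set Pl) : cls (φ '' t) = cls t := by
  ext s
  constructor
  · rintro ⟨ψ, rfl⟩
    exact ⟨φ.trans ψ, by rw [← Set.image_comp]; rfl⟩
  · rintro ⟨ψ, rfl⟩
    refine ⟨φ.symm.trans ψ, ?_⟩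
    rw [← Set.image_comp]
    congr 1
    funext x
    show ψ x = ψ (φ.symm (φ x))
    rw [φ.symm_apply_apply]

/-- the point with given integer coordinates -/
noncomputable def ub1_z (P : V) : Pl := (P.1 : ℝ) • e1 + (P.2 : ℝ) • e2

theorem ub1_z0 (P : V) : ub1_z P 0 = P.1 := by
  simp [ub1_z, e1, e2]

theorem ub1_z1 (P : V) : ub1_z P 1 = P.2 := by
  simp [ub1_z, e1, e2]

/-- the class of a triple of integer points -/
noncomputable def ub1_C (P Q R : V) : Set (Set Pl) := cls {ub1_z P, ub1_z Q, ub1_z R}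

theorem ub1_C_iso (φ : Pl ≃ᵢ Pl) (f : V → V) (h : ∀ P, φ (ub1_z P) = ub1_z (f P)) (P Q R : V) :
    ub1_C (f P) (f Q) (f R) = ub1_C P Q R := by
  unfold ub1_C
  rw [← ub1_cls φ {ub1_z P, ub1_z Q, ub1_z R}]
  congr 1
  rw [Set.image_insert_eq, Set.image_insert_eq, Set.image_singleton, h, h, h]

/-- an isometry from an isometric involution -/
noncomputable def ub1_mk (f : Pl → Pl) (h : ∀ x, f (f x) = x) (hf : Isometry f) : Pl ≃ᵢ Pl :=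
  IsometryEquiv.mk' f f h hf

theorem ub1_r1 (P Q R : V) :
    ub1_C (-P.1, P.2) (-Q.1, Q.2) (-R.1, R.2) = ub1_C P Q R := by
  refine ub1_C_iso (ub1_mk (fun x => !₂[-x 0, x 1]) ?_ ?_) (fun P => (-P.1, P.2)) ?_ P Q R
  · intro x
    ext i
    fin_cases i <;> simp
  · refine Isometry.of_dist_eq fun x y => ?_
    rw [EuclideanSpace.dist_eq, EuclideanSpace.dist_eq, Fin.sum_univ_two, Fin.sum_univ_two]
    simp
  · intro P
    show (!₂[-ub1_z P 0, ub1_z P 1] : Pl) = ub1_z (-P.1, P.2)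
    ext i
    fin_cases i
    · show -ub1_z P 0 = ub1_z (-P.1, P.2) 0
      rw [ub1_z0, ub1_z0]
      push_cast
      rfl
    · show ub1_z P 1 = ub1_z (-P.1, P.2) 1
      rw [ub1_z1, ub1_z1]

theorem ub1_r2 (P Q R : V) :
    ub1_C (P.1, -P.2) (Q.1, -Q.2) (R.1, -R.2) = ub1_C P Q R := by
  refine ub1_C_iso (ub1_mk (fun x => !₂[x 0, -x 1]) ?_ ?_) (fun P => (P.1, -P.2)) ?_ P Q R
  · intro x
    ext i
    fin_cases i <;> simp
  · refine Isometry.of_dist_eq fun x y => ?_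
    rw [EuclideanSpace.dist_eq, EuclideanSpace.dist_eq, Fin.sum_univ_two, Fin.sum_univ_two]
    simp
  · intro P
    show (!₂[ub1_z P 0, -ub1_z P 1] : Pl) = ub1_z (P.1, -P.2)
    ext i
    fin_cases i
    · show ub1_z P 0 = ub1_z (P.1, -P.2) 0
      rw [ub1_z0, ub1_z0]
    · show -ub1_z P 1 = ub1_z (P.1, -P.2) 1
      rw [ub1_z1, ub1_z1]
      push_cast
      rfl

theorem ub1_sw (P Q R : V) :
    ub1_C (P.2, P.1) (Q.2, Q.1) (R.2, R.1) = ub1_C P Q R := by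
  refine ub1_C_iso (ub1_mk (fun x => !₂[x 1, x 0]) ?_ ?_) (fun P => (P.2, P.1)) ?_ P Q R
  · intro x
    ext i
    fin_cases i <;> simp
  · refine Isometry.of_dist_eq fun x y => ?_
    rw [EuclideanSpace.dist_eq, EuclideanSpace.dist_eq, Fin.sum_univ_two, Fin.sum_univ_two]
    simp [add_comm]
  · intro P
    show (!₂[ub1_z P 1, ub1_z P 0] : Pl) = ub1_z (P.2, P.1)
    ext i
    fin_cases i
    · show ub1_z P 1 = ub1_z (P.2, P.1) 0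
      rw [ub1_z1, ub1_z0]
    · show ub1_z P 0 = ub1_z (P.2, P.1) 1
      rw [ub1_z0, ub1_z1]

theorem ub1_tr (v P Q R : V) : ub1_C (P + v) (Q + v) (R + v) = ub1_C P Q R := by
  refine ub1_C_iso (IsometryEquiv.addRight (ub1_z v)) (fun P => P + v) ?_ P Q R
  intro P
  show ub1_z P + ub1_z v = ub1_z (P + v)
  unfold ub1_z
  rw [Prod.fst_add, Prod.snd_add]
  push_cast
  rw [add_smul, add_smul]
  abel

theorem ub1_p12 (P Q R : V) : ub1_C Q P R = ub1_C P Q R := by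
  unfold ub1_C
  rw [Set.insert_comm]

theorem ub1_p23 (P Q R : V) : ub1_C P R Q = ub1_C P Q R := by
  unfold ub1_C
  rw [Set.pair_comm]

/-- the triple has a normal form -/
def ub1_Q (N : ℕ) (P Q R : V) : Prop := ∃ x ∈ FF N, ub1_C 0 x.1 x.2 = ub1_C P Q R

theorem ub1_l0 {N : ℕ} {P Q R : V} (h1 : P.1 ≤ Q.1) (h2 : Q.1 ≤ R.1)
    (h3 : Q.1 - P.1 ≤ R.1 - Q.1) (h4 : P.2 ≤ Q.2) (h5 : Q.2 - P.2 ≤ R.1 - P.1)
    (h6 : R.2 - P.2 ≤ R.1 - P.1) (h6' : P.2 - R.2 ≤ R.1 - P.1)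
    (h7 : R.2 - Q.2 ≤ R.1 - P.1) (h7' : Q.2 - R.2 ≤ R.1 - P.1)
    (h8 : R.1 - P.1 ≤ N) : ub1_Q N P Q R := by
  refine ⟨(Q - P, R - P), ?_, ?_⟩
  · unfold FF
    rw [Finset.mem_filter, Finset.mem_product, Finset.mem_product, Finset.mem_product,
      Finset.mem_Icc, Finset.mem_Icc, Finset.mem_Icc, Finset.mem_Icc]
    simp only [Prod.fst_sub, Prod.snd_sub]
    rw [abs_le, abs_le]
    refine ⟨⟨⟨⟨?_, ?_⟩, ⟨?_, ?_⟩⟩, ⟨⟨?_, ?_⟩, ⟨?_, ?_⟩⟩⟩, ?_, ?_, ?_, ?_, ⟨?_, ?_⟩, ⟨?_, ?_⟩⟩ <;>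
      omega
  · have h := ub1_tr (-P) P Q R
    rw [add_neg_cancel, ← sub_eq_add_neg, ← sub_eq_add_neg] at h
    exact h

theorem ub1_l1 {N : ℕ} {P Q R : V} (h1 : P.1 ≤ Q.1) (h2 : Q.1 ≤ R.1)
    (h3 : Q.1 - P.1 ≤ R.1 - Q.1) (h5 : Q.2 - P.2 ≤ R.1 - P.1) (h5' : P.2 - Q.2 ≤ R.1 - P.1)
    (h6 : R.2 - P.2 ≤ R.1 - P.1) (h6' : P.2 - R.2 ≤ R.1 - P.1)
    (h7 : R.2 - Q.2 ≤ R.1 - P.1) (h7' : Q.2 - R.2 ≤ R.1 - P.1)
    (h8 : R.1 - P.1 ≤ N) : ub1_Q N P Q R := by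
  rcases le_total P.2 Q.2 with h | h
  · exact ub1_l0 h1 h2 h3 h h5 h6 h6' h7 h7' h8
  · unfold ub1_Q
    rw [← ub1_r2]
    refine ub1_l0 (P := (P.1, -P.2)) (Q := (Q.1, -Q.2)) (R := (R.1, -R.2)) ?_ ?_ ?_ ?_ ?_ ?_ ?_
      ?_ ?_ ?_ <;> dsimp only <;> omega

theorem ub1_l2 {N : ℕ} {P Q R : V} (h1 : P.1 ≤ Q.1) (h2 : Q.1 ≤ R.1)
    (h5 : Q.2 - P.2 ≤ R.1 - P.1) (h5' : P.2 - Q.2 ≤ R.1 - P.1)
    (h6 : R.2 - P.2 ≤ R.1 - P.1) (h6' : P.2 - R.2 ≤ R.1 - P.1)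
    (h7 : R.2 - Q.2 ≤ R.1 - P.1) (h7' : Q.2 - R.2 ≤ R.1 - P.1)
    (h8 : R.1 - P.1 ≤ N) : ub1_Q N P Q R := by
  rcases le_total (Q.1 - P.1) (R.1 - Q.1) with h | h
  · exact ub1_l1 h1 h2 h h5 h5' h6 h6' h7 h7' h8
  · have e : ub1_C P Q R = ub1_C (-R.1, R.2) (-Q.1, Q.2) (-P.1, P.2) := by
      rw [ub1_r1 R Q P, ub1_p12 Q R P, ub1_p23 Q P R, ub1_p12 P Q R]
    unfold ub1_Q
    rw [e]
    refine ub1_l1 (P := (-R.1, R.2)) (Q := (-Q.1, Q.2)) (R := (-P.1, P.2)) ?_ ?_ ?_ ?_ ?_ ?_ ?_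
      ?_ ?_ ?_ <;> dsimp only <;> omega

/-- the width in the first coordinate is at least `w`, the one in the second at most `w` -/
theorem ub1_l3 {N : ℕ} {P Q R : V} (w : ℤ) (hw : w ≤ P.1 - Q.1 ∨ w ≤ Q.1 - P.1 ∨ w ≤ P.1 - R.1 ∨
    w ≤ R.1 - P.1 ∨ w ≤ Q.1 - R.1 ∨ w ≤ R.1 - Q.1)
    (h5 : Q.2 - P.2 ≤ w) (h5' : P.2 - Q.2 ≤ w)
    (h6 : R.2 - P.2 ≤ w) (h6' : P.2 - R.2 ≤ w)
    (h7 : R.2 - Q.2 ≤ w) (h7' : Q.2 - R.2 ≤ w)
    (a1 : 0 ≤ P.1) (a2 : P.1 ≤ N) (b1 : 0 ≤ Q.1) (b2 : Q.1 ≤ N) (c1 : 0 ≤ R.1) (c2 : R.1 ≤ N) :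
    ub1_Q N P Q R := by
  have e1 : ∀ P Q R : V, ub1_Q N Q P R → ub1_Q N P Q R := by
    intro P Q R h
    unfold ub1_Q at h ⊢
    rwa [ub1_p12] at h
  have e2 : ∀ P Q R : V, ub1_Q N P R Q → ub1_Q N P Q R := by
    intro P Q R h
    unfold ub1_Q at h ⊢
    rwa [ub1_p23] at h
  rcases le_total P.1 Q.1 with h | h
  · rcases le_total Q.1 R.1 with h' | h'
    · exact ub1_l2 h h' (by omega) (by omega) (by omega) (by omega) (by omega) (by omega)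
        (by omega)
    · rcases le_total P.1 R.1 with h'' | h''
      · apply e2
        exact ub1_l2 h'' h' (by omega) (by omega) (by omega) (by omega) (by omega) (by omega)
          (by omega)
      · apply e2
        apply e1
        exact ub1_l2 h'' h (by omega) (by omega) (by omega) (by omega) (by omega) (by omega)
          (by omega)
  · rcases le_total P.1 R.1 with h' | h'
    · apply e1
      exact ub1_l2 h h' (by omega) (by omega) (by omega) (by omega) (by omega) (by omega)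
        (by omega)
    · rcases le_total Q.1 R.1 with h'' | h''
      · apply e1
        apply e2
        exact ub1_l2 h'' h' (by omega) (by omega) (by omega) (by omega) (by omega) (by omega)
          (by omega)
      · apply e1
        apply e2
        apply e1
        exact ub1_l2 h'' h (by omega) (by omega) (by omega) (by omega) (by omega) (by omega)
          (by omega)

theorem ub1_l4 {N : ℕ} {P Q R : V}
    (a1 : 0 ≤ P.1) (a2 : P.1 ≤ N) (b1 : 0 ≤ Q.1) (b2 : Q.1 ≤ N) (c1 : 0 ≤ R.1) (c2 : R.1 ≤ N)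
    (a1' : 0 ≤ P.2) (a2' : P.2 ≤ N) (b1' : 0 ≤ Q.2) (b2' : Q.2 ≤ N) (c1' : 0 ≤ R.2)
    (c2' : R.2 ≤ N) : ub1_Q N P Q R := by
  obtain ⟨w, hw, hw1, hw2, hw3, hw4, hw5, hw6⟩ : ∃ w : ℤ, (w = P.1 - Q.1 ∨ w = Q.1 - P.1 ∨
      w = P.1 - R.1 ∨ w = R.1 - P.1 ∨ w = Q.1 - R.1 ∨ w = R.1 - Q.1) ∧
      P.1 - Q.1 ≤ w ∧ Q.1 - P.1 ≤ w ∧ P.1 - R.1 ≤ w ∧ R.1 - P.1 ≤ w ∧ Q.1 - R.1 ≤ w ∧
      R.1 - Q.1 ≤ w := by
    refine ⟨max (max (max (P.1 - Q.1) (Q.1 - P.1)) (max (P.1 - R.1) (R.1 - P.1)))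
      (max (Q.1 - R.1) (R.1 - Q.1)), ?_, ?_, ?_, ?_, ?_, ?_, ?_⟩ <;> omega
  by_cases h : Q.2 - P.2 ≤ w ∧ P.2 - Q.2 ≤ w ∧ R.2 - P.2 ≤ w ∧ P.2 - R.2 ≤ w ∧ R.2 - Q.2 ≤ w ∧
      Q.2 - R.2 ≤ w
  · exact ub1_l3 w (by omega) h.1 h.2.1 h.2.2.1 h.2.2.2.1 h.2.2.2.2.1 h.2.2.2.2.2 a1 a2 b1 b2
      c1 c2
  · unfold ub1_Q
    rw [← ub1_sw]
    refine ub1_l3 (P := (P.2, P.1)) (Q := (Q.2, Q.1)) (R := (R.2, R.1)) w ?_ ?_ ?_ ?_ ?_ ?_
      ?_ ?_ ?_ ?_ ?_ ?_ ?_ <;> dsimp only <;> omega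

theorem ub1_ok : S_UB1 := by
  intro n N hN
  unfold T
  have hsub : cls '' tri (Lat e1 e2 n) ⊆
      (fun x : PP => ub1_C 0 x.1 x.2) '' (FF N : Set PP) := by
    rintro _ ⟨t, ⟨ht, h3, -⟩, rfl⟩
    rw [Set.ncard_eq_three] at h3
    obtain ⟨x, y, z, -, -, -, rfl⟩ := h3
    have key : ∀ x ∈ Lat e1 e2 n, ∃ P : V, x = ub1_z P ∧ 0 ≤ P.1 ∧ P.1 ≤ N ∧ 0 ≤ P.2 ∧
        P.2 ≤ N := by
      rintro x ⟨u, v, hu, hu', hv, hv', rfl⟩
      refine ⟨(u, v), rfl, hu, ?_, hv, ?_⟩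
      · have h1 : (u : ℝ) < ((N + 1 : ℕ) : ℝ) := by
          push_cast
          linarith
        have h2 : u < ((N + 1 : ℕ) : ℤ) := by exact_mod_cast h1
        push_cast at h2
        show u ≤ N
        omega
      · have h1 : (v : ℝ) < ((N + 1 : ℕ) : ℝ) := by
          push_cast
          linarith
        have h2 : v < ((N + 1 : ℕ) : ℤ) := by exact_mod_cast h1
        push_cast at h2
        show v ≤ N
        omega
    obtain ⟨P, rfl, p1, p2, p3, p4⟩ := key x (ht (by simp))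
    obtain ⟨Q, rfl, q1, q2, q3, q4⟩ := key y (ht (by simp))
    obtain ⟨R, rfl, r1, r2, r3, r4⟩ := key z (ht (by simp))
    obtain ⟨w, hw, e⟩ := ub1_l4 p1 p2 q1 q2 r1 r2 p3 p4 q3 q4 r3 r4
    exact ⟨w, hw, e⟩
  calc (cls '' tri (Lat e1 e2 n)).ncard
      ≤ ((fun x : PP => ub1_C 0 x.1 x.2) '' (FF N : Set PP)).ncard :=
        Set.ncard_le_ncard hsub ((FF N).finite_toSet.image _)
    _ ≤ (FF N : Set PP).ncard := Set.ncard_image_le (FF N).finite_toSet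
    _ = (FF N).card := Set.ncard_coe_finset (FF N)

end Pool.Agent.H711.DT
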