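import Pool.Agent.H711.DT.Stm

/-! Task UB2 (helper997 for helper711). -/

set_option autoImplicit false

namespace Pool.Agent.H711.DT

/-- the parameters of the normal forms -/
def ub2_G (N : ℕ) : Finset (Σ _ : ℕ, ℕ × Σ _ : ℕ, ℕ) :=
  (Finset.range (N + 1)).sigma fun t => (Finset.range (t / 2 + 1)) ×ˢ
    ((Finset.range (t + 1)).sigma fun a => Finset.range (2 * t + 1 - a))

theorem ub2_card_le (N : ℕ) : (FF N).card ≤ (ub2_G N).card := by
  classical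
  refine Finset.card_le_card_of_injOn (fun x : PP => (⟨x.2.1.toNat, x.1.1.toNat, ⟨x.1.2.toNat,
    (x.2.2 - (x.1.2 - x.2.1)).toNat⟩⟩ : Σ _ : ℕ, ℕ × Σ _ : ℕ, ℕ)) ?_ ?_
  · intro x hx
    rw [Finset.mem_coe, FF, Finset.mem_filter, Finset.mem_product, Finset.mem_product,
      Finset.mem_product, Finset.mem_Icc, Finset.mem_Icc, Finset.mem_Icc, Finset.mem_Icc] at hx
    obtain ⟨⟨⟨h1, h2⟩, h3, h4⟩, h5, h6, h7, h8, h9, h10⟩ := hx
    rw [abs_le] at h9 h10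
    rw [Finset.mem_coe, ub2_G, Finset.mem_sigma, Finset.mem_product, Finset.mem_sigma,
      Finset.mem_range, Finset.mem_range, Finset.mem_range, Finset.mem_range]
    refine ⟨?_, ?_, ?_, ?_⟩
    · show x.2.1.toNat < N + 1
      omega
    · show x.1.1.toNat < x.2.1.toNat / 2 + 1
      omega
    · show x.1.2.toNat < x.2.1.toNat + 1
      omega
    · show (x.2.2 - (x.1.2 - x.2.1)).toNat < 2 * x.2.1.toNat + 1 - x.1.2.toNat
      omega
  · intro x hx y hy hxy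
    rw [Finset.mem_coe, FF, Finset.mem_filter] at hx hy
    obtain ⟨-, h5, h6, h7, h8, h9, h10⟩ := hx
    obtain ⟨-, k5, k6, k7, k8, k9, k10⟩ := hy
    rw [abs_le] at h9 h10 k9 k10
    have e1 : x.2.1.toNat = y.2.1.toNat := congrArg (fun s : Σ _ : ℕ, ℕ × Σ _ : ℕ, ℕ => s.1) hxy
    have e2 : x.1.1.toNat = y.1.1.toNat := congrArg (fun s : Σ _ : ℕ, ℕ × Σ _ : ℕ, ℕ => s.2.1) hxy
    have e3 : x.1.2.toNat = y.1.2.toNat :=
      congrArg (fun s : Σ _ : ℕ, ℕ × Σ _ : ℕ, ℕ => s.2.2.1) hxy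
    have e4 : (x.2.2 - (x.1.2 - x.2.1)).toNat = (y.2.2 - (y.1.2 - y.2.1)).toNat :=
      congrArg (fun s : Σ _ : ℕ, ℕ × Σ _ : ℕ, ℕ => s.2.2.2) hxy
    refine Prod.ext (Prod.ext ?_ ?_) (Prod.ext ?_ ?_) <;> omega

theorem ub2_sum (t m : ℕ) (h : m ≤ 2 * t + 2) :
    ((∑ a ∈ Finset.range m, (2 * t + 1 - a) : ℕ) : ℝ) =
      m * (2 * t + 1) - m * ((m : ℝ) - 1) / 2 := by
  induction m with
  | zero => simp
  | succ m ih =>
    rw [Finset.sum_range_succ, Nat.cast_add, ih (by omega), Nat.cast_sub (by omega)]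
    push_cast
    ring

theorem ub2_bound (N : ℕ) : ((∑ t ∈ Finset.range (N + 1), (t / 2 + 1) *
    ∑ a ∈ Finset.range (t + 1), (2 * t + 1 - a) : ℕ) : ℝ) ≤ 3 / 16 * ((N : ℝ) + 3) ^ 4 := by
  have key : ∀ t : ℕ, (((t / 2 + 1) * ∑ a ∈ Finset.range (t + 1), (2 * t + 1 - a) : ℕ) : ℝ) ≤
      ((t : ℝ) + 2) * ((t : ℝ) + 1) * (3 * (t : ℝ) + 2) / 4 := by
    intro t
    rw [Nat.cast_mul, ub2_sum t (t + 1) (by omega)]
    have h1 : ((t / 2 + 1 : ℕ) : ℝ) ≤ (t : ℝ) / 2 + 1 := by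
      have h2 : ((t / 2 : ℕ) : ℝ) ≤ (t : ℝ) / 2 := Nat.cast_div_le
      push_cast
      linarith
    have h3 : (((t + 1 : ℕ) : ℝ) * (2 * t + 1) - ((t + 1 : ℕ) : ℝ) * (((t + 1 : ℕ) : ℝ) - 1) / 2) =
        ((t : ℝ) + 1) * (3 * t + 2) / 2 := by
      push_cast
      ring
    rw [h3]
    have ht : (0 : ℝ) ≤ t := Nat.cast_nonneg t
    calc ((t / 2 + 1 : ℕ) : ℝ) * (((t : ℝ) + 1) * (3 * t + 2) / 2) ≤
          ((t : ℝ) / 2 + 1) * (((t : ℝ) + 1) * (3 * t + 2) / 2) :=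
          mul_le_mul_of_nonneg_right h1 (by positivity)
      _ = ((t : ℝ) + 2) * ((t : ℝ) + 1) * (3 * (t : ℝ) + 2) / 4 := by ring
  induction N with
  | zero =>
    rw [Finset.sum_range_one]
    refine (key 0).trans ?_
    norm_num
  | succ N ih =>
    rw [Finset.sum_range_succ, Nat.cast_add]
    refine (add_le_add ih (key (N + 1))).trans ?_
    have ht : (0 : ℝ) ≤ N := Nat.cast_nonneg N
    push_cast
    nlinarith [pow_nonneg ht 2, pow_nonneg ht 3]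

theorem ub2_ok : S_UB2 := by
  intro N
  have h1 : ((FF N).card : ℝ) ≤ ((ub2_G N).card : ℝ) := by exact_mod_cast ub2_card_le N
  refine h1.trans ?_
  have h2 : (ub2_G N).card = ∑ t ∈ Finset.range (N + 1), (t / 2 + 1) *
      ∑ a ∈ Finset.range (t + 1), (2 * t + 1 - a) := by
    rw [ub2_G, Finset.card_sigma]
    refine Finset.sum_congr rfl fun t _ => ?_
    rw [Finset.card_product, Finset.card_range, Finset.card_sigma]
    congr 1
    exact Finset.sum_congr rfl fun a _ => Finset.card_range _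
  rw [h2]
  exact ub2_bound N

end Pool.Agent.H711.DT
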