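import Pool.Agent.H711.DT.Stm

/-!
# Project DT, task UNIT (helper213): the solutions of `r² + B r s + A C s² = 1`
-/

namespace Pool.Agent.H711.DT

private lemma unit_sq {x : ℤ} (h : x ^ 2 = 1) : x = 1 ∨ x = -1 := by
  have h1 : (x - 1) * (x + 1) = 0 := by linear_combination h
  rcases mul_eq_zero.1 h1 with h2 | h2
  · left; omega
  · right; omega

private lemma unit_key {A B C r s : ℤ} (h : nm A B C r s = 1) :
    (2 * r + B * s) ^ 2 + (4 * A * C - B ^ 2) * s ^ 2 = 4 := by
  unfold nm at h
  linear_combination 4 * h

private lemma unit_s0 {A B C r : ℤ} (h : nm A B C r 0 = 1) : r = 1 ∨ r = -1 := by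
  apply unit_sq
  unfold nm at h
  linear_combination h

private lemma unit_small {D r s B : ℤ} (hD : 1 < D) (h : (2 * r + B * s) ^ 2 + D * s ^ 2 = 4) :
    s = 0 ∨ s = 1 ∨ s = -1 := by
  have h1 : s ^ 2 < 4 := by nlinarith [sq_nonneg (2 * r + B * s), sq_nonneg s]
  have h2 : s < 2 := by nlinarith
  have h3 : -2 < s := by nlinarith
  omega

theorem unit_ok : S_UNIT := by
  intro A B C hP
  obtain ⟨-, hD, -⟩ := hP
  by_cases h1 : 4 < 4 * A * C - B ^ 2
  · refine ⟨{(1, 0), (-1, 0)}, ?_, ?_⟩
    · rw [if_pos h1]
      exact Finset.card_le_two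
    · intro r s hrs
      have hk := unit_key hrs
      have hs : s = 0 := by
        by_contra hs
        have h2 : 1 ≤ s ^ 2 := by
          have : 0 < s ^ 2 := by positivity
          omega
        nlinarith [sq_nonneg (2 * r + B * s)]
      subst hs
      rcases unit_s0 hrs with rfl | rfl <;> simp
  by_cases h2 : 4 * A * C - B ^ 2 = 4
  · obtain ⟨b, hb⟩ : ∃ b : ℤ, B = 2 * b := by
      have h3 : Even (B ^ 2) := ⟨2 * A * C - 2, by linear_combination -h2⟩
      obtain ⟨b, hb⟩ := (Int.even_pow' two_ne_zero).1 h3
      exact ⟨b, by omega⟩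
    refine ⟨{(1, 0), (-1, 0), (-b, 1), (b, -1)}, ?_, ?_⟩
    · rw [if_neg h1, if_pos h2]
      exact Finset.card_le_four
    · intro r s hrs
      have hk := unit_key hrs
      rw [h2] at hk
      rcases unit_small (by norm_num) hk with rfl | rfl | rfl
      · rcases unit_s0 hrs with rfl | rfl <;> simp
      · have h3 : (2 * r + B * 1) ^ 2 = 0 := by linear_combination hk
        have h4 : 2 * r + B * 1 = 0 := pow_eq_zero_iff two_ne_zero |>.1 h3
        have h5 : r = -b := by omega
        subst h5
        simp
      · have h3 : (2 * r + B * (-1)) ^ 2 = 0 := by linear_combination hk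
        have h4 : 2 * r + B * (-1) = 0 := pow_eq_zero_iff two_ne_zero |>.1 h3
        have h5 : r = b := by omega
        subst h5
        simp
  · -- the discriminant is `-3`
    have hodd : ∃ b : ℤ, B = 2 * b + 1 := by
      rcases Int.even_or_odd' B with ⟨b, hb | hb⟩
      · exfalso
        have h3 : 4 * A * C - B ^ 2 = 4 * (A * C - b ^ 2) := by rw [hb]; ring
        have h4 : 4 * (A * C - b ^ 2) ≤ 4 := by omega
        have h5 : 0 < 4 * (A * C - b ^ 2) := by omega
        have h6 : A * C - b ^ 2 = 1 := by omega
        exact h2 (by rw [h3, h6]; norm_num)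
      · exact ⟨b, hb⟩
    obtain ⟨b, hb⟩ := hodd
    have h3 : 4 * A * C - B ^ 2 = 3 := by
      have h4 : 4 * A * C - B ^ 2 = 4 * (A * C - b ^ 2 - b) - 1 := by rw [hb]; ring
      have h5 : 0 < 4 * A * C - B ^ 2 := by linarith
      omega
    refine ⟨{(1, 0), (-1, 0), (-b, 1), (-b - 1, 1), (b + 1, -1), (b, -1)}, ?_, ?_⟩
    · rw [if_neg h1, if_neg h2]
      exact Finset.card_le_six
    · intro r s hrs
      have hk := unit_key hrs
      rw [h3] at hk
      rcases unit_small (by norm_num) hk with rfl | rfl | rfl
      · rcases unit_s0 hrs with rfl | rfl <;> simp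
      · have h4 : (2 * r + B * 1) ^ 2 = 1 := by linear_combination hk
        rcases unit_sq h4 with h5 | h5
        · have h6 : r = -b := by omega
          subst h6
          simp
        · have h6 : r = -b - 1 := by omega
          subst h6
          simp
      · have h4 : (2 * r + B * (-1)) ^ 2 = 1 := by linear_combination hk
        rcases unit_sq h4 with h5 | h5
        · have h6 : r = b + 1 := by omega
          subst h6
          simp
        · have h6 : r = b := by omega
          subst h6
          simp

end Pool.Agent.H711.DT
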