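import Pool.Agent.H711.DT.Core
import Pool.Agent.H711.DT.CNT2
import Pool.Agent.H711.DT.DEP
import Pool.Agent.H711.DT.NUM
import Pool.Agent.H711.DT.UNIT
import Pool.Agent.H711.DT.EQ
import Pool.Agent.H711.DT.CXA
import Pool.Agent.H711.DT.CNTP
import Pool.Agent.H711.DT.GRC
import Pool.Agent.H711.DT.RED
import Pool.Agent.H711.DT.SBI
import Pool.Agent.H711.DT.IRR
import Pool.Agent.H711.DT.ROT
import Pool.Agent.H711.DT.COMB
import Pool.Agent.H711.DT.FIB
import Pool.Agent.H711.DT.INT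
import Pool.Agent.H711.DT.GEO
import Pool.Agent.H711.DT.CNT12
import Pool.Agent.H711.DT.SBX
import Pool.Agent.H711.DT.BIG
import Pool.Agent.H711.DT.SIM
import Pool.Agent.H711.DT.LIM
import Pool.Agent.H711.DT.UB1
import Pool.Agent.H711.DT.UB2
import Pool.Agent.H711.DT.EXC

/-! The cases of project DT. -/

namespace Pool.Agent.H711.DT

open Filter

/-- The lower bound that we want. -/
def LB (a b : Pl) : Prop :=
  ∀ᶠ N : ℕ in atTop, ∀ n : ℕ, (N : ℝ) < √(n : ℝ) →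
    (1893 / 10000 : ℝ) * (N : ℝ) ^ 4 ≤ (T (Lat a b n) : ℝ)

lemma nine_le (N : ℕ) : 9 * N ^ 4 ≤ (XA N).card := by
  rw [cxa_ok N]; nlinarith [Nat.zero_le N, Nat.zero_le (N ^ 2), Nat.zero_le (N ^ 3)]

lemma one_unit (A B C : ℤ) : nm A B C 1 0 = 1 := by unfold nm; ring

lemma mul2_one (A B C : ℤ) (x : PP) : mul2 A B C 1 0 x = x := by
  unfold mul2 mul; ext <;> simp

lemma xa_unit (A B C : ℤ) : ∀ N, ∀ y ∈ XA N, ∃ x ∈ XA N, ∃ r s : ℤ,
    nm A B C r s = 1 ∧ y = mul2 A B C r s x :=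
  fun _ y hy => ⟨y, hy, 1, 0, one_unit A B C, (mul2_one A B C y).symm⟩

lemma unit_two (A B C : ℤ) (hP : Prim A B C) (h : 4 < 4 * A * C - B ^ 2) :
    ∃ F : Finset (ℤ × ℤ), F.card ≤ 2 ∧ ∀ r s : ℤ, nm A B C r s = 1 → (r, s) ∈ F := by
  obtain ⟨F, h1, h2⟩ := unit_ok A B C hP
  rw [if_pos h] at h1
  exact ⟨F, h1, h2⟩

lemma unit_four (A B C : ℤ) (hP : Prim A B C) (h : 4 * A * C - B ^ 2 = 4) :
    ∃ F : Finset (ℤ × ℤ), F.card ≤ 4 ∧ ∀ r s : ℤ, nm A B C r s = 1 → (r, s) ∈ F := by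
  obtain ⟨F, h1, h2⟩ := unit_ok A B C hP
  rw [if_neg (by omega), if_pos h] at h1
  exact ⟨F, h1, h2⟩

lemma unit_six (A B C : ℤ) (hP : Prim A B C) (h : 4 * A * C - B ^ 2 = 3) :
    ∃ F : Finset (ℤ × ℤ), F.card ≤ 6 ∧ ∀ r s : ℤ, nm A B C r s = 1 → (r, s) ∈ F := by
  obtain ⟨F, h1, h2⟩ := unit_ok A B C hP
  rw [if_neg (by omega), if_neg (by omega)] at h1
  exact ⟨F, h1, h2⟩

theorem comb' : S_COMB := comb_ok eq_ok cntp_ok big_ok

/-- `core` with `K = XA`. -/
lemma core_xa (a b : Pl) (hli : LinearIndependent ℝ ![a, b]) (c : ℝ) (A B C : ℤ) (hc : 0 < c)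
    (hP : Prim A B C) (hα : inner ℝ a a = c * A) (hβ : 2 * inner ℝ a b = c * B)
    (hγ : inner ℝ b b = c * C) (hΔ : 4 < 4 * A * C - B ^ 2)
    (m0 : ℕ) (R0 : Finset (Res m0)) (E0 : Finset ℕ) (ρ : ℝ) (hm0 : 0 < m0)
    (hcov : ∀ x, ¬ Good A B C x → rd m0 x ∈ R0 ∨ ∃ l : ℕ, l.Prime ∧ l ∉ E0 ∧ Bad A B C l x)
    (hE : E0 ⊆ P200) (hρ : (R0.card : ℝ) / (m0 : ℝ) ^ 4 ≤ ρ)
    (hρ2 : ρ + (903 / 1000 - ∑ l ∈ E0, 2 / (l : ℝ) ^ 2 + 1 / 200) ≤ 49514 / 100000) :
    LB a b := by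
  refine core geo_ok fib_ok rot_ok grc_ok comb' dep_ok a b hli c A B C hc hP hα hβ hγ XA sbx_ok 1
    (fun N x hx => inBox_XA hx) (xa_unit A B C) 9 nine_le 2 (by norm_num) (unit_two A B C hP hΔ)
    m0 R0 E0 (ρ + (903 / 1000 - ∑ l ∈ E0, 2 / (l : ℝ) ^ 2 + 1 / 200)) hm0 hcov ?_ (by linarith)
    (1893 / 10000) ?_
  · intro F hF
    have := sumE num_ok E0 hE F hF
    linarith
  · push_cast
    linarith

lemma case_gen (a b : Pl) (hli : LinearIndependent ℝ ![a, b]) (c : ℝ) (A B C : ℤ) (hc : 0 < c)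
    (hP : Prim A B C) (hα : inner ℝ a a = c * A) (hβ : 2 * inner ℝ a b = c * B)
    (hγ : inner ℝ b b = c * C) (hΔ : 4 < 4 * A * C - B ^ 2) (h7 : 4 * A * C - B ^ 2 ≠ 7)
    (h12 : 4 * A * C - B ^ 2 ≠ 12) (h15 : 4 * A * C - B ^ 2 ≠ 15) (h16 : 4 * A * C - B ^ 2 ≠ 16) :
    LB a b := by
  obtain ⟨R, hR, hR'⟩ := cnt12_ok A B C hP
  refine core_xa a b hli c A B C hc hP hα hβ hγ hΔ 12 R {2, 3} (6400 / 20736) (by norm_num) ?_
    (by decide) ?_ ?_
  · intro x hx
    rcases (red_ok A B C hP x hx).2 hΔ h7 h12 h15 h16 with ⟨l, hl, hl2, hb⟩ | hb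
    · by_cases h3 : l = 3
      · subst h3
        exact Or.inl (hR' x (Or.inr hb))
      · refine Or.inr ⟨l, hl, ?_, hb⟩
        simp [hl2, h3]
    · exact Or.inl (hR' x (Or.inl hb))
  · have : (R.card : ℝ) ≤ 6400 := by exact_mod_cast hR
    norm_num
    linarith
  · norm_num

lemma case7 (a b : Pl) (hli : LinearIndependent ℝ ![a, b]) (c : ℝ) (A B C : ℤ) (hc : 0 < c)
    (hP : Prim A B C) (hα : inner ℝ a a = c * A) (hβ : 2 * inner ℝ a b = c * B)
    (hγ : inner ℝ b b = c * C) (h7 : 4 * A * C - B ^ 2 = 7) : LB a b := by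
  obtain ⟨R, hR, hR'⟩ := cntp_ok A B C hP 2 Nat.prime_two
  refine core_xa a b hli c A B C hc hP hα hβ hγ (by omega) 2 R {2, 3, 5, 7, 13, 17, 19} (7 / 16)
    (by norm_num) ?_ (by decide) ?_ ?_
  · intro x hx
    obtain ⟨l, hl, hb⟩ := (red_ok A B C hP x hx).1
    by_cases h2 : l = 2
    · subst h2; exact Or.inl (hR' x hb)
    · refine Or.inr ⟨l, hl, ?_, hb⟩
      intro hmem
      simp only [Finset.mem_insert, Finset.mem_singleton] at hmem
      rcases hmem with rfl | rfl | rfl | rfl | rfl | rfl | rfl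
      · exact h2 rfl
      · exact not_bad A B C 3 x 7 h7 3 (by norm_num) (by decide) hb
      · exact not_bad A B C 5 x 7 h7 5 (by norm_num) (by decide) hb
      · exact not_bad A B C 7 x 7 h7 49 (by norm_num) (by decide) hb
      · exact not_bad A B C 13 x 7 h7 13 (by norm_num) (by decide) hb
      · exact not_bad A B C 17 x 7 h7 17 (by norm_num) (by decide) hb
      · exact not_bad A B C 19 x 7 h7 19 (by norm_num) (by decide) hb
  · have : (R.card : ℝ) + 1 ≤ 8 := by exact_mod_cast hR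
    norm_num
    linarith
  · norm_num

lemma case15 (a b : Pl) (hli : LinearIndependent ℝ ![a, b]) (c : ℝ) (A B C : ℤ) (hc : 0 < c)
    (hP : Prim A B C) (hα : inner ℝ a a = c * A) (hβ : 2 * inner ℝ a b = c * B)
    (hγ : inner ℝ b b = c * C) (h15 : 4 * A * C - B ^ 2 = 15) : LB a b := by
  obtain ⟨R, hR, hR'⟩ := cntp_ok A B C hP 2 Nat.prime_two
  refine core_xa a b hli c A B C hc hP hα hβ hγ (by omega) 2 R {2, 3, 5, 7, 11, 13} (7 / 16)
    (by norm_num) ?_ (by decide) ?_ ?_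
  · intro x hx
    obtain ⟨l, hl, hb⟩ := (red_ok A B C hP x hx).1
    by_cases h2 : l = 2
    · subst h2; exact Or.inl (hR' x hb)
    · refine Or.inr ⟨l, hl, ?_, hb⟩
      intro hmem
      simp only [Finset.mem_insert, Finset.mem_singleton] at hmem
      rcases hmem with rfl | rfl | rfl | rfl | rfl | rfl
      · exact h2 rfl
      · exact not_bad A B C 3 x 15 h15 9 (by norm_num) (by decide) hb
      · exact not_bad A B C 5 x 15 h15 25 (by norm_num) (by decide) hb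
      · exact not_bad A B C 7 x 15 h15 7 (by norm_num) (by decide) hb
      · exact not_bad A B C 11 x 15 h15 11 (by norm_num) (by decide) hb
      · exact not_bad A B C 13 x 15 h15 13 (by norm_num) (by decide) hb
  · have : (R.card : ℝ) + 1 ≤ 8 := by exact_mod_cast hR
    norm_num
    linarith
  · norm_num

lemma case12 (a b : Pl) (hli : LinearIndependent ℝ ![a, b]) (c : ℝ) (A B C : ℤ) (hc : 0 < c)
    (hP : Prim A B C) (hα : inner ℝ a a = c * A) (hβ : 2 * inner ℝ a b = c * B)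
    (hγ : inner ℝ b b = c * C) (h12 : 4 * A * C - B ^ 2 = 12) : LB a b := by
  have hB : 2 ∣ B := by
    have h1 : (B ^ 2) % 4 = 0 := by
      have : B ^ 2 = 4 * (A * C - 3) := by linarith
      omega
    rcases Int.even_or_odd B with h | h
    · exact h.two_dvd
    · obtain ⟨k, hk⟩ := h
      rw [hk] at h1
      ring_nf at h1
      omega
  obtain ⟨R, hR, hR'⟩ := cnt2_ok A B C hP hB
  refine core_xa a b hli c A B C hc hP hα hβ hγ (by omega) 2 R {2, 3, 5} (4 / 16)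
    (by norm_num) ?_ (by decide) ?_ ?_
  · intro x hx
    obtain ⟨l, hl, hb⟩ := (red_ok A B C hP x hx).1
    by_cases h2 : l = 2
    · subst h2; exact Or.inl (hR' x hb)
    · refine Or.inr ⟨l, hl, ?_, hb⟩
      intro hmem
      simp only [Finset.mem_insert, Finset.mem_singleton] at hmem
      rcases hmem with rfl | rfl | rfl
      · exact h2 rfl
      · exact not_bad A B C 3 x 12 h12 9 (by norm_num) (by decide) hb
      · exact not_bad A B C 5 x 12 h12 5 (by norm_num) (by decide) hb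
  · have : (R.card : ℝ) ≤ 4 := by exact_mod_cast hR
    norm_num
    linarith
  · norm_num

lemma case16 (a b : Pl) (hli : LinearIndependent ℝ ![a, b]) (c : ℝ) (A B C : ℤ) (hc : 0 < c)
    (hP : Prim A B C) (hα : inner ℝ a a = c * A) (hβ : 2 * inner ℝ a b = c * B)
    (hγ : inner ℝ b b = c * C) (h16 : 4 * A * C - B ^ 2 = 16) : LB a b := by
  have hB : 2 ∣ B := by
    have h1 : (B ^ 2) % 4 = 0 := by
      have : B ^ 2 = 4 * (A * C - 4) := by linarith
      omega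
    rcases Int.even_or_odd B with h | h
    · exact h.two_dvd
    · obtain ⟨k, hk⟩ := h
      rw [hk] at h1
      ring_nf at h1
      omega
  obtain ⟨R, hR, hR'⟩ := cnt2_ok A B C hP hB
  refine core_xa a b hli c A B C hc hP hα hβ hγ (by omega) 2 R {2, 3, 7} (4 / 16)
    (by norm_num) ?_ (by decide) ?_ ?_
  · intro x hx
    obtain ⟨l, hl, hb⟩ := (red_ok A B C hP x hx).1
    by_cases h2 : l = 2
    · subst h2; exact Or.inl (hR' x hb)
    · refine Or.inr ⟨l, hl, ?_, hb⟩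
      intro hmem
      simp only [Finset.mem_insert, Finset.mem_singleton] at hmem
      rcases hmem with rfl | rfl | rfl
      · exact h2 rfl
      · exact not_bad A B C 3 x 16 h16 3 (by norm_num) (by decide) hb
      · exact not_bad A B C 7 x 16 h16 7 (by norm_num) (by decide) hb
  · have : (R.card : ℝ) ≤ 4 := by exact_mod_cast hR
    norm_num
    linarith
  · norm_num

end Pool.Agent.H711.DT
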