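import Pool.Agent.H711.DT.Asm

/-! The main counting argument of project DT, from the statements of the tasks. -/

namespace Pool.Agent.H711.DT

open Filter

/-- `c' (N + 1)³ ≤ ε N⁴` for large `N`. -/
lemma cube_le (c' : ℕ) (ε : ℝ) (hε : 0 < ε) :
    ∀ᶠ N : ℕ in atTop, (c' : ℝ) * ((N : ℝ) + 1) ^ 3 ≤ ε * (N : ℝ) ^ 4 := by
  have h1 : ∀ᶠ N : ℕ in atTop, (8 * c' : ℝ) / ε ≤ (N : ℝ) :=
    tendsto_natCast_atTop_atTop.eventually_ge_atTop _
  filter_upwards [h1, eventually_ge_atTop 1] with N hN hN1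
  have hN1' : (1 : ℝ) ≤ N := by exact_mod_cast hN1
  rw [div_le_iff₀ hε] at hN
  have h2 : ((N : ℝ) + 1) ^ 3 ≤ (2 * N) ^ 3 := by
    apply pow_le_pow_left₀ (by positivity); linarith
  have h3 : (c' : ℝ) * ((N : ℝ) + 1) ^ 3 ≤ c' * (2 * N) ^ 3 :=
    mul_le_mul_of_nonneg_left h2 (by positivity)
  have h4 : (0 : ℝ) ≤ (N : ℝ) ^ 3 := by positivity
  nlinarith [mul_le_mul_of_nonneg_right hN h4]

lemma inBox_XA {N : ℕ} {x : PP} (h : x ∈ XA N) : InBox (1 * N) x := by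
  rw [one_mul]; exact (mem_XA.1 h).1

/-- The rational case. -/
lemma core (hGEO : S_GEO) (hFIB : S_FIB) (hROT : S_ROT) (hGRC : S_GRC) (hCOMB : S_COMB)
    (hDEP : S_DEP) (a b : Pl) (hli : LinearIndependent ℝ ![a, b]) (c : ℝ) (A B C : ℤ) (hc : 0 < c)
    (hP : Prim A B C) (hα : inner ℝ a a = c * A) (hβ : 2 * inner ℝ a b = c * B)
    (hγ : inner ℝ b b = c * C) (K : ℕ → Finset PP) (hSB : SB K) (cK : ℕ)
    (hbox : ∀ N, ∀ x ∈ K N, InBox (cK * N) x)
    (hK : ∀ N, ∀ y ∈ K N, ∃ x ∈ XA N, ∃ r s : ℤ, nm A B C r s = 1 ∧ y = mul2 A B C r s x)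
    (k0 : ℕ) (hcard : ∀ N, k0 * N ^ 4 ≤ (K N).card) (m : ℕ) (hm : 0 < m)
    (hunit : ∃ F : Finset (ℤ × ℤ), F.card ≤ m ∧ ∀ r s : ℤ, nm A B C r s = 1 → (r, s) ∈ F)
    (m0 : ℕ) (R0 : Finset (Res m0)) (E0 : Finset ℕ) (β : ℝ) (hm0 : 0 < m0)
    (hcov : ∀ x, ¬ Good A B C x → rd m0 x ∈ R0 ∨ ∃ l : ℕ, l.Prime ∧ l ∉ E0 ∧ Bad A B C l x)
    (hβ' : ∀ F : Finset ℕ, (∀ l ∈ F, l.Prime ∧ l ∉ E0) →
      (R0.card : ℝ) / (m0 : ℝ) ^ 4 + ∑ l ∈ F, 2 / (l : ℝ) ^ 2 ≤ β) (hβ1 : β ≤ 1)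
    (κ : ℝ) (hκ : κ * (12 * m) < (1 - β) * k0) :
    ∀ᶠ N : ℕ in atTop, ∀ n : ℕ, (N : ℝ) < √(n : ℝ) → κ * (N : ℝ) ^ 4 ≤ (T (Lat a b n) : ℝ) := by
  classical
  set δ : ℝ := (1 - β) * k0 - κ * (12 * m) with hδ
  have hδ0 : 0 < δ := by rw [hδ]; linarith
  have hA : (0 : ℝ) < A := by exact_mod_cast hP.1
  have hdisc : (c * (B : ℝ)) ^ 2 < 4 * (c * A) * (c * C) := by
    have h1 : ((B : ℝ)) ^ 2 < 4 * A * C := by exact_mod_cast hP.2.1
    have h2 : 0 < c ^ 2 := by positivity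
    nlinarith
  have e1 := hCOMB A B C hP K hSB cK hbox m0 R0 E0 β hm0 hcov hβ' (δ / 3) (by positivity)
  obtain ⟨c', hc'⟩ := hDEP cK
  have e2 := cube_le c' (δ / 3) (by positivity)
  filter_upwards [e1, e2] with N h1 h2
  intro n hn
  set Y : Finset PP := (K N).filter (fun x => dt x ≠ 0 ∧ Good A B C x) with hY
  -- the size of `Y`
  have hsplit : (K N).card ≤ Y.card + ((K N).filter (fun x => dt x = 0)).card +
      ((K N).filter (fun x => dt x ≠ 0 ∧ ¬ Good A B C x)).card := by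
    have hsub : K N ⊆ (Y ∪ (K N).filter (fun x => dt x = 0)) ∪
        (K N).filter (fun x => dt x ≠ 0 ∧ ¬ Good A B C x) := by
      intro x hx
      simp only [hY, Finset.mem_union, Finset.mem_filter]
      tauto
    exact (Finset.card_le_card hsub).trans ((Finset.card_union_le _ _).trans
      (Nat.add_le_add_right (Finset.card_union_le _ _) _))
  have hdep : ((K N).filter (fun x => dt x = 0)).card ≤ c' * (N + 1) ^ 3 := by
    apply hc'
    intro x hx
    rw [Finset.mem_filter] at hx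
    exact ⟨hx.2, hbox N x hx.1⟩
  have hKc : (k0 : ℝ) * (N : ℝ) ^ 4 ≤ (K N).card := by exact_mod_cast hcard N
  have hYc : (κ * (12 * m)) * (N : ℝ) ^ 4 ≤ (Y.card : ℝ) := by
    have a1 : ((K N).card : ℝ) ≤ Y.card + ((K N).filter (fun x => dt x = 0)).card +
      ((K N).filter (fun x => dt x ≠ 0 ∧ ¬ Good A B C x)).card := by exact_mod_cast hsplit
    have a2 : (((K N).filter (fun x => dt x = 0)).card : ℝ) ≤ c' * ((N : ℝ) + 1) ^ 3 := by
      exact_mod_cast hdep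
    have a3 : (1 - β) * ((k0 : ℝ) * (N : ℝ) ^ 4) ≤ (1 - β) * (K N).card :=
      mul_le_mul_of_nonneg_left hKc (by linarith)
    have a4 : (0 : ℝ) ≤ δ * (N : ℝ) ^ 4 := by positivity
    have a5 : (κ * (12 * m)) * (N : ℝ) ^ 4 = (1 - β) * ((k0 : ℝ) * (N : ℝ) ^ 4) - δ * (N : ℝ) ^ 4 := by
      rw [hδ]; ring
    rw [a5]
    linarith
  -- the fibres
  have hle : Y.card ≤ (12 * m) * T (Lat a b n) := by
    apply hGEO a b hli n N hn Y (12 * m)
    · intro y hy
      rw [hY, Finset.mem_filter] at hy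
      obtain ⟨x, hx, r, s, hrs, rfl⟩ := hK N y hy.1
      refine ⟨x, hx, ?_, ?_⟩
      · have := hy.2.1
        rw [dt_mul2, hrs, one_mul] at this
        exact this
      · rw [hα, hβ, hγ, sides_mul2 c A B C r s hrs]
    · intro y hy F hF hFs
      rw [hα, hβ, hγ] at hFs
      rw [hY, Finset.mem_filter] at hy
      refine hFIB (c * A) (c * B) (c * C) (by positivity) hdisc
        (fun x => dt x ≠ 0 ∧ Good A B C x) (hGRC A B C) m ?_ y hy.2 F ?_
      · intro x hx G hG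
        obtain ⟨U, hU, hU'⟩ := hunit
        have : G ⊆ U.image (fun u => mul2 A B C u.1 u.2 x) := by
          intro z hz
          obtain ⟨⟨hz1, hz2⟩, hz3, hz4⟩ := hG z hz
          have hEq : EqZ A B C x z := by
            have hcne : c ≠ 0 := hc.ne'
            obtain ⟨q1, q2, q3⟩ := hz3
            simp only [qR_eq] at q1 q2 q3
            refine ⟨?_, ?_, ?_⟩
            · exact_mod_cast mul_left_cancel₀ hcne q1
            · exact_mod_cast mul_left_cancel₀ hcne q2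
            · exact_mod_cast mul_left_cancel₀ hcne q3
          obtain ⟨r, s, hrs, hzz⟩ := hROT A B C hP x z hx.1 hEq hz4 hx.2
          rw [Finset.mem_image]
          exact ⟨(r, s), hU' r s hrs, hzz.symm⟩
        exact (Finset.card_le_card this).trans (Finset.card_image_le.trans hU)
      · intro z hz
        have := hF hz
        rw [hY, Finset.mem_filter] at this
        exact ⟨this.2, hFs z hz⟩
  have hle' : (Y.card : ℝ) ≤ (12 * (m : ℝ)) * (T (Lat a b n) : ℝ) := by exact_mod_cast hle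
  have hmR : (0 : ℝ) < 12 * (m : ℝ) := by positivity
  have : (12 * (m : ℝ)) * (κ * (N : ℝ) ^ 4) ≤ (12 * (m : ℝ)) * (T (Lat a b n) : ℝ) := by
    calc (12 * (m : ℝ)) * (κ * (N : ℝ) ^ 4) = (κ * (12 * (m : ℝ))) * (N : ℝ) ^ 4 := by ring
      _ ≤ (Y.card : ℝ) := hYc
      _ ≤ _ := hle'
  exact le_of_mul_le_mul_left this hmR

/-- The irrational case. -/
lemma irr_case (hGEO : S_GEO) (hFIB : S_FIB) (hIRR : S_IRR) (hDEP : S_DEP) (hCXA : S_CXA)
    (a b : Pl) (hli : LinearIndependent ℝ ![a, b]) (α β γ : ℝ)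
    (hα : inner ℝ a a = α) (hβ : 2 * inner ℝ a b = β) (hγ : inner ℝ b b = γ)
    (hα0 : 0 < α) (hd : β ^ 2 < 4 * α * γ)
    (hirr : ¬ ∃ (c : ℝ) (A B C : ℤ), 0 < c ∧ α = c * A ∧ β = c * B ∧ γ = c * C) :
    ∀ᶠ N : ℕ in atTop, ∀ n : ℕ, (N : ℝ) < √(n : ℝ) →
      (1893 / 10000 : ℝ) * (N : ℝ) ^ 4 ≤ (T (Lat a b n) : ℝ) := by
  classical
  obtain ⟨c', hc'⟩ := hDEP 1
  have e2 := cube_le c' 1 (by norm_num)
  filter_upwards [e2] with N h2
  intro n hn
  set Y : Finset PP := (XA N).filter (fun x => dt x ≠ 0) with hY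
  have hsplit : (XA N).card = Y.card + ((XA N).filter (fun x => ¬ dt x ≠ 0)).card :=
    (Finset.card_filter_add_card_filter_not _).symm
  have hdep : ((XA N).filter (fun x => ¬ dt x ≠ 0)).card ≤ c' * (N + 1) ^ 3 := by
    apply hc'
    intro x hx
    rw [Finset.mem_filter] at hx
    exact ⟨not_not.1 hx.2, inBox_XA hx.1⟩
  have hYc : 8 * (N : ℝ) ^ 4 ≤ (Y.card : ℝ) := by
    have a1 : ((XA N).card : ℝ) = Y.card + ((XA N).filter (fun x => ¬ dt x ≠ 0)).card := by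
      exact_mod_cast hsplit
    have a2 : (((XA N).filter (fun x => ¬ dt x ≠ 0)).card : ℝ) ≤ c' * ((N : ℝ) + 1) ^ 3 := by
      exact_mod_cast hdep
    have a3 : ((XA N).card : ℝ) = (3 * (N : ℝ) ^ 2 + 3 * N + 1) ^ 2 := by
      rw [hCXA N]; push_cast; ring
    have a4 : 9 * (N : ℝ) ^ 4 ≤ (3 * (N : ℝ) ^ 2 + 3 * N + 1) ^ 2 := by
      have : (0 : ℝ) ≤ N := by positivity
      have h3 : (3 * (N : ℝ) ^ 2) ^ 2 ≤ (3 * (N : ℝ) ^ 2 + 3 * N + 1) ^ 2 := by
        apply pow_le_pow_left₀ (by positivity); nlinarith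
      nlinarith
    linarith
  have hle : Y.card ≤ (12 * 2) * T (Lat a b n) := by
    apply hGEO a b hli n N hn Y (12 * 2)
    · intro y hy
      rw [hY, Finset.mem_filter] at hy
      exact ⟨y, hy.1, hy.2, rfl⟩
    · intro y hy F hF hFs
      rw [hα, hβ, hγ] at hFs
      rw [hY, Finset.mem_filter] at hy
      refine hFIB α β γ hα0 hd (fun x => dt x ≠ 0) ?_ 2 ?_ y hy.2 F ?_
      · constructor
        · intro x hx
          have : dt (x.2, x.1) = - dt x := by unfold dt; ring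
          simp only [this, ne_eq, neg_eq_zero]
          exact hx
        · intro x hx
          have : dt (-x.1, x.2 - x.1) = - dt x := by unfold dt; simp; ring
          simp only [this, ne_eq, neg_eq_zero]
          exact hx
      · intro x hx G hG
        have : G ⊆ {x, -x} := by
          intro z hz
          obtain ⟨hz1, hz3, hz4⟩ := hG z hz
          rw [Finset.mem_insert, Finset.mem_singleton]
          exact hIRR α β γ hα0 hd hirr x z hx hz3 hz4
        exact (Finset.card_le_card this).trans Finset.card_le_two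
      · intro z hz
        have := hF hz
        rw [hY, Finset.mem_filter] at this
        exact ⟨this.2, hFs z hz⟩
  have hle' : (Y.card : ℝ) ≤ (12 * 2) * (T (Lat a b n) : ℝ) := by exact_mod_cast hle
  have h0 : (0 : ℝ) ≤ (N : ℝ) ^ 4 := by positivity
  linarith

end Pool.Agent.H711.DT
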