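import Pool.Agent.H711.DT.Cases

/-! The cases of the square lattice and of the triangular lattice, and the theorem. -/

namespace Pool.Agent.H711.DT

open Filter

lemma sb_union (K K' : ℕ → Finset PP) (h : SB K) (h' : SB K') : SB (fun N => K N ∪ K' N) := by
  intro v
  obtain ⟨c, hc⟩ := h v
  obtain ⟨c', hc'⟩ := h' v
  refine ⟨c + c', fun N => ?_⟩
  have hsub : (K N ∪ K' N).filter (fun x => x + v ∉ K N ∪ K' N) ⊆
      (K N).filter (fun x => x + v ∉ K N) ∪ (K' N).filter (fun x => x + v ∉ K' N) := by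
    intro x hx
    simp only [Finset.mem_filter, Finset.mem_union, not_or] at hx ⊢
    tauto
  calc _ ≤ _ := Finset.card_le_card hsub
    _ ≤ _ := Finset.card_union_le _ _
    _ ≤ c * (N + 1) ^ 3 + c' * (N + 1) ^ 3 := Nat.add_le_add (hc N) (hc' N)
    _ = (c + c') * (N + 1) ^ 3 := by ring

lemma sub237 : ({2, 3, 7} : Finset ℕ) ⊆ P200 := by
  intro l hl
  simp only [Finset.mem_insert, Finset.mem_singleton] at hl
  rcases hl with rfl | rfl | rfl <;> decide

lemma sub2311 : ({2, 3, 5, 11} : Finset ℕ) ⊆ P200 := by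
  intro l hl
  simp only [Finset.mem_insert, Finset.mem_singleton] at hl
  rcases hl with rfl | rfl | rfl | rfl <;> decide

lemma inBox_mono {M M' : ℕ} (h : M ≤ M') {x : PP} (hx : InBox M x) : InBox M' x := by
  have h' : (M : ℤ) ≤ M' := by exact_mod_cast h
  obtain ⟨h1, h2, h3, h4⟩ := hx
  exact ⟨h1.trans h', h2.trans h', h3.trans h', h4.trans h'⟩

lemma two_le_of (A B C : ℤ) (hP : Prim A B C) (h : ¬ (A = 1 ∧ C = 1)) : 2 ≤ A ∨ 2 ≤ C := by
  have h1 := hP.1
  have h2 := hP.2.1
  have h3 : 0 < C := by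
    by_contra hh
    push Not at hh
    nlinarith [sq_nonneg B]
  omega

lemma card_img (A B C r s : ℤ) (h : nm A B C r s = 1) (N : ℕ) :
    ((XA N).image (mul2 A B C r s)).card = (XA N).card :=
  Finset.card_image_of_injective _ (mul2_inj A B C r s h)

lemma case4 (a b : Pl) (hli : LinearIndependent ℝ ![a, b]) (c : ℝ) (A B C : ℤ) (hc : 0 < c)
    (hP : Prim A B C) (hα : inner ℝ a a = c * A) (hβ : 2 * inner ℝ a b = c * B)
    (hγ : inner ℝ b b = c * C) (h4 : 4 * A * C - B ^ 2 = 4) (hns : ¬ (A = C ∧ B = 0)) :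
    LB a b := by
  classical
  have hB : 2 ∣ B := by
    have h1 : (B ^ 2) % 4 = 0 := by
      have : B ^ 2 = 4 * (A * C - 1) := by linarith
      omega
    rcases Int.even_or_odd B with h | h
    · exact h.two_dvd
    · obtain ⟨k, hk⟩ := h
      rw [hk] at h1
      ring_nf at h1
      omega
  have h2 : 2 ≤ A ∨ 2 ≤ C := by
    apply two_le_of A B C hP
    rintro ⟨rfl, rfl⟩
    apply hns
    refine ⟨rfl, ?_⟩
    have : B ^ 2 = 0 := by linarith
    exact pow_eq_zero_iff (by norm_num) |>.1 this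
  obtain ⟨k, hk⟩ := hB
  have hnm : nm A B C (-k) 1 = 1 := by
    unfold nm
    rw [hk] at h4 ⊢
    linarith
  obtain ⟨c1, hc1⟩ := box_img A B C (-k) 1
  refine core geo_ok fib_ok rot_ok grc_ok comb' dep_ok a b hli c A B C hc hP hα hβ hγ
    (fun N => XA N ∪ (XA N).image (mul2 A B C (-k) 1))
    (sb_union _ _ sbx_ok (sbi_ok A B C (-k) 1 hnm XA sbx_ok)) (1 + c1) ?_ ?_ 14 ?_ 4 (by norm_num)
    (unit_four A B C hP h4) 1 ∅ {2, 3, 7} (903 / 1000 - ∑ l ∈ ({2, 3, 7} : Finset ℕ), 2 / (l : ℝ) ^ 2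
      + 1 / 200) (by norm_num) ?_ ?_ ?_ (1893 / 10000) ?_
  · intro N x hx
    rcases Finset.mem_union.1 hx with hx | hx
    · exact inBox_mono (Nat.mul_le_mul_right N (by omega)) (inBox_XA hx)
    · exact inBox_mono (Nat.mul_le_mul_right N (by omega)) (hc1 N x hx)
  · intro N y hy
    rcases Finset.mem_union.1 hy with hy | hy
    · exact xa_unit A B C N y hy
    · obtain ⟨x, hx, rfl⟩ := Finset.mem_image.1 hy
      exact ⟨x, hx, -k, 1, hnm, rfl⟩
  · intro N
    have e1 := Finset.card_union_add_card_inter (XA N) ((XA N).image (mul2 A B C (-k) 1))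
    have e2 := int_ok A B C (-k) 1 hP hnm (Or.inl rfl) h2 N
    rw [card_img A B C _ _ hnm N, cxa_ok N] at e1
    nlinarith [Nat.zero_le N, Nat.zero_le (N ^ 2), Nat.zero_le (N ^ 3)]
  · intro x hx
    obtain ⟨l, hl, hb⟩ := (red_ok A B C hP x hx).1
    refine Or.inr ⟨l, hl, ?_, hb⟩
    intro hmem
    simp only [Finset.mem_insert, Finset.mem_singleton] at hmem
    rcases hmem with rfl | rfl | rfl
    · exact not_bad A B C 2 x 4 h4 16 (by norm_num) (by decide) hb
    · exact not_bad A B C 3 x 4 h4 3 (by norm_num) (by decide) hb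
    · exact not_bad A B C 7 x 4 h4 7 (by norm_num) (by decide) hb
  · intro F hF
    have := sumE num_ok {2, 3, 7} sub237 F hF
    simp only [Finset.card_empty, Nat.cast_zero, zero_div, zero_add]
    exact this
  · norm_num
  · norm_num

lemma case3 (hRHO : S_RHO) (a b : Pl) (hli : LinearIndependent ℝ ![a, b]) (c : ℝ) (A B C : ℤ)
    (hc : 0 < c)
    (hP : Prim A B C) (hα : inner ℝ a a = c * A) (hβ : 2 * inner ℝ a b = c * B)
    (hγ : inner ℝ b b = c * C) (h3 : 4 * A * C - B ^ 2 = 3) : LB a b := by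
  classical
  obtain ⟨k, hk⟩ : ∃ k, B = 1 - 2 * k := by
    rcases Int.even_or_odd B with h | h
    · obtain ⟨w, hw⟩ := h
      have : B ^ 2 = 4 * (A * C) - 3 := by linarith
      rw [hw] at this
      ring_nf at this
      omega
    · obtain ⟨w, hw⟩ := h
      exact ⟨-w, by omega⟩
  have hnm : nm A B C k 1 = 1 := by
    unfold nm
    rw [hk] at h3 ⊢
    nlinarith
  have hnm2 : nm A B C (k - 1) 1 = 1 := by
    unfold nm
    rw [hk] at h3 ⊢
    nlinarith
  have hcomp : ∀ x : PP, mul2 A B C (k - 1) 1 x = mul2 A B C k 1 (mul2 A B C k 1 x) := by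
    have hAC : A * C = 1 - k ^ 2 - (1 - 2 * k) * k := by
      have := hnm
      unfold nm at this
      rw [hk] at this
      linarith
    have key : ∀ p : V, mul A B C (k - 1) 1 p = mul A B C k 1 (mul A B C k 1 p) := by
      intro p
      unfold mul
      ext
      · simp only
        rw [hk]
        linear_combination (-p.1) * hAC * (-1)
      · simp only
        rw [hk]
        linear_combination (-p.2) * hAC * (-1)
    intro x
    unfold mul2
    simp only [key]
  obtain ⟨c1, hc1⟩ := box_img A B C k 1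
  obtain ⟨c2, hc2⟩ := box_img A B C (k - 1) 1
  have hcard : ∀ N : ℕ, 15 * N ^ 4 ≤ ((XA N ∪ (XA N).image (mul2 A B C k 1)) ∪
      (XA N).image (mul2 A B C (k - 1) 1)).card := by
    intro N
    by_cases h11 : A = 1 ∧ C = 1
    · obtain ⟨rfl, rfl⟩ := h11
      apply hRHO B k _ N
      have h5 : (B - 1) * (B + 1) = 0 := by linarith
      rcases mul_eq_zero.1 h5 with h | h
      all_goals omega
    · have h2 := two_le_of A B C hP h11
      set X0 := XA N with hX0
      set X1 := (XA N).image (mul2 A B C k 1) with hX1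
      set X2 := (XA N).image (mul2 A B C (k - 1) 1) with hX2
      have i1 := int_ok A B C k 1 hP hnm (Or.inl rfl) h2 N
      have i2 := int_ok A B C (k - 1) 1 hP hnm2 (Or.inl rfl) h2 N
      have c1 : X1.card = (XA N).card := card_img A B C _ _ hnm N
      have c2 : X2.card = (XA N).card := card_img A B C _ _ hnm2 N
      have hX21 : X2 = X1.image (mul2 A B C k 1) := by
        rw [hX2, hX1, Finset.image_image]
        apply Finset.image_congr
        intro x _
        exact hcomp x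
      have i3 : (X1 ∩ X2).card ≤ ((2 * N + 1) * (N + 1)) ^ 2 := by
        have : X1 ∩ X2 = (X0 ∩ X1).image (mul2 A B C k 1) := by
          rw [Finset.image_inter _ _ (mul2_inj A B C k 1 hnm), ← hX21]
        rw [this, Finset.card_image_of_injective _ (mul2_inj A B C k 1 hnm)]
        exact i1
      have e1 := Finset.card_union_add_card_inter X0 X1
      have e2 := Finset.card_union_add_card_inter (X0 ∪ X1) X2
      have e3 : ((X0 ∪ X1) ∩ X2).card ≤ (X0 ∩ X2).card + (X1 ∩ X2).card := by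
        rw [Finset.union_inter_distrib_right]
        exact Finset.card_union_le _ _
      have c0 : X0.card = (3 * N ^ 2 + 3 * N + 1) ^ 2 := cxa_ok N
      rw [cxa_ok N] at c1 c2
      nlinarith [Nat.zero_le N, Nat.zero_le (N ^ 2), Nat.zero_le (N ^ 3)]
  refine core geo_ok fib_ok rot_ok grc_ok comb' dep_ok a b hli c A B C hc hP hα hβ hγ
    (fun N => (XA N ∪ (XA N).image (mul2 A B C k 1)) ∪ (XA N).image (mul2 A B C (k - 1) 1))
    (sb_union _ _ (sb_union _ _ sbx_ok (sbi_ok A B C k 1 hnm XA sbx_ok))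
      (sbi_ok A B C (k - 1) 1 hnm2 XA sbx_ok)) (1 + c1 + c2) ?_ ?_ 15 hcard 6 (by norm_num)
    (unit_six A B C hP h3) 1 ∅ {2, 3, 5, 11} (903 / 1000 -
      ∑ l ∈ ({2, 3, 5, 11} : Finset ℕ), 2 / (l : ℝ) ^ 2
      + 1 / 200) (by norm_num) ?_ ?_ ?_ (1893 / 10000) ?_
  · intro N x hx
    rcases Finset.mem_union.1 hx with hx | hx
    · rcases Finset.mem_union.1 hx with hx | hx
      · exact inBox_mono (Nat.mul_le_mul_right N (by omega)) (inBox_XA hx)
      · exact inBox_mono (Nat.mul_le_mul_right N (by omega)) (hc1 N x hx)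
    · exact inBox_mono (Nat.mul_le_mul_right N (by omega)) (hc2 N x hx)
  · intro N y hy
    rcases Finset.mem_union.1 hy with hy | hy
    · rcases Finset.mem_union.1 hy with hy | hy
      · exact xa_unit A B C N y hy
      · obtain ⟨x, hx, rfl⟩ := Finset.mem_image.1 hy
        exact ⟨x, hx, k, 1, hnm, rfl⟩
    · obtain ⟨x, hx, rfl⟩ := Finset.mem_image.1 hy
      exact ⟨x, hx, k - 1, 1, hnm2, rfl⟩
  · intro x hx
    obtain ⟨l, hl, hb⟩ := (red_ok A B C hP x hx).1
    refine Or.inr ⟨l, hl, ?_, hb⟩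
    intro hmem
    simp only [Finset.mem_insert, Finset.mem_singleton] at hmem
    rcases hmem with rfl | rfl | rfl | rfl
    · exact not_bad A B C 2 x 3 h3 16 (by norm_num) (by decide) hb
    · exact not_bad A B C 3 x 3 h3 9 (by norm_num) (by decide) hb
    · exact not_bad A B C 5 x 3 h3 5 (by norm_num) (by decide) hb
    · exact not_bad A B C 11 x 3 h3 11 (by norm_num) (by decide) hb
  · intro F hF
    have := sumE num_ok {2, 3, 5, 11} sub2311 F hF
    simp only [Finset.card_empty, Nat.cast_zero, zero_div, zero_add]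
    exact this
  · norm_num
  · norm_num

/-- All lattices but the square lattice in its standard basis. -/
theorem lower (hRHO : S_RHO) (a b : Pl) (hli : LinearIndependent ℝ ![a, b])
    (hns : ¬ (‖a‖ = ‖b‖ ∧ inner ℝ a b = (0 : ℝ))) : LB a b := by
  have ha : a ≠ 0 := by
    have := hli.ne_zero 0
    simpa using this
  set α : ℝ := inner ℝ a a with hα
  set β : ℝ := 2 * inner ℝ a b with hβ
  set γ : ℝ := inner ℝ b b with hγ
  have hα0 : 0 < α := by rw [hα]; exact real_inner_self_pos.2 ha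
  have hd : β ^ 2 < 4 * α * γ := by
    have h1 : |inner ℝ a b| < ‖a‖ * ‖b‖ := by
      refine lt_of_le_of_ne (abs_real_inner_le_norm a b) ?_
      intro h
      have hb : b ≠ 0 := by
        have := hli.ne_zero 1
        simpa using this
      have h2 : |inner ℝ a b / (‖a‖ * ‖b‖)| = 1 := by
        rw [abs_div, h, abs_of_pos (mul_pos (norm_pos_iff.2 ha) (norm_pos_iff.2 hb)),
          div_self (mul_pos (norm_pos_iff.2 ha) (norm_pos_iff.2 hb)).ne']
      rw [abs_real_inner_div_norm_mul_norm_eq_one_iff] at h2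
      obtain ⟨-, r, hr, hbr⟩ := h2
      rw [LinearIndependent.pair_iff] at hli
      have := hli r (-1) (by rw [hbr]; simp)
      norm_num at this
    have h2 : (inner ℝ a b) ^ 2 < (‖a‖ * ‖b‖) ^ 2 := by
      rw [← sq_abs (inner ℝ a b)]
      exact pow_lt_pow_left₀ h1 (abs_nonneg _) (by norm_num)
    have h3 : α = ‖a‖ ^ 2 := real_inner_self_eq_norm_sq a
    have h4 : γ = ‖b‖ ^ 2 := real_inner_self_eq_norm_sq b
    rw [h3, h4, hβ]
    nlinarith
  by_cases hrat : ∃ (c : ℝ) (A B C : ℤ), 0 < c ∧ α = c * A ∧ β = c * B ∧ γ = c * C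
  · obtain ⟨c, A, B, C, hc, h1, h2, h3, hP⟩ := exists_prim α β γ hα0 hd hrat
    have hns' : ¬ (A = C ∧ B = 0) := by
      rintro ⟨rfl, rfl⟩
      apply hns
      constructor
      · have : ‖a‖ ^ 2 = ‖b‖ ^ 2 := by
          rw [← real_inner_self_eq_norm_sq, ← real_inner_self_eq_norm_sq, ← hα, ← hγ, h1, h3]
        exact (sq_eq_sq₀ (norm_nonneg _) (norm_nonneg _)).1 this
      · have : β = 0 := by rw [h2]; simp
        rw [hβ] at this
        linarith
    have hpos : 0 < 4 * A * C - B ^ 2 := by linarith [hP.2.1]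
    by_cases h4 : 4 * A * C - B ^ 2 = 4
    · exact case4 a b hli c A B C hc hP h1 h2 h3 h4 hns'
    by_cases h3' : 4 * A * C - B ^ 2 < 4
    · have h33 : 4 * A * C - B ^ 2 = 3 := by
        have hm : (B ^ 2) % 4 = 0 ∨ (B ^ 2) % 4 = 1 := by
          rcases Int.even_or_odd B with ⟨w, hw⟩ | ⟨w, hw⟩
          · left; rw [hw]; ring_nf; omega
          · right; rw [hw]; ring_nf; omega
        have : 4 * A * C = 4 * (A * C) := by ring
        omega
      exact case3 hRHO a b hli c A B C hc hP h1 h2 h3 h33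
    by_cases h7 : 4 * A * C - B ^ 2 = 7
    · exact case7 a b hli c A B C hc hP h1 h2 h3 h7
    by_cases h12 : 4 * A * C - B ^ 2 = 12
    · exact case12 a b hli c A B C hc hP h1 h2 h3 h12
    by_cases h15 : 4 * A * C - B ^ 2 = 15
    · exact case15 a b hli c A B C hc hP h1 h2 h3 h15
    by_cases h16 : 4 * A * C - B ^ 2 = 16
    · exact case16 a b hli c A B C hc hP h1 h2 h3 h16
    exact case_gen a b hli c A B C hc hP h1 h2 h3 (by omega) h7 h12 h15 h16
  · exact irr_case geo_ok fib_ok irr_ok dep_ok cxa_ok a b hli α β γ rfl rfl rfl hα0 hd hrat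

theorem c0_le : c0 ≤ ENNReal.ofReal (3 / 16) := by
  apply lim_ok.2
  intro n N h
  have h1 : (T (Lat e1 e2 n) : ℝ) ≤ (FF N).card := by exact_mod_cast ub1_ok n N h
  exact h1.trans (ub2_ok N)

theorem lower_lim (hRHO : S_RHO) (a b : Pl) (hli : LinearIndependent ℝ ![a, b])
    (hns : ¬ (‖a‖ = ‖b‖ ∧ inner ℝ a b = (0 : ℝ))) :
    ENNReal.ofReal (189 / 1000) ≤ liminf (fun n : ℕ => ratio a b n) atTop :=
  lim_ok.1 a b (1893 / 10000) (189 / 1000) (by norm_num) (by norm_num) (lower hRHO a b hli hns)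

theorem main_of (hRHO : S_RHO) :
    (∀ a b : Pl, LinearIndependent ℝ ![a, b] →
      c0 ≤ liminf (fun n : ℕ => ratio a b n) atTop) ∧
    c0 ≤ ENNReal.ofReal (3 / 16) ∧
    (∀ a b : Pl, LinearIndependent ℝ ![a, b] → ¬ (‖a‖ = ‖b‖ ∧ inner ℝ a b = (0 : ℝ)) →
      ENNReal.ofReal (189 / 1000) ≤ liminf (fun n : ℕ => ratio a b n) atTop) := by
  refine ⟨?_, c0_le, fun a b hli hns => lower_lim hRHO a b hli hns⟩
  intro a b hli
  by_cases h : ‖a‖ = ‖b‖ ∧ inner ℝ a b = (0 : ℝ)
  · have ha : a ≠ 0 := by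
      have := hli.ne_zero 0
      simpa using this
    have : (fun n : ℕ => ratio a b n) = fun n : ℕ => ratio e1 e2 n := by
      funext n
      unfold ratio
      rw [sim_ok a b ha h.1 h.2 n]
    rw [this]
    exact le_rfl
  · refine c0_le.trans (le_trans ?_ (lower_lim hRHO a b hli h))
    exact ENNReal.ofReal_le_ofReal (by norm_num)

end Pool.Agent.H711.DT
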