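import Pool.Agent.H711.DT.Stm

/-!
# Task DT-INT (helper721, for project DT of helper711)
-/

set_option autoImplicit false

namespace Pool.Agent.H711.DT

private theorem int_card (S : Finset ℤ) (N : ℕ) (h : ∀ a ∈ S, ∀ b ∈ S, b - a ≤ (N : ℤ)) :
    S.card ≤ N + 1 := by
  rcases S.eq_empty_or_nonempty with rfl | hne
  · simp
  · have h1 : S ⊆ Finset.Icc (S.min' hne) (S.min' hne + N) := by
      intro b hb
      rw [Finset.mem_Icc]
      have h2 := h _ (S.min'_mem hne) b hb
      exact ⟨S.min'_le b hb, by linarith⟩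
    have h2 := Finset.card_le_card h1
    rw [Int.card_Icc] at h2
    omega

private theorem int_key (D : Finset V) (N : ℕ) (hbox : ∀ v ∈ D, -(N : ℤ) ≤ v.1 ∧ v.1 ≤ N)
    (hd : ∀ v ∈ D, ∀ w ∈ D, v.1 = w.1 → w.2 - v.2 ≤ (N : ℤ)) :
    D.card ≤ (2 * N + 1) * (N + 1) := by
  classical
  have h1 : D.card ≤ (N + 1) * (D.image Prod.fst).card := by
    refine Finset.card_le_mul_card_image D (N + 1) fun a _ => ?_
    have h2 : ((D.filter (fun x => x.1 = a)).image Prod.snd).card =
        (D.filter (fun x => x.1 = a)).card := by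
      refine Finset.card_image_of_injOn ?_
      intro v hv w hw hvw
      have h3 := (Finset.mem_filter.1 (Finset.mem_coe.1 hv)).2
      have h4 := (Finset.mem_filter.1 (Finset.mem_coe.1 hw)).2
      exact Prod.ext (h3.trans h4.symm) hvw
    rw [← h2]
    refine int_card _ N ?_
    intro x hx y hy
    obtain ⟨v, hv, rfl⟩ := Finset.mem_image.1 hx
    obtain ⟨w, hw, rfl⟩ := Finset.mem_image.1 hy
    rw [Finset.mem_filter] at hv hw
    exact hd v hv.1 w hw.1 (hv.2.trans hw.2.symm)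
  have h3 : D.image Prod.fst ⊆ Finset.Icc (-(N : ℤ)) N := by
    intro a ha
    obtain ⟨v, hv, rfl⟩ := Finset.mem_image.1 ha
    exact Finset.mem_Icc.2 (hbox v hv)
  have h4 := Finset.card_le_card h3
  rw [Int.card_Icc] at h4
  have h5 : (D.image Prod.fst).card ≤ 2 * N + 1 := by omega
  calc D.card ≤ (N + 1) * (D.image Prod.fst).card := h1
    _ ≤ (N + 1) * (2 * N + 1) := Nat.mul_le_mul_left _ h5
    _ = (2 * N + 1) * (N + 1) := Nat.mul_comm _ _

private theorem int_mem {N : ℕ} {x : PP} (h : x ∈ XA N) :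
    ((-(N : ℤ) ≤ x.1.1 ∧ x.1.1 ≤ N) ∧ (-(N : ℤ) ≤ x.1.2 ∧ x.1.2 ≤ N)) ∧
      ((-(N : ℤ) ≤ x.2.1 ∧ x.2.1 ≤ N) ∧ (-(N : ℤ) ≤ x.2.2 ∧ x.2.2 ≤ N)) := by
  unfold XA at h
  rw [Finset.mem_filter, Finset.mem_product, Finset.mem_product, Finset.mem_product,
    Finset.mem_Icc, Finset.mem_Icc, Finset.mem_Icc, Finset.mem_Icc] at h
  exact h.1

/-- in the box and the image of a vector of the box -/
private def IntP (A B C r s : ℤ) (N : ℕ) (v : V) : Prop :=
  ((-(N : ℤ) ≤ v.1 ∧ v.1 ≤ N) ∧ (-(N : ℤ) ≤ v.2 ∧ v.2 ≤ N)) ∧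
    ∃ u : V, ((-(N : ℤ) ≤ u.1 ∧ u.1 ≤ N) ∧ (-(N : ℤ) ≤ u.2 ∧ u.2 ≤ N)) ∧
      v = mul A B C r s u

private theorem int_inv {A B C r s : ℤ} {N : ℕ} {v : V} (hn : nm A B C r s = 1)
    (h : IntP A B C r s N v) :
    (-(N : ℤ) ≤ (r + s * B) * v.1 + s * C * v.2 ∧ (r + s * B) * v.1 + s * C * v.2 ≤ N) ∧
      (-(N : ℤ) ≤ -(s * A) * v.1 + r * v.2 ∧ -(s * A) * v.1 + r * v.2 ≤ N) := by
  obtain ⟨-, u, ⟨hu1, hu2⟩, rfl⟩ := h
  unfold nm at hn
  have h1 : (r + s * B) * (mul A B C r s u).1 + s * C * (mul A B C r s u).2 = u.1 := by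
    simp only [mul]
    linear_combination u.1 * hn
  have h2 : -(s * A) * (mul A B C r s u).1 + r * (mul A B C r s u).2 = u.2 := by
    simp only [mul]
    linear_combination u.2 * hn
  rw [h1, h2]
  exact ⟨hu1, hu2⟩

private theorem int_diff {K s t x y : ℤ} {N : ℕ} (hK : 2 ≤ K) (hs : s = 1 ∨ s = -1)
    (hx : -(N : ℤ) ≤ t + s * K * x ∧ t + s * K * x ≤ N)
    (hy : -(N : ℤ) ≤ t + s * K * y ∧ t + s * K * y ≤ N) : y - x ≤ (N : ℤ) := by
  by_contra hc
  have hc' : (N : ℤ) + 1 ≤ y - x := by omega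
  have h1 : 2 * ((N : ℤ) + 1) ≤ K * (y - x) := by
    have hN : (0 : ℤ) ≤ (N : ℤ) := Int.natCast_nonneg N
    nlinarith
  rcases hs with rfl | rfl
  · nlinarith [hx.1, hx.2, hy.1, hy.2]
  · nlinarith [hx.1, hx.2, hy.1, hy.2]

theorem int_ok : S_INT := by
  classical
  intro A B C r s _ hn hs hAC N
  let D : Finset V := ((XA N ∩ (XA N).image (mul2 A B C r s)).image Prod.fst) ∪
    ((XA N ∩ (XA N).image (mul2 A B C r s)).image Prod.snd)
  have hD : ∀ v ∈ D, IntP A B C r s N v := by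
    intro v hv
    rcases Finset.mem_union.1 hv with h | h
    · obtain ⟨y, hy, rfl⟩ := Finset.mem_image.1 h
      obtain ⟨hy1, hy2⟩ := Finset.mem_inter.1 hy
      obtain ⟨x, hx, rfl⟩ := Finset.mem_image.1 hy2
      exact ⟨(int_mem hy1).1, x.1, (int_mem hx).1, rfl⟩
    · obtain ⟨y, hy, rfl⟩ := Finset.mem_image.1 h
      obtain ⟨hy1, hy2⟩ := Finset.mem_inter.1 hy
      obtain ⟨x, hx, rfl⟩ := Finset.mem_image.1 hy2
      exact ⟨(int_mem hy1).2, x.2, (int_mem hx).2, rfl⟩
  have hcard : D.card ≤ (2 * N + 1) * (N + 1) := by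
    rcases hAC with hA | hC
    · -- `A ≥ 2`: for each second coordinate
      have h1 : (D.image Prod.swap).card = D.card :=
        Finset.card_image_of_injective _ Prod.swap_injective
      rw [← h1]
      refine int_key _ N ?_ ?_
      · intro v hv
        obtain ⟨w, hw, rfl⟩ := Finset.mem_image.1 hv
        exact (hD w hw).1.2
      · intro v hv w hw hvw
        obtain ⟨v', hv', rfl⟩ := Finset.mem_image.1 hv
        obtain ⟨w', hw', rfl⟩ := Finset.mem_image.1 hw
        simp only [Prod.fst_swap, Prod.snd_swap] at hvw ⊢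
        have h2 := (int_inv hn (hD v' hv')).2
        have h3 := (int_inv hn (hD w' hw')).2
        rw [← hvw] at h3
        have hs' : -s = 1 ∨ -s = -1 := by
          rcases hs with rfl | rfl
          · exact Or.inr rfl
          · exact Or.inl rfl
        refine int_diff (K := A) (s := -s) (t := r * v'.2) hA hs' ?_ ?_
        · constructor
          · linarith [h2.1]
          · linarith [h2.2]
        · constructor
          · linarith [h3.1]
          · linarith [h3.2]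
    · refine int_key _ N (fun v hv => (hD v hv).1.1) ?_
      intro v hv w hw hvw
      have h2 := (int_inv hn (hD v hv)).1
      have h3 := (int_inv hn (hD w hw)).1
      rw [← hvw] at h3
      exact int_diff (K := C) (s := s) (t := (r + s * B) * v.1) hC hs h2 h3
  have hsub : XA N ∩ (XA N).image (mul2 A B C r s) ⊆ D ×ˢ D := by
    intro y hy
    rw [Finset.mem_product]
    exact ⟨Finset.mem_union_left _ (Finset.mem_image_of_mem _ hy),
      Finset.mem_union_right _ (Finset.mem_image_of_mem _ hy)⟩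
  calc (XA N ∩ (XA N).image (mul2 A B C r s)).card ≤ (D ×ˢ D).card :=
        Finset.card_le_card hsub
    _ = D.card * D.card := Finset.card_product D D
    _ ≤ ((2 * N + 1) * (N + 1)) * ((2 * N + 1) * (N + 1)) := Nat.mul_le_mul hcard hcard
    _ = ((2 * N + 1) * (N + 1)) ^ 2 := (sq _).symm

end Pool.Agent.H711.DT
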