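import Pool.Agent.H711.DT.Stm

/-!
# Task RHO: the union of three rotated boxes (helper249, for helper711)
-/

set_option autoImplicit false

namespace Pool.Agent.H711.DT

open Finset

/-- the box of the vectors -/
noncomputable def rho_box (N : ℕ) : Finset V := Icc (-(N : ℤ)) N ×ˢ Icc (-(N : ℤ)) N

theorem rho_mem_box (N : ℕ) (v : V) : v ∈ rho_box N ↔ |v.1| ≤ (N : ℤ) ∧ |v.2| ≤ (N : ℤ) := by
  unfold rho_box
  rw [mem_product, mem_Icc, mem_Icc, abs_le, abs_le]

theorem rho_mem_XA (N : ℕ) (x : PP) : x ∈ XA N ↔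
    ((|x.1.1| ≤ (N : ℤ) ∧ |x.1.2| ≤ (N : ℤ)) ∧ (|x.2.1| ≤ (N : ℤ) ∧ |x.2.2| ≤ (N : ℤ))) ∧
      |x.1.1 - x.2.1| ≤ (N : ℤ) ∧ |x.1.2 - x.2.2| ≤ (N : ℤ) := by
  unfold XA
  rw [mem_filter, mem_product, mem_product, mem_product, mem_Icc, mem_Icc, mem_Icc, mem_Icc,
    ← abs_le, ← abs_le, ← abs_le, ← abs_le]

/-- the number of the possible first coordinates -/
theorem rho_f (N : ℕ) (a : ℤ) (ha : |a| ≤ (N : ℤ)) :
    (((Icc (-(N : ℤ)) N).filter (fun b => |a - b| ≤ (N : ℤ))).card : ℤ) = 2 * N + 1 - |a| := by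
  rw [abs_le] at ha
  rcases le_total 0 a with h | h
  · have e : (Icc (-(N : ℤ)) N).filter (fun b => |a - b| ≤ (N : ℤ)) = Icc (a - N) N := by
      ext b
      rw [mem_filter, mem_Icc, mem_Icc, abs_le]
      constructor
      · intro h'; omega
      · intro h'; omega
    rw [e, Int.card_Icc, abs_of_nonneg h]
    omega
  · have e : (Icc (-(N : ℤ)) N).filter (fun b => |a - b| ≤ (N : ℤ)) = Icc (-(N : ℤ)) (a + N) := by
      ext b
      rw [mem_filter, mem_Icc, mem_Icc, abs_le]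
      constructor
      · intro h'; omega
      · intro h'; omega
    rw [e, Int.card_Icc, abs_of_nonpos h]
    omega

theorem rho_fib (N : ℕ) (p : V) (hp : |p.1| ≤ (N : ℤ) ∧ |p.2| ≤ (N : ℤ)) :
    (((rho_box N).filter (fun q => |p.1 - q.1| ≤ (N : ℤ) ∧ |p.2 - q.2| ≤ (N : ℤ))).card : ℤ) =
      (2 * N + 1 - |p.1|) * (2 * N + 1 - |p.2|) := by
  unfold rho_box
  rw [Finset.filter_product (fun b => |p.1 - b| ≤ (N : ℤ)) (fun b => |p.2 - b| ≤ (N : ℤ)),
    card_product, Nat.cast_mul, rho_f N p.1 hp.1, rho_f N p.2 hp.2]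

/-- counting the pairs by the first vector -/
theorem rho_card (N : ℕ) (R : V → Prop) [DecidablePred R] :
    (((XA N).filter (fun x => R x.1)).card : ℤ) =
      ∑ p ∈ (rho_box N).filter R, (2 * (N : ℤ) + 1 - |p.1|) * (2 * N + 1 - |p.2|) := by
  have h : ∀ x ∈ (XA N).filter (fun x => R x.1), x.1 ∈ (rho_box N).filter R := by
    intro x hx
    rw [mem_filter, rho_mem_XA] at hx
    rw [mem_filter, rho_mem_box]
    exact ⟨hx.1.1.1, hx.2⟩
  rw [Finset.card_eq_sum_card_fiberwise h, Nat.cast_sum]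
  refine Finset.sum_congr rfl fun p hp => ?_
  rw [mem_filter, rho_mem_box] at hp
  rw [← rho_fib N p hp.1]
  congr 1
  have e : ((XA N).filter (fun x => R x.1)).filter (fun x => x.1 = p) =
      ((rho_box N).filter (fun q => |p.1 - q.1| ≤ (N : ℤ) ∧ |p.2 - q.2| ≤ (N : ℤ))).image
        (fun q => (p, q)) := by
    ext x
    rw [mem_filter, mem_filter, rho_mem_XA, mem_image]
    constructor
    · rintro ⟨⟨h1, _⟩, h3⟩
      refine ⟨x.2, ?_, ?_⟩
      · rw [mem_filter, rho_mem_box, ← h3]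
        exact ⟨h1.1.2, h1.2⟩
      · rw [← h3]
    · rintro ⟨q, hq, rfl⟩
      rw [mem_filter, rho_mem_box] at hq
      exact ⟨⟨⟨⟨hp.1, hq.1⟩, hq.2⟩, hp.2⟩, rfl⟩
  rw [e, Finset.card_image_of_injective _ (fun q q' hqq => (Prod.mk.inj hqq).2)]

/-- sum of the absolute values -/
theorem rho_abs (N : ℕ) : ∑ a ∈ Icc (-(N : ℤ)) N, |a| = (N : ℤ) * (N + 1) := by
  induction N with
  | zero => simp
  | succ n ih =>
    have e : Icc (-((n + 1 : ℕ) : ℤ)) ((n + 1 : ℕ) : ℤ) =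
        insert ((n : ℤ) + 1) (insert (-((n : ℤ) + 1)) (Icc (-(n : ℤ)) n)) := by
      ext b
      rw [mem_insert, mem_insert, mem_Icc, mem_Icc]
      push_cast
      constructor
      · intro h; omega
      · intro h; omega
    have h1 : (-((n : ℤ) + 1)) ∉ Icc (-(n : ℤ)) n := by
      rw [mem_Icc]; omega
    have h2 : ((n : ℤ) + 1) ∉ insert (-((n : ℤ) + 1)) (Icc (-(n : ℤ)) n) := by
      rw [mem_insert, mem_Icc]; omega
    rw [e, sum_insert h2, sum_insert h1, ih, abs_neg, abs_of_nonneg (by omega)]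
    push_cast
    ring

theorem rho_XA (N : ℕ) : ((XA N).card : ℤ) = (3 * ((N : ℤ) * (N + 1)) + 1) ^ 2 := by
  have h := rho_card N (fun _ => True)
  rw [Finset.filter_true, Finset.filter_true] at h
  have h1 : ∑ a ∈ Icc (-(N : ℤ)) N, (2 * (N : ℤ) + 1 - |a|) = 3 * ((N : ℤ) * (N + 1)) + 1 := by
    rw [Finset.sum_sub_distrib, rho_abs, Finset.sum_const, Int.card_Icc, nsmul_eq_mul]
    have : (((N : ℤ) + 1 - -(N : ℤ)).toNat : ℤ) = 2 * N + 1 := by omega
    rw [this]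
    ring
  rw [h]
  unfold rho_box
  rw [Finset.sum_product, ← h1, sq, Finset.sum_mul_sum]

/-- the triangle -/
def rho_tri (N : ℕ) : Finset (ℕ × ℕ) := (range N ×ˢ range N).filter (fun t => t.1 + t.2 < N)

theorem rho_tri_sum (N : ℕ) (g : ℕ → ℕ → ℤ) :
    ∑ t ∈ rho_tri N, g t.1 t.2 = ∑ i ∈ range N, ∑ j ∈ range (N - i), g i j := by
  unfold rho_tri
  rw [sum_filter, sum_product]
  refine Finset.sum_congr rfl fun i hi => ?_
  rw [← sum_filter]
  refine Finset.sum_congr ?_ fun _ _ => rfl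
  ext j
  rw [mem_filter, mem_range, mem_range]
  constructor
  · intro h
    have h1 : i + j < N := h.2
    omega
  · intro h
    refine ⟨by omega, ?_⟩
    show i + j < N
    omega

theorem rho_lin (c : ℤ) (m : ℕ) : 2 * ∑ j ∈ range m, (c + (j : ℤ)) = m * (2 * c + m - 1) := by
  induction m with
  | zero => simp
  | succ m ih =>
    rw [sum_range_succ, mul_add, ih]
    push_cast
    ring

theorem rho_tri_card (N : ℕ) : 2 * ((rho_tri N).card : ℤ) = (N : ℤ) * (N + 1) := by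
  have h := rho_tri_sum N (fun _ _ => 1)
  rw [Finset.sum_const, nsmul_eq_mul, mul_one] at h
  rw [h]
  have h1 : ∀ n ≤ N, 2 * ∑ i ∈ range n, ∑ _j ∈ range (N - i), (1 : ℤ) =
      n * (2 * (N : ℤ) + 1 - n) := by
    intro n
    induction n with
    | zero => intro _; simp
    | succ n ih =>
      intro hn
      rw [sum_range_succ, mul_add, ih (by omega), Finset.sum_const, card_range, nsmul_eq_mul,
        mul_one, Nat.cast_sub (by omega)]
      push_cast
      ring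
  rw [h1 N le_rfl]
  ring

theorem rho_tri_S (N : ℕ) :
    8 * ∑ t ∈ rho_tri N, ((N : ℤ) + 1 + t.1) * ((N : ℤ) + 1 + t.2) =
      7 * ((N : ℤ) * (N + 1)) ^ 2 + 2 * ((N : ℤ) * (N + 1)) := by
  rw [rho_tri_sum N (fun i j => ((N : ℤ) + 1 + i) * ((N : ℤ) + 1 + j))]
  have h1 : ∀ n ≤ N, 24 * ∑ i ∈ range n, ∑ j ∈ range (N - i), ((N : ℤ) + 1 + i) * ((N : ℤ) + 1 + j) =
      12 * n * ((N : ℤ) * (N + 1)) * (3 * N + 1) - 6 * ((N : ℤ) * (N + 1)) * n * (n - 1) -
        4 * (3 * (N : ℤ) + 1) * (n - 1) * n * (n + 1) + 3 * n ^ 2 * (n - 1) ^ 2 +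
          2 * (n - 1) * n * (2 * n - 1) := by
    intro n
    induction n with
    | zero => intro _; simp
    | succ n ih =>
      intro hn
      have h2 := rho_lin ((N : ℤ) + 1) (N - n)
      rw [Nat.cast_sub (by omega)] at h2
      rw [sum_range_succ, mul_add, ih (by omega), ← Finset.mul_sum]
      push_cast
      linear_combination 12 * ((N : ℤ) + 1 + n) * h2
  have h3 := h1 N le_rfl
  linarith [h3, show 12 * (N : ℤ) * ((N : ℤ) * (N + 1)) * (3 * N + 1) -
      6 * ((N : ℤ) * (N + 1)) * N * (N - 1) - 4 * (3 * (N : ℤ) + 1) * (N - 1) * N * (N + 1) +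
        3 * (N : ℤ) ^ 2 * (N - 1) ^ 2 + 2 * ((N : ℤ) - 1) * N * (2 * N - 1) =
        3 * (7 * ((N : ℤ) * (N + 1)) ^ 2 + 2 * ((N : ℤ) * (N + 1))) by ring]

/-- the corner -/
noncomputable def rho_C (σ : ℤ) (N : ℕ) : Finset V :=
  (rho_box N).filter (fun v => (N : ℤ) < v.1 + σ * v.2)

theorem rho_C_eq {σ : ℤ} (hσ : σ = 1 ∨ σ = -1) (N : ℕ) :
    rho_C σ N = (rho_tri N).image (fun t => ((N : ℤ) - t.1, σ * ((N : ℤ) - t.2))) := by
  ext v
  unfold rho_C rho_tri
  rw [mem_filter, rho_mem_box, mem_image, abs_le, abs_le]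
  constructor
  · rintro ⟨⟨h1, h2⟩, h3⟩
    refine ⟨(((N : ℤ) - v.1).toNat, ((N : ℤ) - σ * v.2).toNat), ?_, ?_⟩
    · rw [mem_filter, mem_product, mem_range, mem_range]
      rcases hσ with rfl | rfl
      · refine ⟨⟨?_, ?_⟩, ?_⟩
        · show ((N : ℤ) - v.1).toNat < N
          omega
        · show ((N : ℤ) - 1 * v.2).toNat < N
          omega
        · show ((N : ℤ) - v.1).toNat + ((N : ℤ) - 1 * v.2).toNat < N
          omega
      · refine ⟨⟨?_, ?_⟩, ?_⟩
        · show ((N : ℤ) - v.1).toNat < N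
          omega
        · show ((N : ℤ) - -1 * v.2).toNat < N
          omega
        · show ((N : ℤ) - v.1).toNat + ((N : ℤ) - -1 * v.2).toNat < N
          omega
    · rcases hσ with rfl | rfl
      · refine Prod.ext ?_ ?_
        · show (N : ℤ) - (((N : ℤ) - v.1).toNat : ℕ) = v.1
          omega
        · show 1 * ((N : ℤ) - (((N : ℤ) - 1 * v.2).toNat : ℕ)) = v.2
          omega
      · refine Prod.ext ?_ ?_
        · show (N : ℤ) - (((N : ℤ) - v.1).toNat : ℕ) = v.1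
          omega
        · show -1 * ((N : ℤ) - (((N : ℤ) - -1 * v.2).toNat : ℕ)) = v.2
          omega
  · rintro ⟨⟨i, j⟩, ht, rfl⟩
    rw [mem_filter, mem_product, mem_range, mem_range] at ht
    have h1 : i < N := ht.1.1
    have h2 : j < N := ht.1.2
    have h3 : i + j < N := ht.2
    show ((-(N : ℤ) ≤ (N : ℤ) - i ∧ (N : ℤ) - i ≤ N) ∧
      (-(N : ℤ) ≤ σ * ((N : ℤ) - j) ∧ σ * ((N : ℤ) - j) ≤ N)) ∧
        (N : ℤ) < (N : ℤ) - i + σ * (σ * ((N : ℤ) - j))
    rcases hσ with rfl | rfl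
    · omega
    · omega

theorem rho_inj {σ : ℤ} (hσ : σ = 1 ∨ σ = -1) (N : ℕ) :
    Function.Injective (fun t : ℕ × ℕ => ((N : ℤ) - t.1, σ * ((N : ℤ) - t.2))) := by
  rintro ⟨i, j⟩ ⟨i', j'⟩ h
  have h1 : (N : ℤ) - i = (N : ℤ) - i' := (Prod.mk.inj h).1
  have h2 : σ * ((N : ℤ) - j) = σ * ((N : ℤ) - j') := (Prod.mk.inj h).2
  rcases hσ with rfl | rfl
  · exact Prod.ext (by show i = i'; omega) (by show j = j'; omega)
  · exact Prod.ext (by show i = i'; omega) (by show j = j'; omega)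

theorem rho_C_card {σ : ℤ} (hσ : σ = 1 ∨ σ = -1) (N : ℕ) :
    2 * ((rho_C σ N).card : ℤ) = (N : ℤ) * (N + 1) := by
  rw [rho_C_eq hσ, Finset.card_image_of_injective _ (rho_inj hσ N), rho_tri_card]

/-- the pairs with the first vector in the corner -/
noncomputable def rho_P (σ : ℤ) (N : ℕ) : Finset PP :=
  (XA N).filter (fun x => (N : ℤ) < x.1.1 + σ * x.1.2)

/-- the pairs with the second vector in the corner -/
noncomputable def rho_Q (σ : ℤ) (N : ℕ) : Finset PP :=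
  (XA N).filter (fun x => (N : ℤ) < x.2.1 + σ * x.2.2)

theorem rho_P_card {σ : ℤ} (hσ : σ = 1 ∨ σ = -1) (N : ℕ) :
    8 * ((rho_P σ N).card : ℤ) = 7 * ((N : ℤ) * (N + 1)) ^ 2 + 2 * ((N : ℤ) * (N + 1)) := by
  have h := rho_card N (fun v => (N : ℤ) < v.1 + σ * v.2)
  have h1 : ((rho_P σ N).card : ℤ) =
      ∑ p ∈ rho_C σ N, (2 * (N : ℤ) + 1 - |p.1|) * (2 * N + 1 - |p.2|) := h
  rw [h1, rho_C_eq hσ, Finset.sum_image (fun a _ b _ hab => rho_inj hσ N hab), ← rho_tri_S]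
  congr 1
  refine Finset.sum_congr rfl fun t ht => ?_
  unfold rho_tri at ht
  rw [mem_filter, mem_product, mem_range, mem_range] at ht
  obtain ⟨⟨h2, h3⟩, _⟩ := ht
  have h4 : |(N : ℤ) - t.1| = (N : ℤ) - t.1 := abs_of_nonneg (by omega)
  have h5 : |σ * ((N : ℤ) - t.2)| = (N : ℤ) - t.2 := by
    rw [abs_mul, abs_of_nonneg (show (0 : ℤ) ≤ (N : ℤ) - t.2 by omega)]
    rcases hσ with rfl | rfl
    · norm_num
    · norm_num
  show (2 * (N : ℤ) + 1 - |(N : ℤ) - t.1|) * (2 * (N : ℤ) + 1 - |σ * ((N : ℤ) - t.2)|) = _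
  rw [h4, h5]
  ring

theorem rho_Q_card (σ : ℤ) (N : ℕ) : (rho_Q σ N).card = (rho_P σ N).card := by
  refine Finset.card_bij' (fun x _ => (x.2, x.1)) (fun x _ => (x.2, x.1)) ?_ ?_ ?_ ?_
  · intro x hx
    unfold rho_Q at hx
    unfold rho_P
    rw [mem_filter, rho_mem_XA] at hx ⊢
    obtain ⟨⟨⟨h1, h2⟩, h3, h4⟩, h5⟩ := hx
    exact ⟨⟨⟨h2, h1⟩, by rw [abs_sub_comm]; exact h3, by rw [abs_sub_comm]; exact h4⟩, h5⟩
  · intro x hx
    unfold rho_P at hx
    unfold rho_Q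
    rw [mem_filter, rho_mem_XA] at hx ⊢
    obtain ⟨⟨⟨h1, h2⟩, h3, h4⟩, h5⟩ := hx
    exact ⟨⟨⟨h2, h1⟩, by rw [abs_sub_comm]; exact h3, by rw [abs_sub_comm]; exact h4⟩, h5⟩
  · intro x _
    rfl
  · intro x _
    rfl

/-- the pairs outside the hexagon -/
noncomputable def rho_D (σ : ℤ) (N : ℕ) : Finset PP :=
  (XA N).filter (fun x => (N : ℤ) < |x.1.1 + σ * x.1.2| ∨ (N : ℤ) < |x.2.1 + σ * x.2.2|)

theorem rho_neg_card (σ : ℤ) (N : ℕ) :
    ((XA N).filter (fun x => (N : ℤ) < -(x.1.1 + σ * x.1.2) ∨ (N : ℤ) < -(x.2.1 + σ * x.2.2))).card =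
      (rho_P σ N ∪ rho_Q σ N).card := by
  refine Finset.card_bij' (fun x _ => -x) (fun x _ => -x) ?_ ?_ ?_ ?_
  · intro x hx
    unfold rho_P rho_Q
    rw [mem_filter, rho_mem_XA] at hx
    rw [← Finset.filter_or, mem_filter, rho_mem_XA]
    obtain ⟨⟨⟨h1, h2⟩, h3, h4⟩, h5⟩ := hx
    show (((|-x.1.1| ≤ (N : ℤ) ∧ |-x.1.2| ≤ (N : ℤ)) ∧ (|-x.2.1| ≤ (N : ℤ) ∧ |-x.2.2| ≤ (N : ℤ))) ∧
      |-x.1.1 - -x.2.1| ≤ (N : ℤ) ∧ |-x.1.2 - -x.2.2| ≤ (N : ℤ)) ∧
      ((N : ℤ) < -x.1.1 + σ * -x.1.2 ∨ (N : ℤ) < -x.2.1 + σ * -x.2.2)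
    rw [abs_neg, abs_neg, abs_neg, abs_neg, neg_sub_neg, neg_sub_neg, abs_sub_comm, abs_sub_comm x.2.2]
    refine ⟨⟨⟨h1, h2⟩, h3, h4⟩, ?_⟩
    rcases h5 with h5 | h5
    · left
      linarith
    · right
      linarith
  · intro x hx
    unfold rho_P rho_Q at hx
    rw [← Finset.filter_or, mem_filter, rho_mem_XA] at hx
    rw [mem_filter, rho_mem_XA]
    obtain ⟨⟨⟨h1, h2⟩, h3, h4⟩, h5⟩ := hx
    show (((|-x.1.1| ≤ (N : ℤ) ∧ |-x.1.2| ≤ (N : ℤ)) ∧ (|-x.2.1| ≤ (N : ℤ) ∧ |-x.2.2| ≤ (N : ℤ))) ∧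
      |-x.1.1 - -x.2.1| ≤ (N : ℤ) ∧ |-x.1.2 - -x.2.2| ≤ (N : ℤ)) ∧
      ((N : ℤ) < -(-x.1.1 + σ * -x.1.2) ∨ (N : ℤ) < -(-x.2.1 + σ * -x.2.2))
    rw [abs_neg, abs_neg, abs_neg, abs_neg, neg_sub_neg, neg_sub_neg, abs_sub_comm, abs_sub_comm x.2.2]
    refine ⟨⟨⟨h1, h2⟩, h3, h4⟩, ?_⟩
    rcases h5 with h5 | h5
    · left
      linarith
    · right
      linarith
  · intro x _
    exact neg_neg x
  · intro x _
    exact neg_neg x

theorem rho_D_card {σ : ℤ} (hσ : σ = 1 ∨ σ = -1) (N : ℕ) :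
    3 * ((N : ℤ) * (N + 1)) ^ 2 + (N : ℤ) * (N + 1) ≤ ((rho_D σ N).card : ℤ) := by
  -- the two parts
  have h1 : (rho_P σ N ∪ rho_Q σ N) ∪ (XA N).filter
      (fun x => (N : ℤ) < -(x.1.1 + σ * x.1.2) ∨ (N : ℤ) < -(x.2.1 + σ * x.2.2)) ⊆ rho_D σ N := by
    unfold rho_P rho_Q rho_D
    intro x hx
    rw [← Finset.filter_or, ← Finset.filter_or, mem_filter] at hx
    rw [mem_filter, lt_abs, lt_abs]
    refine ⟨hx.1, ?_⟩
    rcases hx.2 with (h | h) | (h | h)
    · exact Or.inl (Or.inl h)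
    · exact Or.inr (Or.inl h)
    · exact Or.inl (Or.inr h)
    · exact Or.inr (Or.inr h)
  have h2 : Disjoint (rho_P σ N ∪ rho_Q σ N) ((XA N).filter
      (fun x => (N : ℤ) < -(x.1.1 + σ * x.1.2) ∨ (N : ℤ) < -(x.2.1 + σ * x.2.2))) := by
    rw [Finset.disjoint_left]
    intro x hx hx'
    unfold rho_P rho_Q at hx
    rw [← Finset.filter_or, mem_filter] at hx
    rw [mem_filter, rho_mem_XA, abs_le, abs_le, abs_le, abs_le, abs_le, abs_le] at hx'
    obtain ⟨_, hx2⟩ := hx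
    obtain ⟨hx3, hx4⟩ := hx'
    rcases hσ with rfl | rfl
    · rcases hx2 with h | h <;> rcases hx4 with h' | h' <;> omega
    · rcases hx2 with h | h <;> rcases hx4 with h' | h' <;> omega
  have h3 := Finset.card_le_card h1
  rw [Finset.card_union_of_disjoint h2, rho_neg_card] at h3
  have h4 := Finset.card_union_add_card_inter (rho_P σ N) (rho_Q σ N)
  rw [rho_Q_card] at h4
  have h5 : (rho_P σ N ∩ rho_Q σ N).card ≤ (rho_C σ N).card * (rho_C σ N).card := by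
    rw [← card_product]
    refine Finset.card_le_card fun x hx => ?_
    unfold rho_P rho_Q at hx
    rw [← Finset.filter_and, mem_filter, rho_mem_XA] at hx
    rw [mem_product]
    unfold rho_C
    rw [mem_filter, mem_filter, rho_mem_box, rho_mem_box]
    exact ⟨⟨hx.1.1.1, hx.2.1⟩, ⟨hx.1.1.2, hx.2.2⟩⟩
  have h6 := rho_P_card hσ N
  have h7 := rho_C_card hσ N
  have h3' : (2 : ℤ) * ((rho_P σ N ∪ rho_Q σ N).card : ℤ) ≤ ((rho_D σ N).card : ℤ) := by
    have : ((rho_P σ N ∪ rho_Q σ N).card : ℤ) + ((rho_P σ N ∪ rho_Q σ N).card : ℤ) ≤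
      ((rho_D σ N).card : ℤ) := by exact_mod_cast h3
    linarith
  have h4' : ((rho_P σ N ∪ rho_Q σ N).card : ℤ) + ((rho_P σ N ∩ rho_Q σ N).card : ℤ) =
      ((rho_P σ N).card : ℤ) + ((rho_P σ N).card : ℤ) := by exact_mod_cast h4
  have h5' : ((rho_P σ N ∩ rho_Q σ N).card : ℤ) ≤ ((rho_C σ N).card : ℤ) * ((rho_C σ N).card : ℤ) := by
    exact_mod_cast h5
  have h8 : 4 * (((rho_C σ N).card : ℤ) * ((rho_C σ N).card : ℤ)) = ((N : ℤ) * (N + 1)) ^ 2 := by
    rw [← h7]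
    ring
  linarith

/-- disjoint parts of the union -/
theorem rho_union (X D : Finset PP) (g₁ g₂ : PP → PP) (hD : D ⊆ X) (h1 : Function.Injective g₁)
    (h2 : Function.Injective g₂) (d1 : ∀ x ∈ D, g₁ x ∉ X) (d2 : ∀ x ∈ D, g₂ x ∉ X)
    (d3 : ∀ x ∈ D, ∀ y ∈ D, g₁ x ≠ g₂ y) :
    X.card + 2 * D.card ≤ (X ∪ X.image g₁ ∪ X.image g₂).card := by
  have e1 : Disjoint X (D.image g₁) := by
    rw [Finset.disjoint_left]
    intro x hx hx'
    obtain ⟨y, hy, rfl⟩ := mem_image.1 hx'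
    exact d1 y hy hx
  have e2 : Disjoint (X ∪ D.image g₁) (D.image g₂) := by
    rw [Finset.disjoint_left]
    intro x hx hx'
    obtain ⟨y, hy, rfl⟩ := mem_image.1 hx'
    rcases mem_union.1 hx with h | h
    · exact d2 y hy h
    · obtain ⟨z, hz, he⟩ := mem_image.1 h
      exact d3 z hz y hy he
  have e3 : X ∪ D.image g₁ ∪ D.image g₂ ⊆ X ∪ X.image g₁ ∪ X.image g₂ :=
    Finset.union_subset_union (Finset.union_subset_union (Finset.Subset.refl X)
      (Finset.image_subset_image hD)) (Finset.image_subset_image hD)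
  have e4 := Finset.card_le_card e3
  rw [Finset.card_union_of_disjoint e2, Finset.card_union_of_disjoint e1,
    Finset.card_image_of_injective _ h1, Finset.card_image_of_injective _ h2] at e4
  omega

theorem rho_fin {σ : ℤ} (hσ : σ = 1 ∨ σ = -1) (N : ℕ) (U : ℕ)
    (h : (XA N).card + 2 * (rho_D σ N).card ≤ U) : 15 * N ^ 4 ≤ U := by
  have h1 := rho_XA N
  have h2 := rho_D_card hσ N
  have h3 : ((XA N).card : ℤ) + 2 * ((rho_D σ N).card : ℤ) ≤ (U : ℤ) := by exact_mod_cast h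
  have h4 : (15 : ℤ) * (N : ℤ) ^ 4 ≤ (U : ℤ) := by
    have h5 : (0 : ℤ) ≤ (N : ℤ) := Int.natCast_nonneg N
    have h6 : (N : ℤ) ^ 4 ≤ ((N : ℤ) * (N + 1)) ^ 2 := by
      have : ((N : ℤ) * (N + 1)) ^ 2 - (N : ℤ) ^ 4 = 2 * (N : ℤ) ^ 3 + (N : ℤ) ^ 2 := by ring
      nlinarith [pow_nonneg h5 3, pow_nonneg h5 2]
    have h7 : (0 : ℤ) ≤ (N : ℤ) * (N + 1) := by positivity
    nlinarith
  exact_mod_cast h4

theorem rho_ok : S_RHO := by
  intro B r hBr N
  rcases hBr with ⟨rfl, rfl⟩ | ⟨rfl, rfl⟩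
  · refine rho_fin (Or.inl rfl) N _ (rho_union _ _ _ _ (Finset.filter_subset _ _) ?_ ?_ ?_ ?_ ?_)
    · intro x y h
      have e1 := congrArg (fun z : PP => z.1.1) h
      have e2 := congrArg (fun z : PP => z.1.2) h
      have e3 := congrArg (fun z : PP => z.2.1) h
      have e4 := congrArg (fun z : PP => z.2.2) h
      simp only [mul2, mul] at e1 e2 e3 e4
      exact Prod.ext (Prod.ext (by omega) (by omega)) (Prod.ext (by omega) (by omega))
    · intro x y h
      have e1 := congrArg (fun z : PP => z.1.1) h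
      have e2 := congrArg (fun z : PP => z.1.2) h
      have e3 := congrArg (fun z : PP => z.2.1) h
      have e4 := congrArg (fun z : PP => z.2.2) h
      simp only [mul2, mul] at e1 e2 e3 e4
      exact Prod.ext (Prod.ext (by omega) (by omega)) (Prod.ext (by omega) (by omega))
    · intro x hx hg
      unfold rho_D at hx
      rw [mem_filter, lt_abs, lt_abs] at hx
      rw [rho_mem_XA, abs_le, abs_le, abs_le, abs_le, abs_le, abs_le] at hg
      simp only [mul2, mul] at hg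
      obtain ⟨_, hx2⟩ := hx
      rcases hx2 with (h | h) | (h | h) <;> omega
    · intro x hx hg
      unfold rho_D at hx
      rw [mem_filter, lt_abs, lt_abs] at hx
      rw [rho_mem_XA, abs_le, abs_le, abs_le, abs_le, abs_le, abs_le] at hg
      simp only [mul2, mul] at hg
      obtain ⟨_, hx2⟩ := hx
      rcases hx2 with (h | h) | (h | h) <;> omega
    · intro x hx y hy h
      unfold rho_D at hx hy
      rw [mem_filter, lt_abs, lt_abs] at hx
      rw [mem_filter, rho_mem_XA, abs_le, abs_le, abs_le, abs_le, abs_le, abs_le] at hy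
      have e1 := congrArg (fun z : PP => z.1.1) h
      have e2 := congrArg (fun z : PP => z.1.2) h
      have e3 := congrArg (fun z : PP => z.2.1) h
      have e4 := congrArg (fun z : PP => z.2.2) h
      simp only [mul2, mul] at e1 e2 e3 e4
      obtain ⟨_, hx2⟩ := hx
      obtain ⟨hy1, _⟩ := hy
      rcases hx2 with (h | h) | (h | h) <;> omega
  · refine rho_fin (Or.inr rfl) N _ (rho_union _ _ _ _ (Finset.filter_subset _ _) ?_ ?_ ?_ ?_ ?_)
    · intro x y h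
      have e1 := congrArg (fun z : PP => z.1.1) h
      have e2 := congrArg (fun z : PP => z.1.2) h
      have e3 := congrArg (fun z : PP => z.2.1) h
      have e4 := congrArg (fun z : PP => z.2.2) h
      simp only [mul2, mul] at e1 e2 e3 e4
      exact Prod.ext (Prod.ext (by omega) (by omega)) (Prod.ext (by omega) (by omega))
    · intro x y h
      have e1 := congrArg (fun z : PP => z.1.1) h
      have e2 := congrArg (fun z : PP => z.1.2) h
      have e3 := congrArg (fun z : PP => z.2.1) h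
      have e4 := congrArg (fun z : PP => z.2.2) h
      simp only [mul2, mul] at e1 e2 e3 e4
      exact Prod.ext (Prod.ext (by omega) (by omega)) (Prod.ext (by omega) (by omega))
    · intro x hx hg
      unfold rho_D at hx
      rw [mem_filter, lt_abs, lt_abs] at hx
      rw [rho_mem_XA, abs_le, abs_le, abs_le, abs_le, abs_le, abs_le] at hg
      simp only [mul2, mul] at hg
      obtain ⟨_, hx2⟩ := hx
      rcases hx2 with (h | h) | (h | h) <;> omega
    · intro x hx hg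
      unfold rho_D at hx
      rw [mem_filter, lt_abs, lt_abs] at hx
      rw [rho_mem_XA, abs_le, abs_le, abs_le, abs_le, abs_le, abs_le] at hg
      simp only [mul2, mul] at hg
      obtain ⟨_, hx2⟩ := hx
      rcases hx2 with (h | h) | (h | h) <;> omega
    · intro x hx y hy h
      unfold rho_D at hx hy
      rw [mem_filter, lt_abs, lt_abs] at hx
      rw [mem_filter, rho_mem_XA, abs_le, abs_le, abs_le, abs_le, abs_le, abs_le] at hy
      have e1 := congrArg (fun z : PP => z.1.1) h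
      have e2 := congrArg (fun z : PP => z.1.2) h
      have e3 := congrArg (fun z : PP => z.2.1) h
      have e4 := congrArg (fun z : PP => z.2.2) h
      simp only [mul2, mul] at e1 e2 e3 e4
      obtain ⟨_, hx2⟩ := hx
      obtain ⟨hy1, _⟩ := hy
      rcases hx2 with (h | h) | (h | h) <;> omega

end Pool.Agent.H711.DT
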