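import Mathlib

/-!
# Project DT (MP_047cd2_co): distinct triangles in planar lattice sections

Every planar lattice section spans at least as many distinct triangles as the square lattice
section, up to `o(n ^ 2)`. This file holds the definitions and the statements `S_X` of the tasks;
the paper proof of each statement is in its docstring.

Notation. `V = ℤ × ℤ` are the integer vectors, `PP = V × V` the pairs `x = (p, q)` of vectors; a pair
stands for the triangle with the vertices `0, p, q`. `dt x = det (p, q)`.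
-/

namespace Pool.Agent.H711.DT

open scoped ENNReal
open Filter

/-! ## The problem -/

/-- The plane. -/
abbrev Pl := EuclideanSpace ℝ (Fin 2)

/-- The congruence class of a set of points of the plane: its images under the isometries. -/
def cls (t : Set Pl) : Set (Set Pl) := {t' | ∃ φ : Pl ≃ᵢ Pl, t' = φ '' t}

/-- The triangles spanned by `P`: the subsets of `P` with three elements which are not collinear. -/
def tri (P : Set Pl) : Set (Set Pl) := {t | t ⊆ P ∧ t.ncard = 3 ∧ ¬ Collinear ℝ t}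

/-- The number of distinct triangles spanned by `P`. -/
noncomputable def T (P : Set Pl) : ℕ := (cls '' tri P).ncard

/-- The lattice section `L_{a,b}(n)`. -/
def Lat (a b : Pl) (n : ℕ) : Set Pl :=
  {x | ∃ u v : ℤ, 0 ≤ u ∧ (u : ℝ) < √(n : ℝ) ∧ 0 ≤ v ∧ (v : ℝ) < √(n : ℝ) ∧
    x = (u : ℝ) • a + (v : ℝ) • b}

/-- The unit vectors. -/
noncomputable def e1 : Pl := !₂[1, 0]
/-- The unit vectors. -/
noncomputable def e2 : Pl := !₂[0, 1]

/-- `T(L_{a,b}(n)) / n ^ 2`. -/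
noncomputable def ratio (a b : Pl) (n : ℕ) : ℝ≥0∞ := (T (Lat a b n) : ℝ≥0∞) / (n : ℝ≥0∞) ^ 2

/-- The constant `c₀` of the square lattice. -/
noncomputable def c0 : ℝ≥0∞ := liminf (fun n : ℕ => ratio e1 e2 n) atTop

/-! ## Pairs of integer vectors -/

abbrev V := ℤ × ℤ
abbrev PP := V × V

/-- The determinant of a pair of vectors. -/
def dt (x : PP) : ℤ := x.1.1 * x.2.2 - x.1.2 * x.2.1

/-- The pairs `(p, q)` with `p, q, p - q` in the box `[-N, N]²`. -/
noncomputable def XA (N : ℕ) : Finset PP :=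
  (((Finset.Icc (-(N : ℤ)) N) ×ˢ (Finset.Icc (-(N : ℤ)) N)) ×ˢ
    ((Finset.Icc (-(N : ℤ)) N) ×ˢ (Finset.Icc (-(N : ℤ)) N))).filter
    (fun x => |x.1.1 - x.2.1| ≤ (N : ℤ) ∧ |x.1.2 - x.2.2| ≤ (N : ℤ))

/-- All coordinates are at most `M` in absolute value. -/
def InBox (M : ℕ) (x : PP) : Prop :=
  |x.1.1| ≤ (M : ℤ) ∧ |x.1.2| ≤ (M : ℤ) ∧ |x.2.1| ≤ (M : ℤ) ∧ |x.2.2| ≤ (M : ℤ)

/-- The real quadratic form `α u² + β u v + γ v²`. -/
def qR (α β γ : ℝ) (p : V) : ℝ := α * (p.1 : ℝ) ^ 2 + β * (p.1 : ℝ) * (p.2 : ℝ) + γ * (p.2 : ℝ) ^ 2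

/-- The squares of the three sides of the triangle `0, p, q`. -/
noncomputable def sidesR (α β γ : ℝ) (x : PP) : Multiset ℝ :=
  {qR α β γ x.1, qR α β γ x.2, qR α β γ (x.1 - x.2)}

/-- Equal Gram matrices. -/
def EqR (α β γ : ℝ) (x y : PP) : Prop :=
  qR α β γ x.1 = qR α β γ y.1 ∧ qR α β γ x.2 = qR α β γ y.2 ∧
    qR α β γ (x.1 - x.2) = qR α β γ (y.1 - y.2)

/-- A property of triangles `0, p, q` which does not depend on the labelling of the vertices (given
by the two transpositions `(p, q) ↦ (q, p)` and `(p, q) ↦ (-p, q - p)`). -/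
def RC (P : PP → Prop) : Prop :=
  (∀ x, P x → P (x.2, x.1)) ∧ (∀ x, P x → P (-x.1, x.2 - x.1))

/-! ## Tasks on the geometry -/

/-- TASK GEO. Lower bound for `T` by counting integer pairs. (`α = ⟪a,a⟫, β = 2⟪a,b⟫, γ = ⟪b,b⟫`.)
PROOF. For `u v : ℤ` one has `‖u a + v b‖² = qR α β γ (u, v)`.
(1) For `x = (p, q)` in `XA N` with `dt x ≠ 0` let `o = (max(0,-p₁,-q₁), max(0,-p₂,-q₂))`. Then
`o, o + p, o + q` have both coordinates in `[0, N]` (because `|p_i|, |q_i|, |p_i - q_i| ≤ N`), so the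
three points `t x = {z(o), z(o+p), z(o+q)}` (`z(u,v) = u a + v b`) lie in `Lat a b n` (as
`N < √n`), they are distinct and not collinear (linear independence, `dt x ≠ 0`).
(2) If `cls (t x) = cls (t x')`, then `t x' ∈ cls (t x') = cls (t x)` (take the identity), so an isometry
`φ` maps `t x` onto `t x'`; it induces a bijection of the vertices, hence the multisets of the three
squared distances agree: `sidesR x = sidesR x'`. (6 cases for the bijection of the three points.)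
(3) So the map `y ↦ sidesR y` takes at most `T (Lat a b n)` values on `Y`: choose for each value `s` a pair
`x_s ∈ XA N` with this value; `s ↦ cls (t x_s)` is injective into `cls '' tri (Lat a b n)`, which is a
finite set because `Lat a b n` is finite. Each value is taken at most `k` times on `Y`
(`Finset.card_le_mul_card_image`). -/
def S_GEO : Prop :=
  ∀ a b : Pl, LinearIndependent ℝ ![a, b] → ∀ n N : ℕ, (N : ℝ) < √(n : ℝ) →
    ∀ (Y : Finset PP) (k : ℕ),
    (∀ y ∈ Y, ∃ x ∈ XA N, dt x ≠ 0 ∧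
      sidesR (inner ℝ a a) (2 * inner ℝ a b) (inner ℝ b b) x =
        sidesR (inner ℝ a a) (2 * inner ℝ a b) (inner ℝ b b) y) →
    (∀ y ∈ Y, ∀ F : Finset PP, F ⊆ Y →
      (∀ z ∈ F, sidesR (inner ℝ a a) (2 * inner ℝ a b) (inner ℝ b b) z =
        sidesR (inner ℝ a a) (2 * inner ℝ a b) (inner ℝ b b) y) → F.card ≤ k) →
    Y.card ≤ k * T (Lat a b n)

/-- The normal forms of the triangles of the square lattice. -/
noncomputable def FF (N : ℕ) : Finset PP :=
  (((Finset.Icc (-(N : ℤ)) N) ×ˢ (Finset.Icc (-(N : ℤ)) N)) ×ˢ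
    ((Finset.Icc (-(N : ℤ)) N) ×ˢ (Finset.Icc (-(N : ℤ)) N))).filter
    (fun x => 0 ≤ x.1.1 ∧ 2 * x.1.1 ≤ x.2.1 ∧ 0 ≤ x.1.2 ∧ x.1.2 ≤ x.2.1 ∧ |x.2.2| ≤ x.2.1 ∧
      |x.1.2 - x.2.2| ≤ x.2.1)

/-- TASK UB1. Every triangle of the square lattice section is congruent to a triangle `0, p, q` with
`(p, q) ∈ FF N`; hence `T ≤ |FF N|`. PROOF. Let `t` be a triangle in `Lat e1 e2 n`; its vertices are
integer points with coordinates in `[0, N]` (as `u < √n ≤ N + 1`). The congruence class does not change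
when `t` is moved by an isometry of the plane (translation, reflection in a coordinate axis, exchange of
the two coordinates), because `cls (φ '' t) = cls t`. (a) Exchange the coordinates if necessary, such
that the width of `t` in the first coordinate (max - min) is at least the width in the second one. (b) Let
`P₁, P₂, P₃` be the vertices ordered by their first coordinates. Reflecting the first coordinate (and
reversing the order) if necessary, `x(P₂) - x(P₁) ≤ x(P₃) - x(P₂)`. (c) Reflecting the second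
coordinate if necessary, `y(P₁) ≤ y(P₂)`. Then `p = P₂ - P₁`, `q = P₃ - P₁` satisfies
`0 ≤ p₁`, `2 p₁ ≤ q₁`, `q₁ = width ≤ N`, `0 ≤ p₂`, and `p₂, |q₂|, |p₂ - q₂|` are at most the width in the
second coordinate, which is `≤ q₁`. Translate `P₁` to `0`. So `cls '' tri (Lat e1 e2 n)` is contained
in the image of `FF N` under `(p, q) ↦ cls {0, p, q}`. (It may be convenient to do the steps for ordered
triples of integer points, with one lemma per step.) -/
def S_UB1 : Prop :=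
  ∀ n N : ℕ, √(n : ℝ) ≤ (N : ℝ) + 1 → T (Lat e1 e2 n) ≤ (FF N).card

/-- TASK UB2. PROOF. For fixed `q₁ = t ∈ [0, N]` there are at most `t/2 + 1` values `p₁`, and the number of the
pairs `(p₂, q₂)` with `0 ≤ p₂ ≤ t`, `|q₂| ≤ t`, `|p₂ - q₂| ≤ t` is
`Σ_{a=0}^{t} (2 t + 1 - a) = (t + 1)(3 t + 2)/2` (`q₂ ∈ [a - t, t]` for `p₂ = a`). So
`|FF N| ≤ Σ_t (t/2 + 1)(t + 1)(3 t + 2)/2 ≤ (3/4) Σ_{t ≤ N} (t + 2)³ ≤ (3/16) (N + 3)⁴`. -/
def S_UB2 : Prop :=
  ∀ N : ℕ, ((FF N).card : ℝ) ≤ 3 / 16 * ((N : ℝ) + 3) ^ 4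

/-- TASK SIM. Similar lattices. PROOF. Let `c = ‖a‖ > 0`. There is a linear isometry `ρ` of the plane with
`ρ e1 = a / c`, `ρ e2 = b / c` (`(a/c, b/c)` is an orthonormal basis), and `S z = c • ρ z` is a bijection of
the plane with `S '' Lat e1 e2 n = Lat a b n`. `t ↦ S '' t` maps `tri P` bijectively onto `tri (S '' P)` and
`cls (S '' t) = (S '' ·) '' cls t` (conjugate the isometries by `S`: `S φ S⁻¹` is an isometry). So the number
of classes is the same. -/
def S_SIM : Prop :=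
  ∀ a b : Pl, a ≠ 0 → ‖a‖ = ‖b‖ → inner ℝ a b = (0 : ℝ) → ∀ n : ℕ, T (Lat a b n) = T (Lat e1 e2 n)

/-! ## Tasks on fibres -/

/-- TASK FIB. PROOF. Let `P x` and let `F` be a finite set of `z` with `P z` and `sidesR z = sidesR x`. The six
relabellings `σ` of `z = (p, q)`: `(p,q), (q,p), (-p,q-p), (q-p,-p), (-q,p-q), (p-q,-q)` are injective maps,
compositions of the two maps in `RC`, so `P (σ z)`; they realise all six permutations of the three numbers
`qR p, qR q, qR (p - q)` (`qR (-p) = qR p`). So for every `z ∈ F` there is `σ` with `EqR x (σ z)`. It remains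
to see that a finite set `G` of `z` with `P z` and `EqR x z` has at most `2 m` elements. From
`EqR x z` one gets `dt z ^ 2 = dt x ^ 2` (Gram determinant:
`(4 α γ - β²) (dt z)² = 4 q(p) q(q) - (q(p) + q(q) - q(p - q))²`), so `dt z = dt x` (at most `m` such `z` by
hypothesis) or `dt z = - dt x`: if `z₀` is one of these, then `P z₀`, and all others satisfy `EqR z₀ z`,
`dt z = dt z₀`, so there are at most `m` of them. -/
def S_FIB : Prop :=
  ∀ α β γ : ℝ, 0 < α → β ^ 2 < 4 * α * γ → ∀ P : PP → Prop, RC P → ∀ m : ℕ,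
    (∀ x, P x → ∀ F : Finset PP, (∀ z ∈ F, P z ∧ EqR α β γ x z ∧ dt z = dt x) → F.card ≤ m) →
    ∀ x, P x → ∀ F : Finset PP, (∀ z ∈ F, P z ∧ sidesR α β γ z = sidesR α β γ x) →
      F.card ≤ 12 * m

/-- TASK IRR. PROOF. Let `x = (p, q)`, `y = (p', q')`, `d = dt x = dt y ≠ 0`. Let `M = (m₁₁ m₁₂; m₂₁ m₂₂)` be the
integer matrix `[p' q'] * adj [p q]` (columns), so that `M p = d p'`, `M q = d q'`, `det M = d²`. The equal
Gram matrices say `Mᵀ G M = d² G`, `G = (α, β/2; β/2, γ)`, hence `G adj(M) = Mᵀ G` i.e. (entry (1,1))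
`α (m₂₂ - m₁₁) = β m₂₁`, (entry (1,2)) `- α m₁₂ = γ m₂₁`. If `m₂₁ ≠ 0` then with `c = α / |m₂₁| > 0`,
`s = sign m₂₁`: `α = c |m₂₁|`, `β = c s (m₂₂ - m₁₁)`, `γ = - c s m₁₂`, contradicting the hypothesis. So
`m₂₁ = 0`, then `m₂₂ = m₁₁`, `m₁₂ = 0` (as `α > 0`), so `M` is the scalar `m₁₁` with `m₁₁² = d²`, `m₁₁ = ± d`
and `y = ± x`. -/
def S_IRR : Prop :=
  ∀ α β γ : ℝ, 0 < α → β ^ 2 < 4 * α * γ →
    (¬ ∃ (c : ℝ) (A B C : ℤ), 0 < c ∧ α = c * A ∧ β = c * B ∧ γ = c * C) →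
    ∀ x y : PP, dt x ≠ 0 → EqR α β γ x y → dt y = dt x → y = x ∨ y = -x

/-! ## Integral forms -/

/-- `A u² + B u v + C v²` is a primitive positive definite integral form. -/
def Prim (A B C : ℤ) : Prop :=
  0 < A ∧ B ^ 2 < 4 * A * C ∧ ∀ l : ℕ, l.Prime → (l : ℤ) ∣ A → (l : ℤ) ∣ B → ¬ (l : ℤ) ∣ C

/-- The quadratic form. -/
def fq (A B C : ℤ) (p : V) : ℤ := A * p.1 ^ 2 + B * p.1 * p.2 + C * p.2 ^ 2

/-- Equal Gram matrices. -/
def EqZ (A B C : ℤ) (x y : PP) : Prop :=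
  fq A B C x.1 = fq A B C y.1 ∧ fq A B C x.2 = fq A B C y.2 ∧
    fq A B C (x.1 - x.2) = fq A B C (y.1 - y.2)

/-- `(r + s W) p` with `W = (0, -C; A, B)`; `W² = B W - A C`, and `(r + s W) / e` is a rotation of the form
(`fq ((r + s W) p) = nm r s * fq p`). -/
def mul (A B C r s : ℤ) (p : V) : V := (r * p.1 - s * C * p.2, s * A * p.1 + (r + s * B) * p.2)

/-- `(r + s W)` applied to a pair. -/
def mul2 (A B C r s : ℤ) (x : PP) : PP := (mul A B C r s x.1, mul A B C r s x.2)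

/-- The norm of `r + s W` (its determinant). -/
def nm (A B C r s : ℤ) : ℤ := r ^ 2 + B * r * s + A * C * s ^ 2

/-- All four coordinates are divisible by `e`. -/
def Dvd2 (e : ℤ) (x : PP) : Prop := e ∣ x.1.1 ∧ e ∣ x.1.2 ∧ e ∣ x.2.1 ∧ e ∣ x.2.2

/-- Every rational rotation `(r + s W) / e` (in lowest terms) which maps the pair to an integral pair is
integral. -/
def Good (A B C : ℤ) (x : PP) : Prop :=
  ∀ r s e : ℤ, 1 ≤ e → nm A B C r s = e ^ 2 → Dvd2 e (mul2 A B C r s x) →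
    (∀ l : ℕ, l.Prime → (l : ℤ) ∣ r → (l : ℤ) ∣ s → ¬ (l : ℤ) ∣ e) → e = 1

/-- TASK ROT. PROOF. Let `x = (p, q)`, `y = (p', q')`, `m = fq p > 0` (`p ≠ 0` since `dt x ≠ 0`),
`W p = (-C p₂, A p₁ + B p₂)`, so `det (p, W p) = fq p = m`. Put `r₀ = det (p', W p)`, `s₀ = det (p, p')`. Then
`m p' = r₀ p + s₀ W p` (Cramer). Moreover `m q' = r₀ q + s₀ W q`: the vector `q'` is determined by the two
linear equations `b(p', q') = b(p, q)` and `det (p', q') = det (p, q)`, where `b` is the bilinear form with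
`b(v,v) = fq v` (the determinant of this system is `fq p' = m > 0`; the equations hold by `EqZ` and
`dt y = dt x`), and `(r₀ q + s₀ W q)/m` satisfies them, because `r + s W` multiplies both `b` and `det`
by `nm r s`, and `nm r₀ s₀ = fq p fq p' = m²`. (All this is polynomial algebra; alternatively check the
identities by `linear_combination` after eliminating.) Now let `d = gcd (r₀, s₀, m)`, `r = r₀/d`, `s = s₀/d`,
`e = m/d ≥ 1`: `nm r s = e²`, `e p' = (r + s W) p`, `e q' = (r + s W) q`, so `Dvd2 e (mul2 r s x)`, no prime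
divides `r, s, e`. `Good` gives `e = 1`, so `y = mul2 r s x` and `nm r s = 1`. -/
def S_ROT : Prop :=
  ∀ A B C : ℤ, Prim A B C → ∀ x y : PP, dt x ≠ 0 → EqZ A B C x y → dt y = dt x → Good A B C x →
    ∃ r s : ℤ, nm A B C r s = 1 ∧ y = mul2 A B C r s x

/-- TASK UNIT. PROOF. `nm r s = 1` is `(2 r + B s)² + Δ s² = 4` with `Δ = 4 A C - B² > 0`. If `Δ > 4` then `s = 0`,
`r = ± 1`. If `Δ = 4` (`B` even) then `s = 0, r = ± 1` or `s = ± 1`, `2 r = - B s`: 4 solutions. If `Δ = 3`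
(`B` odd): `s = 0, r = ± 1`; `s = ± 1`, `2 r + B s = ± 1`: 6 solutions. (In the last case `Δ ≤ 3`; `Δ = 1, 2` do
not occur: `Δ ≡ 0, 3 mod 4`, so `Δ = 3`.) -/
def S_UNIT : Prop :=
  ∀ A B C : ℤ, Prim A B C → ∃ F : Finset (ℤ × ℤ),
    F.card ≤ (if 4 < 4 * A * C - B ^ 2 then 2 else if 4 * A * C - B ^ 2 = 4 then 4 else 6) ∧
    ∀ r s : ℤ, nm A B C r s = 1 → (r, s) ∈ F

/-- TASK GRC (easy). `mul2` is linear, so `Good` and `dt ≠ 0` are invariant under the two relabellings. -/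
def S_GRC : Prop := ∀ A B C : ℤ, RC (fun x => dt x ≠ 0 ∧ Good A B C x)

/-! ## Bad primes -/

/-- Both vectors are eigenvectors modulo `m` of `W` with the eigenvalue `l`, which is a root modulo `m²` of
the characteristic polynomial of `W`. -/
def Bad (A B C : ℤ) (m : ℕ) (x : PP) : Prop :=
  ∃ l : ℤ, (m : ℤ) ^ 2 ∣ l ^ 2 - B * l + A * C ∧ Dvd2 (m : ℤ) (mul2 A B C (-l) 1 x)

/-- TASK RED. PROOF. Let `¬ Good x`: there are `r, s, e ≥ 2` with `nm r s = e²`, `Dvd2 e (mul2 r s x)`, no prime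
divides all of `r, s, e`. (1) Let `ℓ ∣ e` be prime. Then `ℓ ∤ s` (otherwise `ℓ ∣ r²`, so `ℓ ∣ r`). Let
`u s ≡ 1 mod ℓ²` and `l = - u r`. Then `l² - B l + A C ≡ u² (r² + B r s + A C s²) = u² e² ≡ 0 mod ℓ²`, and
`(W - l) x ≡ u (s W + r) x mod ℓ²` has coordinates divisible by `ℓ`. So `Bad ℓ x`. (2) If `e` has an odd prime
factor we are done in the second part. Otherwise `e` is a power of `2`, `e ≥ 2`. If `4 ∣ e`, the same
computation with `u s ≡ 1 mod 16` (`s` is odd) gives `Bad 4 x`. If `e = 2` then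
`(2 r + B s)² + Δ s² = 16` with `Δ = 4 A C - B² > 4`: `s = 0` gives `r = ± 2`, excluded (`2` divides `r, s, e`);
`|s| ≥ 2` gives `Δ s² > 16`; `|s| = 1` gives `Δ = 16 - k²`, so `Δ ∈ {16, 15, 12, 7}`, excluded. -/
def S_RED : Prop :=
  ∀ A B C : ℤ, Prim A B C → ∀ x : PP, ¬ Good A B C x →
    (∃ l : ℕ, l.Prime ∧ Bad A B C l x) ∧
    (4 < 4 * A * C - B ^ 2 → 4 * A * C - B ^ 2 ≠ 7 → 4 * A * C - B ^ 2 ≠ 12 →
      4 * A * C - B ^ 2 ≠ 15 → 4 * A * C - B ^ 2 ≠ 16 →
      (∃ l : ℕ, l.Prime ∧ l ≠ 2 ∧ Bad A B C l x) ∨ Bad A B C 4 x)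

/-- TASK EXC (easy). If `Bad ℓ x` then `(2 l - B)² = (B² - 4 A C) + 4 (l² - B l + A C) ≡ B² - 4 A C mod ℓ²`. -/
def S_EXC : Prop :=
  ∀ (A B C : ℤ) (l : ℕ) (x : PP), Bad A B C l x →
    ∃ t : ZMod (l ^ 2), t ^ 2 = ((B ^ 2 - 4 * A * C : ℤ) : ZMod (l ^ 2))

/-- Pairs modulo `m`. -/
abbrev Res (m : ℕ) := (ZMod m × ZMod m) × (ZMod m × ZMod m)

/-- Reduction modulo `m`. -/
def rd (m : ℕ) (x : PP) : Res m :=
  (((x.1.1 : ZMod m), (x.1.2 : ZMod m)), ((x.2.1 : ZMod m), (x.2.2 : ZMod m)))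

/-- TASK CNTP. PROOF. Take for `R` the set of the pairs `(p, q)` over the field `ZMod l` for which some `λ` satisfies
`λ² - B λ + A C = 0`, `(W - λ) p = 0`, `(W - λ) q = 0`. There are at most two such `λ` (roots of a
polynomial of degree 2). For each of them `W - λ = (-λ, -C; A, B - λ)` is not the zero matrix (otherwise `l`
divides `A, C` and `B`), so its kernel has at most `l` elements (the solutions of a nontrivial linear equation
in two variables), and there are at most `l²` pairs. The pair `(0, 0)` belongs to both sets: if there are two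
values `λ` the number of pairs is at most `2 l² - 1`, if there is one it is at most `l² ≤ 2 l² - 1`, if there is
none `R` is empty. -/
def S_CNTP : Prop :=
  ∀ A B C : ℤ, Prim A B C → ∀ l : ℕ, l.Prime →
    ∃ R : Finset (Res l), R.card + 1 ≤ 2 * l ^ 2 ∧ ∀ x : PP, Bad A B C l x → rd l x ∈ R

/-- TASK CNT2. PROOF. `B` even and `Prim` give `A` or `C` odd. Modulo 2 the root `λ` of `λ² + A C` is unique and the
kernel of `W - λ = (λ, C; A, λ) ≠ 0` (mod 2) has 2 elements, so there are 4 pairs. (Finite: cases on `A, C` mod 2,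
or `decide` over `ZMod 2`.) -/
def S_CNT2 : Prop :=
  ∀ A B C : ℤ, Prim A B C → 2 ∣ B →
    ∃ R : Finset (Res 2), R.card ≤ 4 ∧ ∀ x : PP, Bad A B C 2 x → rd 2 x ∈ R

/-- TASK CNT12. PROOF. `Bad 4 x` depends only on `x mod 4` (given the existence of the root), `Bad 3 x` only on
`x mod 3`. (a) The number of classes `mod 4` with some `λ mod 4`, `λ² - B λ + A C ≡ 0 mod 4`,
`(W - λ) p ≡ (W - λ) q ≡ 0 mod 4` is at most `32`: it is a finite check over `A, B, C mod 4` not all even (e.g.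
by a `decide` per class, or: at most two such `λ mod 4` [for `B` odd the two roots mod 2 are different and lift
uniquely; for `B` even the root mod 2 is unique and so there are at most two roots mod 4], and for each the kernel
of `W - λ` in `(ZMod 4)²` has exactly 4 elements, since `W - λ` is nonzero mod 2 and its determinant is
`0 mod 4`). (b) The number of classes mod 3 with some `λ mod 3`, `λ² - B λ + A C ≡ 0`, `(W - λ) p ≡ (W - λ) q ≡ 0` is
at most `17 = 2 * 9 - 1` (as in CNTP with `l = 3`). (c) By the Chinese remainder theorem the number of classes mod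
12 which avoid both sets is at least `(256 - 32) (81 - 17) = 14336`, and `12⁴ - 14336 = 6400`. -/
def S_CNT12 : Prop :=
  ∀ A B C : ℤ, Prim A B C →
    ∃ R : Finset (Res 12), R.card ≤ 6400 ∧
      ∀ x : PP, Bad A B C 4 x ∨ Bad A B C 3 x → rd 12 x ∈ R

/-! ## Equidistribution -/

/-- Small boundary. -/
def SB (K : ℕ → Finset PP) : Prop :=
  ∀ v : PP, ∃ c : ℕ, ∀ N : ℕ, ((K N).filter (fun x => x + v ∉ K N)).card ≤ c * (N + 1) ^ 3

/-- TASK EQ. PROOF. For a residue class `ρ mod m` let `n ρ` be the number of `x ∈ K N` with `rd m x = ρ`. For two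
classes `ρ, ρ'` let `v` be the vector of the (finite) box `[0, m)⁴` with `ρ + rd v = ρ'`. The map
`x ↦ x + v` is injective and maps the `x ∈ K N` in `ρ` with `x + v ∈ K N` into the `x ∈ K N` in `ρ'`, so
`n ρ ≤ n ρ' + c (N + 1)³` with `c` the maximum (or the sum) of the constants `c_v` of `SB`. Summing over the `m⁴`
classes `ρ'`: `m⁴ n ρ ≤ |K N| + m⁴ c (N + 1)³`; sum over `ρ ∈ R`. -/
def S_EQ : Prop :=
  ∀ K : ℕ → Finset PP, SB K → ∀ m : ℕ, 0 < m → ∀ R : Finset (Res m), ∃ c : ℕ, ∀ N : ℕ,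
    m ^ 4 * ((K N).filter (fun x => rd m x ∈ R)).card ≤ R.card * (K N).card + c * (N + 1) ^ 3

/-- TASK SBX. PROOF. If `x ∈ XA N` and `x + v ∉ XA N` then one of the six linear forms `h` (`p₁, p₂, q₁, q₂,
p₁ - q₁, p₂ - q₂`) satisfies `|h x| ≤ N < |h (x + v)|`, so `N - |h v| < |h x| ≤ N`: at most `2 |h v|` values of
`h x` are possible, and for each value there are at most `(2 N + 1)³` pairs `x` in the box with this value (for
`h = p₁ - q₁`: `q₁` is determined by `p₁`). So `c = 6 * 2 * (2 max |v|) * 8` will do (any constant is fine). -/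
def S_SBX : Prop := SB XA

/-- TASK SBI. PROOF. `g = mul2 r s` is additive and bijective with the inverse `g' = mul2 (r + s B) (-s)` (because
`nm r s = 1`). For `y = g x`, `x ∈ K N`: `y + v = g (x + g' v)`, which is in the image iff `x + g' v ∈ K N`. So
the constant of `v` for the image is the constant of `g' v` for `K`. -/
def S_SBI : Prop :=
  ∀ A B C r s : ℤ, nm A B C r s = 1 → ∀ K : ℕ → Finset PP, SB K →
    SB (fun N => (K N).image (mul2 A B C r s))

/-- TASK BIG. PROOF. Let `κ = |A| + |B| + |C|`, so `fq v ≤ κ |v|²` (sup norm). Let `M = c N`. If `Bad l x` with the root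
`λ` (call it `k`), `x = (p, q)`, then `(W - k) p ≡ 0 mod l`, and `fq p = det (p, W p) ≡ det (p, k p) = 0 mod l`. So a
nonzero vector `v` of `Λ_k = {v : (W - k) v ≡ 0 mod l}` has `fq v ≥ l`, hence `|v|² ≥ l / κ`. `k` is one of at most
two classes modulo `l` (roots of a quadratic polynomial over the field `ZMod l`). For each of these, the number of the
points of the subgroup `Λ_k` in the box `[-M, M]²`: differences of different points are again in `Λ_k`, so with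
`δ = √(l / κ)` the points are `δ`-separated in the sup norm, and there are at most `(2 M / δ + 1)²` of them (divide
the box into squares of side `< δ`). If `δ > M` there is no nonzero point in the box, so there is no `x` with
`dt x ≠ 0`; if `δ ≤ M` the number is at most `(3 M / δ)² = 9 κ M² / l`. So there are at most
`2 (9 κ M² / l)² = 162 κ² M⁴ / l²` pairs (take a larger constant if convenient). -/
def S_BIG : Prop :=
  ∀ A B C : ℤ, Prim A B C → ∀ c : ℕ, ∃ c' : ℕ, ∀ N l : ℕ, l.Prime → ∀ F : Finset PP,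
    (∀ x ∈ F, dt x ≠ 0 ∧ Bad A B C l x ∧ InBox (c * N) x) → l ^ 2 * F.card ≤ c' * N ^ 4

open Classical in
/-- TASK COMB (to be proved from `S_EQ`, `S_CNTP`, `S_BIG`:
`theorem comb_ok : S_EQ → S_CNTP → S_BIG → S_COMB`). PROOF. Let `c'` be the constant of `S_BIG` and choose
`L ≥ 1` with `c' / L ≤ ε / 3`. If `x ∈ K N`, `dt x ≠ 0`, `¬ Good x` then (i) `rd m₀ x ∈ R₀`, or (ii) `Bad l x` for a
prime `l ≤ L`, `l ∉ E₀`, or (iii) `Bad l x` for a prime `l > L`. (i) at most `(|R₀| / m₀⁴) |K N| + c₀ (N + 1)³`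
(`S_EQ`). (ii) for each `l` at most `(2 l² / l⁴) |K N| + c_l (N + 1)³` (`S_CNTP`, `S_EQ`). (iii) at most
`Σ_{l > L} c' N⁴ / l² ≤ c' N⁴ / L` (only the finitely many `l` with `l² ≤ c' N⁴` occur, as the number of `x` is an
integer). The sum is at most `β |K N| + C (N + 1)³ + (ε/3) N⁴ ≤ β |K N| + ε N⁴` for large `N`. -/
def S_COMB : Prop :=
  ∀ A B C : ℤ, Prim A B C → ∀ K : ℕ → Finset PP, SB K → ∀ c : ℕ, (∀ N, ∀ x ∈ K N, InBox (c * N) x) →
    ∀ (m0 : ℕ) (R0 : Finset (Res m0)) (E0 : Finset ℕ) (β : ℝ), 0 < m0 →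
    (∀ x, ¬ Good A B C x → rd m0 x ∈ R0 ∨ ∃ l : ℕ, l.Prime ∧ l ∉ E0 ∧ Bad A B C l x) →
    (∀ F : Finset ℕ, (∀ l ∈ F, l.Prime ∧ l ∉ E0) →
      (R0.card : ℝ) / (m0 : ℝ) ^ 4 + ∑ l ∈ F, 2 / (l : ℝ) ^ 2 ≤ β) →
    ∀ ε : ℝ, 0 < ε → ∀ᶠ N : ℕ in atTop,
      (((K N).filter (fun x => dt x ≠ 0 ∧ ¬ Good A B C x)).card : ℝ) ≤
        β * (K N).card + ε * (N : ℝ) ^ 4

/-! ## Cardinalities -/

/-- TASK CXA. PROOF. `XA N` is (up to reordering the coordinates) the square of the set of the integer pairs `(a, b)` with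
`|a|, |b|, |a - b| ≤ N`, which has `Σ_{a=-N}^{N} (2 N + 1 - |a|) = 3 N² + 3 N + 1` elements. -/
def S_CXA : Prop := ∀ N : ℕ, (XA N).card = (3 * N ^ 2 + 3 * N + 1) ^ 2

/-- TASK DEP. PROOF. `dt x = 0`, `x = (p, q)` in the box `[-M, M]⁴`, `M = c N`: if `p₁ ≠ 0` then `q₂` is determined by
`p₁, p₂, q₁`: at most `(2 M + 1)³`; if `p₁ = 0` there are at most `(2 M + 1)³` pairs. -/
def S_DEP : Prop :=
  ∀ c : ℕ, ∃ c' : ℕ, ∀ N : ℕ, ∀ F : Finset PP, (∀ x ∈ F, dt x = 0 ∧ InBox (c * N) x) →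
    F.card ≤ c' * (N + 1) ^ 3

/-- TASK INT. PROOF. Let `g = r + s W`, `g' = g⁻¹ = (r + s B) - s W`, that is
`g' p = ((r + s B) p₁ + s C p₂, - s A p₁ + r p₂)`. If `x = (p, q)` is in the intersection, then `p, q, g' p, g' q` are in the
box `[-N, N]²`. If `C ≥ 2`: for each `p₁` the number of `p₂` with `|(r + s B) p₁ + s C p₂| ≤ N` is at most `N + 1` (these
`p₂` have pairwise distances with `C |p₂ - p₂'| ≤ 2 N`, so they lie in an interval of length `N`). If `A ≥ 2`: for each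
`p₂` there are at most `N + 1` values `p₁` with `|- s A p₁ + r p₂| ≤ N`. So there are at most `(2 N + 1)(N + 1)` vectors
`p`, and the same for `q`. -/
def S_INT : Prop :=
  ∀ A B C r s : ℤ, Prim A B C → nm A B C r s = 1 → (s = 1 ∨ s = -1) → (2 ≤ A ∨ 2 ≤ C) → ∀ N : ℕ,
    (XA N ∩ (XA N).image (mul2 A B C r s)).card ≤ ((2 * N + 1) * (N + 1)) ^ 2

/-- TASK RHO. The rhombic basis of the triangular lattice. Here `B = 1` or `B = -1`, `A = C = 1`, and `g = r + W` with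
`r = 0` (`B = 1`: `g p = (-p₂, p₁ + p₂)`) or `r = 1` (`B = -1`: `g p = (p₁ - p₂, p₁)`).
PROOF for `B = 1`. Let `H = {v : |v₁|, |v₂|, |v₁ + v₂| ≤ N}`. `g (box) = {v : |v₁|, |v₁ + v₂| ≤ N}` and
`g² (box) = {v : |v₂|, |v₁ + v₂| ≤ N}`, so the pairwise intersections of `X₀ = XA N`, `X₁ = g X₀`, `X₂ = g² X₀` are all equal
to `XH = {(p, q) : p, q, p - q ∈ H}`. So `|X₀ ∪ X₁ ∪ X₂| = 3 |X₀| - 2 |XH| = |X₀| + 2 |X₀ \ XH|`. `X₀ \ XH` contains
`E₁ = {(p, q) ∈ X₀ : p ∉ H}` and `E₂ = {(p, q) ∈ X₀ : q ∉ H}`. `|E₁| = |E₂| = 2 Σ (2 N + 1 - a)(2 N + 1 - b)` over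
`1 ≤ a, b ≤ N`, `a + b > N` (`p = ± (a, b)`; given `p`, the number of `q` is `(2 N + 1 - |p₁|)(2 N + 1 - |p₂|)`). The inner sum
over `b ∈ [N - a + 1, N]` of `2 N + 1 - b` is `a (N + 1) + a (a - 1)/2`, so `|E₁| = 2 Σ_{a=1}^{N} (2 N + 1 - a)(a (N + 1) +
a (a - 1)/2) ≥ (7/4) N⁴`. If `(p, q) ∈ E₁ ∩ E₂` then `p, q` are both in the corner `a, b ≥ 1, a + b > N` or both in the
opposite corner (opposite corners contradict `|p_i - q_i| ≤ N`), so `|E₁ ∩ E₂| ≤ 2 (N (N + 1)/2)²`. Hence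
`|X₀ \ XH| ≥ (7/2) N⁴ - N² (N + 1)²/2` and `|X₀ ∪ X₁ ∪ X₂| ≥ (3 N² + 3 N + 1)² + 7 N⁴ - N² (N + 1)² ≥ 15 N⁴`.
For `B = -1` the same with `v₁ + v₂` replaced by `v₁ - v₂` (conjugate by the reflection `(v₁, v₂) ↦ (v₁, -v₂)`, which maps
`XA N` to itself). -/
def S_RHO : Prop :=
  ∀ B r : ℤ, (B = 1 ∧ r = 0) ∨ (B = -1 ∧ r = 1) → ∀ N : ℕ,
    15 * N ^ 4 ≤ (XA N ∪ (XA N).image (mul2 1 B 1 r 1) ∪ (XA N).image (mul2 1 B 1 (r - 1) 1)).card

/-- TASK NUM. PROOF. The elements of `F` are different odd numbers `≥ 201`, and `2 / l² ≤ 1 / (l - 2) - 1/l` for the odd numbers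
`l` (telescoping over the odd numbers: `2/(l-2)/l ≥ 2/l²`), so the sum is at most `1/199`... precisely: with
`1/(l - 2) - 1/l = 2/(l (l - 2)) ≥ 2/l²`, the sum over all odd `l ≥ 203` is at most `1/201`, and primes `≥ 211` are such. -/
def S_NUM : Prop :=
  ∀ F : Finset ℕ, (∀ l ∈ F, l.Prime ∧ 200 < l) → ∑ l ∈ F, 2 / (l : ℝ) ^ 2 ≤ 1 / 200

/-- TASK LIM. From the bound for boxes to the limit inferior (and the upper bound for `c₀`). PROOF. (1) For `n ≥ 2` take
`N = ⌈√n⌉ - 1`, so `√n - 1 ≤ N < √n` and `T (Lat a b n) / n² ≥ κ N⁴ / n² ≥ κ (1 - 1/√n)⁴`, which is `≥ κ'` for large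
`n`; `κ' ≤ liminf` follows (`Filter.le_liminf_of_le`). (2) for every `n` with `N = ⌈√n⌉ - 1`: `√n ≤ N + 1` and
`N < √n`, so `T / n² ≤ (3/16) (√n + 3)⁴ / n² → 3/16`; hence `liminf ≤ 3/16`. -/
def S_LIM : Prop :=
  (∀ (a b : Pl) (κ κ' : ℝ), 0 ≤ κ' → κ' < κ →
    (∀ᶠ N : ℕ in atTop, ∀ n : ℕ, (N : ℝ) < √(n : ℝ) → κ * (N : ℝ) ^ 4 ≤ (T (Lat a b n) : ℝ)) →
    ENNReal.ofReal κ' ≤ liminf (fun n : ℕ => ratio a b n) atTop) ∧
  ((∀ n N : ℕ, √(n : ℝ) ≤ (N : ℝ) + 1 → (T (Lat e1 e2 n) : ℝ) ≤ 3 / 16 * ((N : ℝ) + 3) ^ 4) →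
    c0 ≤ ENNReal.ofReal (3 / 16))

end Pool.Agent.H711.DT
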